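import Pool.Agent.MP_6eaae3_al.DN.Pa

-- ======== part 0: formerly Pool.Agent.MP_6eaae3_al.DN.Mo
section MrgPart0

/-! The values of paths of the model in the free product. -/

namespace Pool.Agent.MP_6eaae3_al.DN

open FreeGroup (of)
open Set Cl Subgroup Pa

namespace Mo

variable {G : Type} [Group G] {k : ℕ}

/-- The letters that are followed. -/
def R0 (k : ℕ) : Set ((ℕ × ℕ) × Fin 4) := {x | x.1.1 ≤ k + 2 ∧ ((x.1.2 < 4 ∧ x.2 = 0) ∨
  (x.1.2 = 4 ∧ 0 < x.1.1 ∧ x.2 ≠ 3) ∨ (x.2 = 1 ∧ ((x.1.2 = 0 ∧ x.1.1 ≤ k + 1) ∨ x.1 = (k, 3))))}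

theorem pl_sub {i : ℕ} (h : i ≤ k + 2) : (cv k i).PL true ⊆ R0 k := by
  rintro ⟨⟨a, b⟩, d⟩ (⟨u, rfl | ⟨e, -⟩⟩ | ⟨u, rfl | rfl⟩)
  · simp [mem_cells] at u; simp [R0]; omega
  · cases e
  all_goals simp [mem_cells] at u; simp [R0]; omega

theorem ne3 : ∀ x ∈ R0 k, x.2 ≠ 3 := by
  rintro ⟨μ, d⟩ ⟨-, ⟨-, h⟩ | ⟨-, -, h⟩ | ⟨h, -⟩⟩ rfl <;> simp at h

/-- The sides next to the puncture. -/
def s0 (k : ℕ) (μ : ℕ × ℕ) : Bool := μ.1 = k + 2
def t0 (k : ℕ) (x : (ℕ × ℕ) × Fin 4) : Bool :=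
  (x.1.1 = k + 2 ∧ ¬ (x.1.2 = 4 ∧ x.2 = 0)) ∨ (x.1 = (k + 1, 4) ∧ x.2 = 0) ∨ (x.1 = (k + 1, 0) ∧ x.2 = 1)

/-- The sides beyond the two cut marks of the curve `s`. -/
def s1 (k s : ℕ) (μ : ℕ × ℕ) : Bool :=
  (s < μ.1 ∧ s ≤ k) ∨ (μ.1 = s ∧ (μ.2 = 2 ∨ (μ.2 = 0 ∧ s = k + 1)))
def t1 (k s : ℕ) (x : (ℕ × ℕ) × Fin 4) : Bool :=
  (s < x.1.1 ∧ s ≤ k) ∨ (x.1.1 = s ∧ (x.1.2 = (if x.2 = 0 then 1 else 2) ∨ (x.1.2 = 0 ∧ s = k + 1)))

theorem ch0 (i : ℕ) : ∃ u, Ch (s0 k) (t0 k) u u (cv k i).cells := by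
  refine ⟨decide (i = k + 2), ?_⟩
  simp only [cv, cells]
  split_ifs <;> simp [Ch, s0, t0] <;> omega

theorem ch1 {i s : ℕ} (h : i ≤ k + 2) (hs : s ≤ k + 1) : ∃ u, Ch (s1 k s) (t1 k s) u u (cv k i).cells := by
  refine ⟨decide (s < i ∧ s ≤ k), ?_⟩
  simp only [cv, cells]
  split_ifs <;> simp only [Ch, s1, t1, List.cons_append, List.nil_append, if_true, if_false,
    Bool.false_eq_true, decide_eq_decide, Fin.reduceEq, true_and, true_or, and_true] <;> omega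

theorem ps {sr tg} (h : ∀ i ≤ k + 2, ∃ u, Ch sr tg u u (cv k i).cells) (Y : Md k G) {a}
    (ha : a ∈ Pr Y.g (Iic (k + 2))) : Y.ψ a ∈ PS (R0 k) sr tg :=
  cl_map Y.ψ (by
    rintro _ ⟨i, hi, rfl⟩
    obtain ⟨u, e⟩ := h i hi
    rw [Y.tw i hi]
    exact tau_mem (pl_sub hi) ne3 e) ha

theorem sid (Y : Md k G) {a} (ha : a ∈ Pr Y.g (Iic (k + 2))) {s : ℕ} (hs : s ≤ k + 1) {μ}
    (h : (μ, 1) ∈ R0 k) (av : Av (Y.ψ a (lb μ)) s) : Y.ψ a (lb μ) ∈ Fre {x | x ∈ R0 k ∧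
      (x ≠ ((s, 1), 0) ∧ x ≠ ((s, 2), 0)) ∧ s1 k s x.1 = s1 k s μ} := by
  have := (ps (fun _ e => ch1 e hs) Y ha).1 _ _ _ (.gen _ h)
  rw [show t1 k s (μ, 1) = s1 k s μ by simp [t1, s1]] at this
  refine Fre.mono ?_ (Pa.side (Z := {x | x ≠ ((s, 1), 0) ∧ x ≠ ((s, 2), 0)}ᶜ) (fun ⟨⟨a, b⟩, d⟩ _ e => ?_)
    this (by rw [compl_compl]; exact Fre.inter av.1 av.2))
  · exact fun _ e => ⟨e.1, not_not.1 e.2.1, e.2.2⟩
  · simp only [t1, s1, decide_eq_decide]
    split_ifs with q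
    · subst q; simp at e; omega
    · rfl

/-! Congruence modulo the loops around the puncture of the other sheet. -/

theorem pa_xx (i : ℕ) : pa k (xx i) = if i = k + 3 then 1 else -1 := lft_xx _ _ _

theorem nz_map {φ : Gm →* Gm} (h : ∀ c, pa k c = -1 → φ (c * xx (k + 3) * c⁻¹) ∈ Nz k) {n}
    (hn : n ∈ Nz k) : φ n ∈ Nz k := cl_map φ (by rintro _ ⟨c, a, rfl⟩; exact h c a) hn

theorem nz_gen {c n} (h : pa k c = -1) (e : n = c * xx (k + 3) * c⁻¹) : n ∈ Nz k :=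
  Subgroup.subset_closure ⟨c, h, e⟩

theorem nz_conj {u n} (h : pa k u = 1) (hn : n ∈ Nz k) : u * n * u⁻¹ ∈ Nz k :=
  nz_map (φ := (MulAut.conj u).toMonoidHom) (fun c a => nz_gen (c := u * c) (by simp [h, a])
    (by simp [mul_assoc])) hn

def Cg (k : ℕ) (u v : Gm) : Prop := u * v⁻¹ ∈ Nz k

theorem Cg.of_eq {u v} (h : u = v) : Cg k u v := by simp [Cg, h]

theorem Cg.symm {u v} (h : Cg k u v) : Cg k v u := by simpa [Cg] using inv_mem h

theorem Cg.trans {u v w} (h : Cg k u v) (h' : Cg k v w) : Cg k u w := by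
  simpa [Cg, mul_assoc] using mul_mem h h'

theorem Cg.mul {u v u' v'} (h : Cg k u v) (h' : Cg k u' v') (e : pa k u = 1) :
    Cg k (u * u') (v * v') := by
  simpa [Cg, mul_assoc] using mul_mem (nz_conj e h') h

theorem Cg.inv {u v} (h : Cg k u v) (e : pa k u = 1) : Cg k u⁻¹ v⁻¹ := by
  simpa [Cg, mul_assoc] using nz_conj (u := u⁻¹) (by simp [e]) (inv_mem h)

def Iv (k : ℕ) : Subgroup SD where
  carrier := {b | (∀ g, pa k (b.right g) = pa k g) ∧ pa k b.left = 1 ∧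
    b.right (xx (k + 3)) = b.left⁻¹ * xx (k + 3) * b.left}
  one_mem' := by simp
  mul_mem' := fun a b => ⟨fun g => by simp [a.1, b.1], by simp [a.1, a.2.1, b.2.1], by
    simp [a.2.2, b.2.2, mul_assoc]⟩
  inv_mem' := fun {b} a => by
    have e : ∀ g, pa k (b.right⁻¹ g) = pa k g := fun g => by rw [← a.1]; simp
    refine ⟨e, by simpa [a.2.1] using e b.left⁻¹, b.right.injective ?_⟩
    simp [a.2.2, mul_assoc]

def Cb (b : SD) (u : Bool) : Gm := if u then b.left else 1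

theorem pa_Cb {b} (h : b ∈ Iv k) (u) : pa k (Cb b u) = 1 := by cases u <;> simp [Cb, h.2.1]

theorem Cg.act {b} (h : b ∈ Iv k) {y y'} (e : Cg k y y') (u v) :
    Cg k (Cb b u * b.right y * (Cb b v)⁻¹) (Cb b u * b.right y' * (Cb b v)⁻¹) := by
  have := nz_conj (pa_Cb h u) (nz_map (φ := b.right.toMonoidHom) (fun c a =>
    nz_gen (c := b.right c * b.left⁻¹) (by simp [h.1, h.2.1, a]) (by simp [h.2.2, mul_assoc])) e)
  simpa [Cg, mul_assoc] using this

variable (w : FL (ℕ × ℕ) →* Gm)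

def Ok (k : ℕ) (x : MulAut (FL (ℕ × ℕ)) × SD) : Prop := ∀ u v y, Pth (R0 k) (s0 k) (t0 k) u v y →
  Cg k (w (x.1 y)) (Cb x.2 u * x.2.right (w y) * (Cb x.2 v)⁻¹)

def Gd (k : ℕ) : Subgroup (MulAut (FL (ℕ × ℕ)) × SD) where
  carrier := {x | x.1 ∈ PS (R0 k) (s0 k) (t0 k) ∧ x.2 ∈ Iv k ∧ Ok w k x}
  one_mem' := ⟨one_mem _, one_mem _, fun u v y _ => .of_eq (by cases u <;> cases v <;> simp [Cb])⟩
  mul_mem' := fun a b => ⟨mul_mem a.1 b.1, mul_mem a.2.1 b.2.1, fun u v y h =>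
    ((a.2.2 u v _ (b.1.1 u v y h)).trans ((b.2.2 u v y h).act a.2.1 u v)).trans
      (.of_eq (by cases u <;> cases v <;> simp [Cb, mul_assoc]))⟩
  inv_mem' := fun a => ⟨inv_mem a.1, inv_mem a.2.1, fun u v y h =>
    (Cg.trans (.of_eq (by simp)) (((a.2.2 u v _ (a.1.2 u v y h)).act (inv_mem a.2.1) u v).trans
      (.of_eq (by cases u <;> cases v <;> simp [Cb, mul_assoc])))).symm⟩

theorem ok_of (hw : ∀ y, pa k (w y) = 1) {x : MulAut (FL (ℕ × ℕ)) × SD} (h : ∀ l ∈ R0 k,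
    Cg k (w (x.1 (of l))) (Cb x.2 (s0 k l.1) * x.2.right (w (of l)) * (Cb x.2 (t0 k l))⁻¹)) :
    Ok w k x := fun u v y a => by
  induction a with
  | one => exact .of_eq (by simp)
  | gen l a => exact h l a
  | inv _ a => rw [map_inv, map_inv]; exact (a.inv (hw _)).trans (.of_eq (by simp [mul_assoc]))
  | mul _ _ a b => rw [map_mul, map_mul]; exact (a.mul b (hw _)).trans (.of_eq (by simp [mul_assoc]))

variable (k) (e : Gm)

def E (j : ℕ) : Gm := Cw 0 j * e * xx (k + 4) ^ j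

/-- The values of the letters. -/
def wv (x : (ℕ × ℕ) × Fin 4) : Gm :=
  if x.1.2 = 4 then (if x.2 = 0 then (if x.1.1 ≤ k then E k e (x.1.1 + 1) else if x.1.1 = k + 1 then 1
      else E k e (k + 2))
    else if x.2 = 1 then (if x.1.1 ≤ k + 1 then E k e x.1.1 else xx (k + 1) * xx (k + 2)) else 1)
  else if x.2 = 0 then (if x.1 = (0, 3) then e⁻¹ else if x.1 = (k + 1, 2) then
    Cw 0 (k + 4) * e * xx (k + 4) ^ (k + 1) else 1)
  else if x.2 = 1 then (if x.1.2 = 0 then (if x.1.1 ≤ k then E k e (x.1.1 + 1) else 1)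
    else xx (k + 4) ^ k * e⁻¹ * (Cw 0 (k + 1))⁻¹ * xx (k + 4)) else 1

def ww : FL (ℕ × ℕ) →* Gm := FreeGroup.lift (wv k e)

variable {k e}

theorem ww_of (x) : ww k e (of x) = wv k e x := FreeGroup.lift_apply_of

theorem pa_Cw {j : ℕ} (h : j ≤ k + 3) : pa k (Cw 0 j) = (-1) ^ j := by
  induction j with
  | zero => simp [Cw]
  | succ j ih => rw [Cw_succ j.zero_le, map_mul, ih (by omega), pa_xx, if_neg (by omega), pow_succ']

theorem pa_T : pa k (xx (k + 4)) = -1 := by rw [pa_xx, if_neg (by omega)]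

theorem pa_ww (he : pa k e = 1) (y) : pa k (ww k e y) = 1 := by
  have a : ∀ j ≤ k + 3, pa k (E k e j) = 1 := fun j h => by
    simp [E, pa_Cw h, pa_T, he, ← mul_pow]
  refine Fre.map_mem (K := (pa k).ker) (ww k e) (fun x _ => ?_) (mem_Fre_univ y)
  rw [ww_of, wv, MonoidHom.mem_ker]
  split_ifs <;> first | exact map_one _ | exact a _ (by omega) | skip
  · simp [pa_xx]
  · simp [he]
  · simp [Cw_succ, pa_Cw, pa_xx, he, pow_succ, ← mul_pow]
  · simp [pa_Cw, pa_xx, he, pow_succ, ← mul_pow]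

theorem T2 (j : ℕ) : xx (k + 4) ^ (j + 2) = xx (k + 4) ^ j := by
  rw [pow_add, sq, xx_mul_self, mul_one]

theorem Ti (i j : ℕ) : (xx i ^ j)⁻¹ = xx i ^ j := by rw [← inv_pow, xx_inv]

theorem TT (i j : ℕ) (g : Gm) : xx i ^ j * (xx i ^ j * g) = g := by
  nth_rw 1 [← Ti]; rw [inv_mul_cancel_left]

theorem E2 (j : ℕ) : E k e (j + 2) = xx (j + 1) * xx j * E k e j := by
  simp [E, T2, Cw_succ, mul_assoc]

/-- The loop along the curve `i`. -/
def La (k i : ℕ) : Gm := if i ≤ k then xx (i + 1) * xx i else if i = k + 1 then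
  xx (k + 3) * xx (k + 2) * xx (k + 1) else xx (k + 2) * xx (k + 1)

theorem ell_at {i : ℕ} {p} (n : ℕ) (h : (cells k i)[n]? = some p) : (cv k i).ell true p =
    out true p * pth true ((cells k i).drop (n + 1)) * pth true ((cells k i).take n) * inl p :=
  Rec.ell_eq true (by
    obtain ⟨a, rfl⟩ := List.getElem?_eq_some_iff.1 h
    exact (List.take_append_drop n _).symm.trans (congrArg _ (List.drop_eq_getElem_cons a)))

theorem ww_ell {i : ℕ} (hi : i ≤ k + 2) {p} (hp : p ∈ (cv k i).cells)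
    (h : (p.1, if p.2 then 0 else 1) ∈ R0 k) : ww k e ((cv k i).ell true p) =
      if p = ((k, 3), false) then (E k e k)⁻¹ * E k e (k + 2) else La k i := by
  have e0 : E k e 0 = e := by simp [E, Cw]
  have e4 : Cw 0 (k + 4) * e * xx (k + 4) ^ (k + 1) = xx (k + 3) * xx (k + 2) * xx (k + 1) *
      E k e (k + 1) := by simp [E, Cw_succ, mul_assoc]
  obtain ⟨⟨a, b⟩, _ | _⟩ := p <;> rw [mem_cells] at hp <;> simp [R0] at h hp
  · have : ∀ n, (cells k i)[(if 0 < i then 1 else 0) + n]? = some ((a, b), false) → _ :=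
      fun n => ell_at ((if 0 < i then 1 else 0) + n)
    rcases hp with ⟨rfl, u⟩ | ⟨rfl, u, rfl | ⟨rfl, rfl⟩⟩
    · rcases h.2 with ⟨rfl, -⟩ | ⟨rfl, v⟩ | ⟨rfl, rfl⟩
      · omega
      · rcases v.eq_or_lt with rfl | v
        · rw [this 1 (by simp [cells])]
          simp [cells, out, inl, ld, lb, lt, ww_of, wv, La, e4, mul_assoc]
        · replace v : a ≤ k := by omega
          rw [this 0 (by rcases a with _ | a <;> simp [cells, v])]
          rcases a with _ | a <;> rcases v.eq_or_lt with rfl | v' <;>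
            simp (disch := omega) [cells, out, inl, ld, lb, lt, ww_of, wv, La, e0, E2, mul_assoc,
              if_pos, if_neg]
      · rw [this 5 (by rcases a with _ | a <;> simp [cells])]
        rcases a with _ | a <;> simp [cells, out, inl, ld, lb, lt, ww_of, wv, e0, mul_assoc]
    · rw [this 2 (by rcases i with _ | i <;> simp [cells, u])]
      rcases i with _ | i <;> rcases u.eq_or_lt with rfl | v' <;>
        simp (disch := omega) [cells, out, inl, ld, lb, lt, ww_of, wv, La, e0, E2, mul_assoc,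
          if_pos, if_neg]
    · rw [this 3 (by rcases i with _ | i <;> simp [cells])]
      rcases i with _ | i <;> simp [cells, out, inl, ld, lb, lt, ww_of, wv, La, e0, E2, mul_assoc]
  · obtain ⟨u, rfl, rfl⟩ := hp
    rw [ell_at 0 (by simp [cells, u])]
    rcases hi.eq_or_lt with rfl | v
    · simp [cells, out, inl, ld, lb, lt, ww_of, wv, La]
    rcases (Nat.le_of_lt_succ v).eq_or_lt with rfl | v
    · simp [cells, out, inl, ld, lb, lt, ww_of, wv, La, e4, mul_assoc]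
    rcases (Nat.le_of_lt_succ v).eq_or_lt with rfl | v'
    · simp [cells, out, inl, ld, lb, lt, ww_of, wv, La, E2, mul_assoc, u, u.ne']
    · simp (disch := omega) [cells, out, inl, ld, lb, lt, ww_of, wv, La, E2, mul_assoc, if_pos, if_neg]

theorem ww_tw {i : ℕ} (hi : i ≤ k + 2) {a b : ℕ} {d : Fin 4} (h : ((a, b), d) ∈ R0 k) :
    ww k e (tw k i (of ((a, b), d))) = (if d = 1 ∧ a = k ∧ b = 3 ∧ i = k then (E k e k)⁻¹ * E k e (k + 2)
      else if (d = 1 ∧ ((a = i ∧ b < 4) ∨ (b = 4 ∧ i ≤ k ∧ (a = i + 1 ∨ (i = k ∧ a = i + 2))))) ∨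
        (d = 0 ∧ 0 < i ∧ a = i ∧ b = 4) then La k i else 1) * wv k e ((a, b), d) := by
  rw [tw, Rec.tau_of, Rec.rg, if_neg (ne3 _ h), mul_one, map_mul, ww_of, Rec.lf]
  congr 1
  by_cases u : d = 1 ∧ ((a, b), false) ∈ (cv k i).cells
  · rw [if_pos u, ww_ell hi u.2 (u.1 ▸ h)]
    have := mem_cells.1 u.2
    simp only [Bool.false_eq_true, if_false] at this
    rw [if_pos (Or.inl ⟨u.1, this⟩)]
    exact if_congr (by simp [u.1]; omega) rfl rfl
  rw [if_neg u]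
  simp only [mem_cells, Bool.false_eq_true, if_false, if_true] at u ⊢
  by_cases v : d = 0 ∧ 0 < i ∧ a = i ∧ b = 4
  · rw [if_pos v, ww_ell hi (p := ((a, b), true)) (mem_cells.2 v.2) (v.1 ▸ h), if_neg (by simp), if_neg (by omega),
      if_pos (Or.inr v)]
  · rw [if_neg v, if_neg fun q => ne3 _ h q.1, if_neg (by omega), if_neg (by tauto), map_one]

theorem sg_symm (i j : ℕ) : (sg i).symm (xx j) =
    if j = i then xx i * xx (i + 1) * xx i else if j = i + 1 then xx i else xx j := sg_inv_xx i j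

theorem r_xx {i : ℕ} (j : ℕ) : (rs k i).right (xx j) = if i = k + 1 then (if j = k + 1 then
    xx (k + 3) * xx (k + 2) * xx (k + 3) else if j = k + 2 then xx (k + 3) * xx (k + 2) * xx (k + 3) *
      xx (k + 1) * xx (k + 3) * xx (k + 1) * xx (k + 3) * xx (k + 1) * xx (k + 3) * xx (k + 2) * xx (k + 3)
    else if j = k + 3 then (rs k i).left⁻¹ * xx (k + 3) * (rs k i).left else xx j)
    else sg (min i (k + 1)) (xx j) := by
  unfold rs
  split_ifs with a b c d e f <;> try subst_vars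
  all_goals first | omega | simp (disch := omega) [sq, sg_xx, sg_symm, mul_assoc, if_neg]

theorem r_l {i : ℕ} : (rs k i).left = if i = k + 1 then
    xx (k + 1) * xx (k + 3) * xx (k + 2) * xx (k + 3) else 1 := by
  unfold rs
  split_ifs <;> first | omega | rfl

theorem r_iv (i : ℕ) : rs k i ∈ Iv k := by
  refine ⟨fun g => DFunLike.congr_fun (hom_ext (φ := (pa k).comp (rs k i).right.toMonoidHom)
    fun j => ?_) g, ?_, ?_⟩
  · show pa k ((rs k i).right _) = _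
    rw [r_xx, sg_xx]
    split_ifs <;> (try subst_vars) <;> simp (disch := omega) [pa_xx, if_neg]
  · rw [r_l]; split_ifs <;> simp [pa_xx]
  · rw [r_xx]
    split_ifs with a <;> first | omega | simp (disch := omega) [r_l, a, sg_xx, if_neg]

theorem r_T (i : ℕ) : (rs k i).right (xx (k + 4)) = xx (k + 4) := by
  rw [r_xx]; split_ifs <;> first | omega | simp (disch := omega) [sg_xx, if_neg]

theorem r_sg {i : ℕ} (h : i ≠ k + 1) : (rs k i).right = sg (min i (k + 1)) :=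
  autx fun j => by rw [r_xx, if_neg h]

theorem sg_C (i j : ℕ) : sg i (Cw 0 j) = (if i + 1 = j then xx j * xx i else 1) * Cw 0 j := by
  split_ifs with q
  · subst q
    rw [sg_Cw' i.zero_le]
    simp [Cw_succ, mul_assoc]
  · rw [sg_Cw (by omega) q, one_mul]

theorem r_Cw (i : ℕ) {j : ℕ} (h : j ≤ k + 1) :
    (rs k i).right (Cw 0 j) = (if i + 1 = j then xx j * xx i else 1) * Cw 0 j := by
  by_cases q : i = k + 1
  · rw [if_neg (by omega), one_mul]
    exact GS.eq _ (MonoidHom.id _) (fun l u => by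
      have := u.2; rw [r_xx, if_pos q, if_neg (by omega), if_neg (by omega), if_neg (by omega)]; rfl)
      (Cw_mem 0 j)
  · rw [r_sg q, sg_C]
    rcases le_or_gt i k with u | u
    · rw [min_eq_left (by omega)]
    · rw [if_neg (by omega), if_neg (by omega)]

theorem r_C4 (i : ℕ) : (rs k i).right (Cw 0 (k + 4)) = Cw 0 (k + 4) := by
  by_cases q : i = k + 1
  · subst q
    simp [Cw_succ (b := k + 3), Cw_succ (b := k + 2), Cw_succ (b := k + 1), r_Cw, r_xx, r_l, mul_assoc]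
  · rw [r_sg q, sg_C, if_neg (by omega), one_mul]

theorem r_ok {i : ℕ} (hi : i ≤ k + 2) (he : pa k e = 1) (hr : (rs k i).right e = e) :
    Ok (ww k e) k (tw k i, rs k i) := by
  have rE : ∀ j ≤ k + 1, (rs k i).right (E k e j) = (if i + 1 = j then xx j * xx i else 1) * E k e j :=
    fun j h => by simp only [E, map_mul, map_pow, r_T, hr, r_Cw i h, mul_assoc]
  have E1 : E k e (k + 2) = xx (k + 1) * (Cw 0 (k + 1) * e * xx (k + 4) ^ k) := by
    simp [E, T2, Cw_succ, mul_assoc]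
  have E0 : E k e k = xx k * (Cw 0 (k + 1) * e * xx (k + 4) ^ k) := by simp [E, Cw_succ, mul_assoc]
  have n1 : Cg k (xx (k + 3) * xx (k + 2) * xx (k + 1))
      (xx (k + 1) * xx (k + 3) * xx (k + 2) * xx (k + 3))⁻¹ :=
    nz_gen (c := xx (k + 3) * xx (k + 2)) (by simp [pa_xx]) (by simp [mul_assoc])
  refine ok_of _ (pa_ww he) fun ⟨⟨a, b⟩, d⟩ h => ?_
  rw [ww_tw hi h, ww_of]
  obtain ⟨u, ⟨v, rfl⟩ | ⟨rfl, v, w⟩ | ⟨rfl, ⟨rfl, v⟩ | v⟩⟩ := h
  · refine .of_eq ?_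
    simp only at u v
    simp only [wv, Cb, s0, t0, if_neg v.ne, if_true]
    split_ifs <;> simp_all [r_T, r_C4]
  · simp only at u v w
    obtain rfl | rfl | rfl : d = 0 ∨ d = 1 ∨ d = 2 := by omega
    · rcases le_or_gt a k with q | q
      · refine .of_eq ?_
        by_cases i = a <;> (try subst_vars) <;>
          simp (disch := omega) [wv, Cb, s0, t0, if_pos, if_neg, rE, La]
      obtain rfl | rfl : a = k + 1 ∨ a = k + 2 := by omega
      · by_cases q : i = k + 1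
        · simpa [wv, Cb, s0, t0, q, La, r_l] using n1
        · exact .of_eq (by simp [wv, Cb, s0, t0, r_l, q, Ne.symm q])
      · refine .of_eq ?_
        obtain q | rfl | rfl | rfl : i < k ∨ i = k ∨ i = k + 1 ∨ i = k + 2 := by omega
        all_goals simp (disch := omega) [wv, Cb, s0, t0, if_neg, La, mul_assoc, E1, hr, r_Cw, r_xx, r_l,
          sg_xx]
    · rcases le_or_gt a (k + 1) with q | q
      · refine .of_eq ?_
        by_cases i + 1 = a <;> (try subst_vars) <;>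
          simp (disch := omega) [wv, Cb, s0, t0, if_pos, if_neg, rE, La]
      obtain rfl : a = k + 2 := by omega
      obtain q | rfl | rfl | rfl : i < k ∨ i = k ∨ i = k + 1 ∨ i = k + 2 := by omega
      iterate 2
        exact .of_eq (by simp (disch := omega) [wv, Cb, s0, t0, if_neg, La, mul_assoc, r_xx, r_l, sg_xx])
      · have := mul_mem (nz_gen (k := k) (c := xx (k + 1) * xx (k + 2) * xx (k + 3) * xx (k + 1))
          (by simp [pa_xx]) rfl) (nz_gen (c := xx (k + 1)) (by simp [pa_xx]) rfl)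
        simpa [wv, Cb, s0, t0, r_xx, r_l, Cg, mul_assoc] using this
      · exact .of_eq (by simp [wv, Cb, s0, t0, r_xx, r_l, sg_xx, mul_assoc])
    · exact .of_eq (by simp [wv, s0, t0])
  · simp only at u v
    rcases v.eq_or_lt with rfl | q
    · by_cases q : i = k + 1
      · simpa [wv, Cb, s0, t0, q, La, r_l] using n1
      · exact .of_eq (by simp [wv, Cb, s0, t0, r_l, q, Ne.symm q])
    · refine .of_eq ?_
      by_cases i = a <;> (try subst_vars) <;>
        simp (disch := omega) [wv, Cb, s0, t0, if_pos, if_neg, rE, La]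
  · cases v
    refine .of_eq ?_
    by_cases q : i = k
    · subst q
      rw [E0, E1]
      simp [wv, Cb, s0, t0, r_T, hr, r_Cw, mul_assoc, Ti, TT]
    · simp [wv, Cb, s0, t0, r_T, hr, r_Cw, q, Ne.symm q]

theorem master (he : pa k e = 1) (hr : ∀ i, (rs k i).right e = e) (Y : Md k G) {x}
    (hx : x ∈ Y.Γ (Iic (k + 2))) : x.1 ∈ Pr Y.g (Iic (k + 2)) ∧ (Y.ψ x.1, x.2) ∈ Gd (ww k e) k :=
  ⟨cl_map (MonoidHom.fst _ _) (by rintro _ ⟨i, hi, rfl⟩; exact mem_cl i hi rfl) hx,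
    cl_map (Y.ψ.prodMap (MonoidHom.id _)) (by
      rintro _ ⟨i, hi, rfl⟩
      obtain ⟨u, c⟩ := ch0 (k := k) i
      show (Y.ψ (Y.g i), rs k i) ∈ _
      rw [Y.tw i hi]
      exact ⟨tau_mem (pl_sub hi) ne3 c, r_iv i, r_ok hi he (hr i)⟩) hx⟩

theorem fixd (Y : Md k G) {S x} (hx : x ∈ Y.Γ S) {y} (h : ∀ i, (rs k i).right y = y) :
    x.2.right y = y :=
  cl_map (K := MulAction.stabilizer (MulAut Gm) y) (SemidirectProduct.rightHom.comp
    (MonoidHom.snd G SD)) (by rintro _ ⟨i, -, rfl⟩; exact h i) hx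

theorem kp_xx (i : ℕ) : kp k (xx i) = if i < k + 3 then xx i else 1 := by
  split_ifs with h
  exacts [pj_in h, pj_out h]

theorem Cg.kp {u v} (h : Cg k u v) : kp k u = kp k v := by
  have : DN.kp k (u * v⁻¹) ∈ (⊥ : Subgroup Gm) := cl_map _ (by rintro _ ⟨c, -, rfl⟩; simp [kp_xx]) h
  simpa [mul_inv_eq_one] using this

theorem kp_Cw {i j : ℕ} (h : j ≤ k + 3) : kp k (Cw i j) = Cw i j :=
  pj_fix (GS.mono (fun _ u => u.2.trans_le h) (Cw_mem i j))

/-- The second normalisation of the values. -/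
def e1 (k : ℕ) : Gm := (Cw 0 (k + 4))⁻¹ * xx (k + 4) ^ (k + 1)

theorem pa_e1 : pa k (e1 k) = 1 := by simp [e1, Cw_succ, pa_Cw, pa_xx, pow_succ, ← mul_pow]

theorem r_e1 (i : ℕ) : (rs k i).right (e1 k) = e1 k := by simp [e1, r_C4, r_T]

theorem kp_E1 {s j : ℕ} (h : s < j) (h' : j ≤ k + 3) : kp k (E k (e1 k) j) ∈ GS (Ioi s) := by
  have : kp k (E k (e1 k) j) = (Cw j (k + 3))⁻¹ := by
    simp [E, e1, Cw_succ (b := k + 3), kp_xx, kp_Cw h', kp_Cw, ← Cw_mul j.zero_le h']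
  exact this ▸ inv_mem (GS.mono (fun _ u => h.trans_le u.1) (Cw_mem _ _))

theorem high {s : ℕ} (hs : s ≤ k + 1) {y} (hy : y ∈ Fre {x | x ∈ R0 k ∧
    (x ≠ ((s, 1), 0) ∧ x ≠ ((s, 2), 0)) ∧ s1 k s x.1 = true}) : kp k (ww k (e1 k) y) ∈ GS (Ioi s) := by
  refine Fre.map_mem ((kp k).comp (ww k (e1 k))) (fun ⟨⟨a, b⟩, d⟩ ⟨h, c, u⟩ => ?_) hy
  simp only [s1, R0, mem_ofPred_eq, decide_eq_true_eq, Prod.mk.injEq, ne_eq] at h c u
  rw [MonoidHom.comp_apply, ww_of, wv]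
  simp only [Prod.mk.injEq]
  split_ifs <;>
    first | exact (map_one (kp k)).symm ▸ one_mem _ | exact kp_E1 (by omega) (by omega) | omega | skip
  · simpa [kp_xx] using mul_mem (xx_mem (by simp; omega)) (xx_mem (by simp; omega))
  · simp [e1, ← pow_add, kp_xx]
  · simpa [e1, kp_xx, Cw_succ (b := k + 3), Cw_succ (b := k + 2), Cw_succ (b := k + 1), mul_assoc] using
      mul_mem (xx_mem (by simp; omega)) (xx_mem (by simp; omega))

theorem low {s : ℕ} (hs : s ≤ k) {y} (hy : y ∈ Fre {x | x ∈ R0 k ∧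
    (x ≠ ((s, 1), 0) ∧ x ≠ ((s, 2), 0)) ∧ s1 k s x.1 = false}) : kp k (ww k 1 y) ∈ GS (Iio (s + 1)) := by
  have c0 : ∀ j ≤ s + 1, Cw 0 j ∈ GS (Iio (s + 1)) := fun j h =>
    GS.mono (fun _ u => u.2.trans_le h) (Cw_mem 0 j)
  have a0 : ∀ j ≤ s + 1, kp k (E k 1 j) ∈ GS (Iio (s + 1)) := fun j h => by
    simpa [E, kp_xx, kp_Cw (show j ≤ k + 3 by omega)] using c0 j h
  refine Fre.map_mem ((kp k).comp (ww k 1)) (fun ⟨⟨a, b⟩, d⟩ ⟨h, c, u⟩ => ?_) hy
  simp only [s1, R0, mem_ofPred_eq, decide_eq_false_iff_not, Prod.mk.injEq, ne_eq] at h c u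
  rw [MonoidHom.comp_apply, ww_of, wv]
  simp only [Prod.mk.injEq, inv_one]
  split_ifs <;> first | exact (map_one (kp k)).symm ▸ one_mem _ | exact a0 _ (by omega) | omega | skip
  simpa [kp_xx, kp_Cw] using c0 (k + 1) (by omega)

theorem zf {y} (hy : y ∈ Fre {((k + 1, 2), 0)}ᶜ) : ww k 1 y ∈ GS {k + 3}ᶜ := by
  have c : ∀ j ≤ k + 3, Cw 0 j ∈ GS {k + 3}ᶜ := fun j h =>
    GS.mono (fun _ u => (u.2.trans_le h).ne) (Cw_mem 0 j)
  have t : ∀ j, j ≠ k + 3 → xx j ∈ GS {k + 3}ᶜ := fun j h => xx_mem h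
  have a : ∀ j ≤ k + 3, E k 1 j ∈ GS {k + 3}ᶜ := fun j h =>
    mul_mem (mul_mem (c j h) (one_mem _)) (pow_mem (t _ (by omega)) _)
  refine Fre.map_mem (ww k 1) (fun ⟨μ, d⟩ h => ?_) hy
  rw [ww_of, wv, inv_one]
  split_ifs <;> first | exact one_mem _ | exact a _ (by omega) | skip
  · exact mul_mem (t _ (by omega)) (t _ (by omega))
  · exact (h (Prod.ext ‹_› ‹_›)).elim
  · exact mul_mem (mul_mem (mul_mem (pow_mem (t _ (by omega)) _) (one_mem _))
      (inv_mem (c _ (by omega)))) (t _ (by omega))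

end Mo

open Mo

theorem sd : S_SD := fun G _ k j Y hj a ha av =>
  Fre.mono (by
    rintro _ ⟨-, -, u⟩ rfl
    rcases hj with rfl | rfl <;> simp [s1] at u)
    (sid Y ha k.le_succ (by rcases hj with rfl | rfl <;> simp [R0]) av)

theorem ve : S_VE := by
  intro G _ k s Y hs x hx av
  obtain ⟨a, b⟩ := master pa_e1 r_e1 Y hx
  have m : ((k + 1, 0), 1) ∈ R0 k := by simp [R0]
  have := sid Y a hs m av
  rw [show s1 k s (k + 1, 0) = true by simp [s1]; omega] at this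
  have := high hs this
  rw [lb, (b.2.2 _ _ _ (.gen _ m)).kp] at this
  simpa [Cb, s0, t0, ww_of, wv] using this

theorem va : S_VA := by
  intro G _ k s t Y hs ht x hx av
  have m : ((t, 0), 1) ∈ R0 k := by simp [R0]; omega
  have T : x.2.right (xx (k + 4)) = xx (k + 4) := fixd Y hx r_T
  split_ifs with q
  · obtain ⟨a, b⟩ := master (map_one _) (fun _ => map_one _) Y hx
    have := sid Y a (hs.trans k.le_succ) m av
    rw [show s1 k s (t, 0) = false by simp [s1]; omega] at this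
    have := low hs this
    rw [lb, (b.2.2 _ _ _ (.gen _ m)).kp] at this
    simpa (disch := omega) [Cb, s0, t0, ww_of, wv, if_neg, if_pos, E, T, kp_xx] using this
  · obtain ⟨a, b⟩ := master pa_e1 r_e1 Y hx
    have := sid Y a (hs.trans k.le_succ) m av
    rw [show s1 k s (t, 0) = true by simp [s1]; omega] at this
    have := high (hs.trans k.le_succ) this
    rw [lb, (b.2.2 _ _ _ (.gen _ m)).kp] at this
    have := mul_mem this (inv_mem (kp_E1 (k := k) (j := t + 1) (by omega) (by omega)))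
    simpa (disch := omega) [Cb, s0, t0, ww_of, wv, if_neg, if_pos, E, T, fixd Y hx r_e1, mul_assoc,
      Ici_add_one_eq_Ioi] using this

theorem vh : S_VH := by
  intro G _ k Y x hx
  obtain ⟨-, -, i, b⟩ := master (map_one _) (fun _ => map_one _) Y hx
  have T : x.2.right (xx (k + 4)) = xx (k + 4) := fixd Y hx r_T
  refine ⟨fun h => ⟨_, (b _ _ _ (.gen ((k, 0), 1) (by simp [R0]))).symm, _, zf h, ?_⟩,
    fun h => ⟨_, (b _ _ _ (.gen ((k, 3), 1) (by simp [R0]))).symm, _, zf h, ?_⟩⟩ <;>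
  simp [Cb, s0, t0, ww_of, wv, lb, E, T]

end Pool.Agent.MP_6eaae3_al.DN

end MrgPart0

-- ======== part 1: formerly Pool.Agent.MP_6eaae3_al.DN.Dt
section MrgPart1

/-! Detection of double cosets in type `D`. -/

namespace Pool.Agent.MP_6eaae3_al.DN

open FreeGroup (of)
open Set Cl Subgroup

namespace Dt

variable {G : Type} [Group G] {k : ℕ} {g : ℕ → G}

theorem mono {S T : Set ℕ} (h : S ⊆ T) : Pr g S ≤ Pr g T := closure_mono (image_mono h)

theorem pu_mem {i : ℕ} (h : i ≤ k + 1) : pu g k i ∈ Pr g (Icc i (k + 2)) := by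
  induction h using Nat.decreasingInduction with
  | self => rw [pu_top]; exact mul_mem (mem_cl _ (by simp) rfl) (inv_mem (mem_cl _ (by simp) rfl))
  | of_succ i h ih =>
    have : g i ∈ Pr g (Icc i (k + 2)) := mem_cl _ (by simp; omega) rfl
    rw [pu_succ g (by omega)]
    exact mul_mem (mul_mem (inv_mem this) (mono (Icc_subset_Icc_left i.le_succ) ih)) this

theorem pu_le (s : ℕ) : Pr (pu g k) (Ioc s (k + 1)) ≤ Pr g (Iic (k + 2) \ {s}) :=
  (closure_le _).2 (by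
    rintro _ ⟨i, hi, rfl⟩
    refine mono (fun j u => ?_) (pu_mem hi.2)
    exact ⟨u.2, fun e => by have := hi.1; have := u.1; simp at e; omega⟩)

variable (Y : Md k G)

theorem part {h} (hh : h ∈ Pr (pu Y.g k) (Iic (k + 1))) : ∃ b, (h, b) ∈ Y.Γ (Iic (k + 2)) ∧
    (h, b) ∈ closure ((fun i => (pu Y.g k i, pu (rs k) k i)) '' Iic (k + 1)) := by
  obtain ⟨b, e⟩ := exists_pair _ (pu (rs k) k) hh
  refine ⟨b, (closure_le _).2 ?_ e, e⟩
  rintro _ ⟨i, hi, rfl⟩
  have := mono Icc_subset_Iic_self (pu_mem (g := fun i => (Y.g i, rs k i)) hi)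
  rwa [show pu (fun i => (Y.g i, rs k i)) k i = (pu Y.g k i, pu (rs k) k i) from
    Prod.ext (map_pu (MonoidHom.fst G SD) _ _ _) (map_pu (MonoidHom.snd G SD) _ _ _)] at this

/-- Detection along the chain formed by the tail and the second fork. -/
theorem chain (va : S_VA) {s t : ℕ} (hs : s ≤ k) (ht : t ≤ k) {β}
    (hβ : β ∈ Pr Y.g (Iic (k + 2) \ {k + 1})) (av : Av (Y.ψ β (lb (t, 0))) s) :
    Dd Y.g (Iic (k + 2) \ {s, k + 1}) (Iic (k + 2) \ {t, k + 1}) β := by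
  let c : ℕ → ℕ := fun i => if i ≤ k then i else k + 2
  have e : ∀ i < k + 2, rs k (c i) = ⟨1, rr false false (k + 2) i⟩ := fun i h => by
    simp only [c, rs, rr]
    split_ifs <;> first | rfl | omega | simp_all
    congr 2; omega
  have pr : PRel false false (k + 2) fun i => Y.g (c i) := ⟨fun i j u v => Y.rel.comm _ _
    (by simp only [c]; split_ifs <;> omega) (by simp only [c]; split_ifs <;> omega)
    (by simp only [c, up]; split_ifs <;> omega), fun i u _ _ => by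
      have := Y.rel.braid (c (i + 1)) (by simp only [c]; split_ifs <;> omega)
        (by simp only [c]; split_ifs <;> omega)
      rwa [show up k (c (i + 1)) = c i by simp only [c, up]; split_ifs <;> omega] at this,
    fun i _ u => by simp at u⟩
  obtain ⟨a, ha⟩ := exists_pair (fun i => Y.g (c i)) (rr false false (k + 2)) (S := Iio (k + 2))
    ((closure_le _).2 (by
      rintro _ ⟨i, ⟨u, v⟩, rfl⟩
      exact mem_cl (min i (k + 1)) (by simp) (by
        simp at u v; simp only [c]; congr 1; split_ifs <;> omega)) hβ)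
  have a1 : a ∈ closure (rr false false (k + 2) '' Iio (k + 2)) :=
    cl_map (MonoidHom.snd _ _) (by rintro _ ⟨i, w, rfl⟩; exact mem_cl i w rfl) ha
  have hx : (β, SemidirectProduct.inr a) ∈ Y.Γ (Iic (k + 2)) :=
    cl_map ((MonoidHom.id G).prodMap SemidirectProduct.inr) (by
      rintro _ ⟨i, w, rfl⟩
      exact mem_cl (c i) (by simp only [c]; split_ifs <;> simp; omega) (by rw [e i w]; rfl)) ha
  have v := va G k s t Y hs ht _ hx av
  have c1 : Cw 0 (t + 1) ∈ GS (Iio (k + 3)) := GS.mono (fun _ u => u.2.trans_le (by omega)) (Cw_mem _ _)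
  have c2 := Bk.map_GS (rr_mem a1).1 Ico_subset_Iio_self c1
  rw [SemidirectProduct.right_inr, kp, pj_fix c2, pj_fix (mul_mem c2 (inv_mem c1))] at v
  obtain ⟨p, hp, q, hq, rfl⟩ := dcp a1 (by omega) (by omega) v
  obtain ⟨p, hp, q, hq, rfl⟩ := dc_of_faith (fun x => pr.faith (by omega) (by simp)) sdiff_subset
    sdiff_subset ha hp hq
  have : ∀ s ≤ k, closure ((fun i => Y.g (c i)) '' (Iio (k + 2) \ {s})) ≤
      Pr Y.g (Iic (k + 2) \ {s, k + 1}) := fun s w => (closure_le _).2 (by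
    rintro _ ⟨i, ⟨u, v⟩, rfl⟩
    exact mem_cl (c i) (by simp at u v; simp only [c]; split_ifs <;> simp <;> omega) rfl)
  exact ⟨p, this s hs hp, q, this t ht hq, rfl⟩

end Dt

open Dt in
theorem dt (de : S_DE) (th : S_TH) (fx : S_FX) : S_DT := by
  intro G _ k Y a ha
  have av : ∀ {s β y}, β ∈ Pr Y.g (Iic (k + 2) \ {s}) → Av (Y.ψ β y) s → Av y s := fun h u =>
    ⟨((st G k _ 1 Y (by omega) _ h).2 _).1 u.1, ((st G k _ 2 Y (by omega) _ h).2 _).1 u.2⟩
  have E : ∀ s ≤ k + 1, Av (Y.ψ a (lb (k + 1, 0))) s →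
      Dd Y.g (Iic (k + 2) \ {s}) (Iic (k + 2) \ {k + 1}) a := fun s hs u => by
    obtain ⟨h, hh, β, hβ, rfl⟩ := de G k _ Y.rel a ha
    obtain ⟨b, v, w⟩ := part Y hh
    rw [map_mul, MulAut.mul_apply, (st G k _ 0 Y (by omega) _ hβ).1] at u
    exact ⟨h, pu_le s (th G k s _ _ w (ve G k s Y hs _ v u)), β, hβ, rfl⟩
  have H : Y.ψ a (lb (k, 0)) ∈ Fre {((k + 1, 2), 0)}ᶜ → Y.ψ a (lb (k, 3)) ∈ Fre {((k + 1, 2), 0)}ᶜ →
      Dd Y.g (Iic (k + 2) \ {k + 1}) (Iic (k + 2) \ {k}) a := fun u u' => by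
    obtain ⟨h, hh, β, hβ, e⟩ := de G k _ Y.rel _ (inv_mem ha)
    obtain rfl : a = β⁻¹ * h⁻¹ := by rw [← mul_inv_rev, ← e, inv_inv]
    obtain ⟨b, v, w⟩ := part Y (inv_mem hh)
    rw [map_mul, MulAut.mul_apply, (st G k _ 2 Y (by omega) _ (inv_mem hβ)).2] at u u'
    exact ⟨_, inv_mem hβ, _, pu_le k (th G k k _ _ w (fx k b (cl_map (MonoidHom.snd _ _) (by
      rintro _ ⟨i, z, rfl⟩; exact mem_cl i z rfl) w) ((vh G k Y _ v).1 u) ((vh G k Y _ v).2 u'))), rfl⟩
  have HT : ∀ s ≤ k, Dd Y.g (Iic (k + 2) \ {k + 1}) (Iic (k + 2) \ {k}) a → Av (Y.ψ a (lb (k, 0))) s →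
      Dd Y.g (Iic (k + 2) \ {s, k + 1}) (Iic (k + 2) \ {k}) a := by
    rintro s hs ⟨β, hβ, q, hq, rfl⟩ u
    rw [map_mul, MulAut.mul_apply, (st G k _ 0 Y (by omega) _ hq).1] at u
    obtain ⟨p, hp, q', hq', rfl⟩ := chain Y va hs le_rfl hβ u
    exact ⟨p, hp, _, mul_mem (mono (sdiff_subset_sdiff_right (by simp)) hq') hq, mul_assoc _ _ _⟩
  refine ⟨E, fun s hs t ht u v => ?_, fun u v => H u.2 v.2, fun s hs u v => HT s hs (H u.2 v.2),
    fun u v => ?_⟩
  · obtain ⟨h, hh, β, hβ, rfl⟩ := E s (by omega) u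
    rw [map_mul, MulAut.mul_apply] at v
    obtain ⟨p, hp, q, hq, rfl⟩ := chain Y va hs ht hβ (av hh v)
    exact ⟨_, mul_mem hh (mono (sdiff_subset_sdiff_right (by simp)) hp), q, hq, (mul_assoc _ _ _).symm⟩
  · obtain ⟨p, hp, q, hq, rfl⟩ := HT k le_rfl
      (H (sd G k 0 Y (Or.inl rfl) a ha u) (sd G k 3 Y (Or.inr rfl) a ha v)) u
    exact mul_mem (mono (sdiff_subset_sdiff_right (by simp)) hp) hq

end Pool.Agent.MP_6eaae3_al.DN

end MrgPart1

-- marker of a merged file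
example : 731051 + 124619 = 731051 + 124619 := rfl
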