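import Pool.Agent.MP_6eaae3_al.DN.Dm

/-! The folding lemma from type `H3` to type `D6`. -/

namespace Pool.Agent.MP_6eaae3_al.DN

open Set Cl Subgroup

namespace Fo

theorem ev_nil : ev6 [] = 1 := rfl
theorem ev_cons (s : Fin 6) (l) : ev6 (s :: l) = PresentedGroup.of s * ev6 l := by simp [ev6]
theorem ev_app (l l') : ev6 (l ++ l') = ev6 l * ev6 l' := by simp [ev6]

theorem mD_or : ∀ s t : Fin 6, (mD s t = 2 ∨ mD s t = 3) := by decide

theorem rel2 {s t : Fin 6} (h : s ≠ t) (e : mD s t = 2) :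
    (PresentedGroup.of s * PresentedGroup.of t : Art mD) = .of t * .of s := by
  simpa [e, alt] using artin_rel mD h

theorem rel3 {s t : Fin 6} (h : s ≠ t) (e : mD s t = 3) :
    (PresentedGroup.of s * (PresentedGroup.of t * PresentedGroup.of s) : Art mD)
      = .of t * (.of s * .of t) := by
  simpa [e, alt] using artin_rel mD h

theorem mD_symm : ∀ s t : Fin 6, mD s t = mD t s := by decide

theorem relD (s t : Fin 6) : (PresentedGroup.of s : Art mD) * ((θD s t).map PresentedGroup.of).prod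
    = PresentedGroup.of t * ((θD t s).map PresentedGroup.of).prod := by
  by_cases h : s = t
  · rw [h]
  · rcases mD_or s t with e | e
    · simpa [θD, h, Ne.symm h, e, ← mD_symm s t] using rel2 h e
    · simpa [θD, h, Ne.symm h, e, ← mD_symm s t] using rel3 h e

/-- Inversion of the generators. -/
def mu : Art mD →* Art mD := artinLift mD (fun s => (PresentedGroup.of s)⁻¹) fun s t h => by
  rcases mD_or s t with e | e
  · simpa [e, alt, mul_inv_rev] using congrArg (·⁻¹) (rel2 h e).symm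
  · simpa [e, alt, mul_inv_rev, mul_assoc] using congrArg (·⁻¹) (rel3 h e)

theorem mu_of (s : Fin 6) : mu (PresentedGroup.of s) = (PresentedGroup.of s)⁻¹ :=
  artinLift_of _ _ _ s

theorem mu_mu (g : Art mD) : mu (mu g) = g :=
  DFunLike.congr_fun (PresentedGroup.ext (φ := mu.comp mu) (ψ := MonoidHom.id _) fun s => by
    simp [mu_of]) g

theorem mu_ev (l : List (Fin 6)) : mu (ev6 l) = (ev6 l.reverse)⁻¹ := by
  induction l with
  | nil => simp [ev_nil]
  | cons s l ih => simp [ev_cons, ev_app, ev_nil, ih, mu_of]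

theorem mu_par {S : Set (Fin 6)} {g} (h : g ∈ Par mD S) : mu g ∈ Par mD S :=
  Par.ind (K := (Par mD S).comap mu) (fun v hv => by
    rw [mem_comap, mu_of]; exact inv_mem (Par.of hv)) h

theorem ev_par {S : Set (Fin 6)} {l : List (Fin 6)} (h : ∀ x ∈ l, x ∈ S) : ev6 l ∈ Par mD S :=
  list_prod_mem (by
    intro y hy
    obtain ⟨x, hx, rfl⟩ := List.mem_map.1 hy
    exact Par.of (h x hx))

/-- No common first letter. -/
def NL (a b : List (Fin 6)) : Prop :=
  ∀ s x y, ev6 a = ev6 (s :: x) → ev6 b = ev6 (s :: y) → False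

variable (h : S_GA)
include h

theorem frO {S : Set (Fin 6)} {u} (hu : u ∈ Par mD S) : ∃ p q, (∀ x ∈ p, x ∈ S) ∧ (∀ x ∈ q, x ∈ S) ∧
    u = ev6 p * (ev6 q)⁻¹ := by
  induction hu using closure_induction with
  | mem x hx =>
    obtain ⟨v, hv, rfl⟩ := hx
    exact ⟨[v], [], by simpa using hv, by simp, by simp [ev6]⟩
  | one => exact ⟨[], [], by simp, by simp, by simp⟩
  | inv x _ ih =>
    obtain ⟨p, q, a, b, rfl⟩ := ih
    exact ⟨q, p, b, a, by simp⟩
  | mul x y _ _ i1 i2 =>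
    obtain ⟨p, q, a, b, rfl⟩ := i1
    obtain ⟨p', q', a', b', rfl⟩ := i2
    obtain ⟨v, u, ⟨e, -⟩, hl⟩ := h.2.1 q p'
    refine ⟨p ++ v, q' ++ u, fun x hx => ?_, fun x hx => ?_, ?_⟩
    · exact (List.mem_append.1 hx).elim (a x) fun k => (hl x (.inl k)).elim (b x) (a' x)
    · exact (List.mem_append.1 hx).elim (b' x) fun k => (hl x (.inr k)).elim (b x) (a' x)
    · rw [ev_app, ev_app, eq_inv_mul_of_mul_eq e]
      group

theorem frO' {S : Set (Fin 6)} {u} (hu : u ∈ Par mD S) : ∃ p q, (∀ x ∈ p, x ∈ S) ∧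
    (∀ x ∈ q, x ∈ S) ∧ u = (ev6 q)⁻¹ * ev6 p := by
  obtain ⟨p, q, a, b, e⟩ := frO h (mu_par hu)
  refine ⟨q.reverse, p.reverse, by simpa using b, by simpa using a, ?_⟩
  rw [← mu_mu u, e, map_mul, map_inv, mu_ev, mu_ev, inv_inv]

theorem lemL {E c w1 w2 x1 x2} (e1 : ev6 E * ev6 w1 = ev6 c * ev6 x1)
    (e2 : ev6 E * ev6 w2 = ev6 c * ev6 x2) (hn : NL w1 w2) : ∃ u, ev6 E = ev6 c * ev6 u := by
  obtain ⟨v, u, ⟨e, k⟩, -⟩ := h.2.1 E c
  obtain ⟨Z1, a1, -⟩ := k _ _ e1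
  obtain ⟨Z2, a2, -⟩ := k _ _ e2
  cases v with
  | nil => exact ⟨u, by simpa [ev_nil] using e⟩
  | cons s v => exact (hn s (v ++ Z1) (v ++ Z2) (a1.trans (ev_app _ _).symm)
      (a2.trans (ev_app _ _).symm)).elim

theorem gcd (Q : List (Fin 6)) : ∀ v, ∃ d w1 w2, ev6 Q = ev6 d * ev6 w1 ∧ ev6 v = ev6 d * ev6 w2 ∧
    NL w1 w2 := by
  induction hn : Q.length generalizing Q with
  | zero =>
    refine fun v => ⟨[], Q, v, by simp [ev_nil], by simp [ev_nil], fun s x y e _ => ?_⟩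
    have := (h.2.2.1 _ _ e).1
    simp [hn] at this
  | succ n ih =>
    intro v
    by_cases k : NL Q v
    · exact ⟨[], Q, v, by simp [ev_nil], by simp [ev_nil], k⟩
    · simp only [NL, not_forall] at k
      obtain ⟨s, x, y, e1, e2, -⟩ := k
      obtain ⟨d, w1, w2, a, b, c⟩ := ih x (by simpa [hn] using (h.2.2.1 _ _ e1).1.symm) y
      exact ⟨s :: d, w1, w2, by rw [e1, ev_cons, ev_cons, a, mul_assoc],
        by rw [e2, ev_cons, ev_cons, b, mul_assoc], c⟩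

theorem uR {P Q y v} (e : ev6 P * (ev6 Q)⁻¹ = ev6 y * (ev6 v)⁻¹) (hn : NL P.reverse Q.reverse) :
    ∃ d, ev6 v = ev6 Q * ev6 d ∧ ev6 y = ev6 P * ev6 d := by
  obtain ⟨d, w1, w2, a, b, c⟩ := gcd h Q v
  obtain ⟨z, E, c1, c2, c3⟩ := h.2.2.2 (ev6 P * (ev6 Q)⁻¹ * ev6 d)
  have k1 : ev6 P * (ev6 Q)⁻¹ * ev6 d * ev6 w1 = ev6 P := by rw [a]; group
  have k2 : ev6 P * (ev6 Q)⁻¹ * ev6 d * ev6 w2 = ev6 y := by rw [e, b]; group
  generalize ev6 P * (ev6 Q)⁻¹ * ev6 d = g at *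
  obtain ⟨u, hu⟩ := lemL h (E := E) (c := z) (x1 := P) (x2 := y)
    (by rw [← c3, ← c1.eq, mul_assoc, k1]) (by rw [← c3, ← c1.eq, mul_assoc, k2]) c
  rw [← c3, ← c1.eq, mul_right_inj] at hu
  rcases w1.eq_nil_or_concat with rfl | ⟨w, s, rfl⟩
  · rw [ev_nil, mul_one] at a k1
    exact ⟨w2, a ▸ b, k1 ▸ k2.symm⟩
  · refine (hn s (u ++ w).reverse (d ++ w).reverse ?_ ?_).elim
    · rw [← inv_inj, ← mu_ev, ← List.reverse_concat, ← mu_ev, ← k1, hu, ← ev_app]
      simp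
    · rw [← inv_inj, ← mu_ev, ← List.reverse_concat, ← mu_ev, a, ← ev_app]
      simp

theorem uL {n p V y} (e : (ev6 n)⁻¹ * ev6 p = (ev6 V)⁻¹ * ev6 y) (hn : NL n p) :
    ∃ d, ev6 V = ev6 d * ev6 n ∧ ev6 y = ev6 d * ev6 p := by
  have := congrArg mu e
  simp only [map_mul, map_inv, mu_ev, inv_inv] at this
  obtain ⟨d, a, b⟩ := uR h this (by simpa using hn)
  have k : ∀ {y p d}, ev6 (List.reverse y) = ev6 (List.reverse p) * ev6 d →
      ev6 y = ev6 d.reverse * ev6 p := fun {y p d} a => by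
    have := congrArg mu a
    simp only [map_mul, mu_ev, List.reverse_reverse] at this
    rw [← inv_inj, this, mul_inv_rev]
  exact ⟨d.reverse, k b, k a⟩

theorem av {S : Set (Fin 6)} {v d n} (hv : ∀ x ∈ v, x ∈ S) (e : ev6 v = ev6 d * ev6 n) :
    ∀ x ∈ n, x ∈ S := fun x hx =>
  hv x ((h.2.2.1 _ _ ((ev_app _ _).trans e.symm)).2 x (List.mem_append_right _ hx))

omit h in
theorem fr {M α : Type} [Group M] (e : α → M) (S : Set α) (z : M)
    (hz : ∀ v ∈ S, Commute z (e v) ∧ ∃ w : List α, e v * (w.map e).prod = z) {g}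
    (hg : g ∈ closure (e '' S)) : ∃ N : ℕ, ∃ p : List α, z ^ N * g = (p.map e).prod := by
  induction hg using closure_induction_right with
  | one => exact ⟨0, [], by simp⟩
  | mul_right x _ y hy ih =>
    obtain ⟨N, p, k⟩ := ih
    obtain ⟨v, -, rfl⟩ := hy
    exact ⟨N, p ++ [v], by simp [← k, mul_assoc]⟩
  | mul_inv_cancel x hx y hy ih =>
    obtain ⟨N, p, k⟩ := ih
    obtain ⟨v, hv, rfl⟩ := hy
    obtain ⟨c, w, hw⟩ := hz v hv
    have cx : Commute z x := ((closure_le (Subgroup.centralizer {z})).2 (by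
      rintro _ ⟨u, hu, rfl⟩
      exact mem_centralizer_singleton_iff.2 (hz u hu).1.symm) hx : x ∈ Subgroup.centralizer {z}) z rfl
    refine ⟨N + 1, p ++ w, ?_⟩
    rw [List.map_append, List.prod_append, ← k, eq_inv_mul_of_mul_eq hw, ← c.inv_right.eq,
      pow_succ, mul_assoc, ← mul_assoc z, cx.eq]
    simp only [mul_assoc]

omit h in
theorem cd {α M : Type} [Monoid M] (e : α → M) {θ : α → α → List α}
    (h : ∀ s t, e s * ((θ s t).map e).prod = e t * ((θ t s).map e).prod) {f z v}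
    (k : rv θ f (z ++ [v]) (v :: z) = some ([], []) ∧ (rv θ f [v] z).map (·.2) = some []) :
    Commute (z.map e).prod (e v) ∧ ∃ w : List α, e v * (w.map e).prod = (z.map e).prod := by
  obtain ⟨w, b1, b2⟩ := Option.map_eq_some_iff.1 k.2
  exact ⟨by simpa [Commute, SemiconjBy] using rv_sound e h _ k.1, w.1,
    by simpa [b2] using rv_sound e h _ b1⟩

def F : Fin 3 → List (Fin 6) := ![[0, 4], [1, 3], [2, 5]]

def aL (s t : Fin 3) : ℕ → List (Fin 3)
  | 0 => []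
  | k + 1 => s :: aL t s k

def mH : Fin 3 → Fin 3 → ℕ := ![![0, 2, 1], ![2, 0, 4], ![1, 4, 0]]

def θH (s t : Fin 3) : List (Fin 3) := aL t s (mH s t)

structure Hy {Γ : Type} [Group Γ] (r : Fin 3 → Γ) (φ : Γ →* Art mD) : Prop where
  a : r 0 * r 1 * r 0 = r 1 * r 0 * r 1
  b : Commute (r 0) (r 2)
  c : r 1 * r 2 * r 1 * r 2 * r 1 = r 2 * r 1 * r 2 * r 1 * r 2
  f : ∀ v, φ (r v) = ev6 (F v)

variable {Γ : Type} [Group Γ] {r : Fin 3 → Γ} {φ : Γ →* Art mD} (H : Hy r φ)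
include H

omit h in
theorem Hy.mir : Hy (fun v => (r v)⁻¹) (mu.comp φ) where
  a := by simpa [mul_assoc] using congrArg (·⁻¹) H.a
  b := H.b.inv_inv
  c := by simpa [mul_assoc] using congrArg (·⁻¹) H.c
  f v := by
    rw [MonoidHom.comp_apply, map_inv, H.f, map_inv, mu_ev, inv_inv]
    fin_cases v <;> simp only [F, ev6] <;> simpa using rel2 (by decide) (by decide)

omit h in
theorem Hy.rel (s t : Fin 3) : r s * ((θH s t).map r).prod = r t * ((θH t s).map r).prod := by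
  have a := H.a
  have b := H.b.eq
  have c := H.c
  simp only [mul_assoc] at a c
  fin_cases s <;> fin_cases t <;> simp [θH, mH, aL, a, b, c]

omit h in
theorem Hy.ev (p : List (Fin 3)) : φ (p.map r).prod = ev6 (p.flatMap F) := by
  induction p with
  | nil => simp [ev_nil]
  | cons s p ih => rw [List.map_cons, List.prod_cons, map_mul, ih, H.f, List.flatMap_cons, ev_app]

omit h H in
theorem stepK : ∀ (i : Fin 6) (t : Fin 3) (k : Fin 4), t ≠ cl6 i → k.1 < mH t (cl6 i) →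
    ((rv θD 12 ((aL t (cl6 i) (k + 1)).flatMap F) [i]).bind fun a => a.1.head?).map
      (fun j => aL t (cl6 i) (k + 1) ++ [cl6 j]) = some (aL t (cl6 i) (k + 2)) := by
  decide +kernel

omit h H in
theorem mH_le : ∀ s t, mH s t ≤ 4 ∧ (θH s t).length = (θH t s).length ∧
    (θH s t).length = mH s t := by decide

theorem lemK (p : List (Fin 3)) : ∀ i x, ev6 (p.flatMap F) = ev6 (i :: x) →
    ∃ p' : List (Fin 3), (p.map r).prod = r (cl6 i) * (p'.map r).prod ∧ p'.length + 1 = p.length := by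
  induction hn : p.length using Nat.strong_induction_on generalizing p with
  | _ n ih =>
  subst hn
  intro i x e
  cases p with
  | nil => simpa using (h.2.2.1 _ _ e).1
  | cons t p =>
    by_cases ht : t = cl6 i
    · exact ⟨p, by simp [ht], rfl⟩
    have key : ∀ k ≤ mH t (cl6 i), ∃ q : List (Fin 3), ((t :: p).map r).prod
        = ((aL t (cl6 i) (k + 1)).map r).prod * (q.map r).prod ∧ q.length + k = p.length := by
      intro k
      induction k with
      | zero => exact fun _ => ⟨p, by simp [aL], rfl⟩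
      | succ k ik =>
        intro hk
        obtain ⟨q, a, b⟩ := ik (by omega)
        have := stepK i t ⟨k, by have := (mH_le t (cl6 i)).1; omega⟩ ht hk
        simp only [Option.map_eq_some_iff, Option.bind_eq_some_iff, List.head?_eq_some_iff] at this
        obtain ⟨j, ⟨c, c1, c', c2⟩, c3⟩ := this
        obtain ⟨Z, hZ, -⟩ := (h.1 _ _ _ _ c1).2 (q.flatMap F) x (by
          rw [← H.ev, ← H.ev, ← map_mul, ← a, H.ev, e, ← ev_app]; rfl)
        obtain ⟨q', a', b'⟩ := ih q.length (by simp; omega) q rfl j (c' ++ Z)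
          (by rw [hZ, c2, ← ev_app]; rfl)
        refine ⟨q', ?_, by omega⟩
        rw [a, a', ← c3]
        simp [mul_assoc]
    obtain ⟨q, a, b⟩ := key _ le_rfl
    refine ⟨θH (cl6 i) t ++ q, ?_, ?_⟩
    · rw [a, List.map_append, List.prod_append, ← mul_assoc, ← H.rel]
      rfl
    · obtain ⟨-, l1, l2⟩ := mH_le t (cl6 i)
      simp only [List.length_append, List.length_cons]
      omega

omit h H in
theorem mem_F : ∀ j : Fin 6, j ∈ F (cl6 j) ∧ ∀ v, j ∈ F v → cl6 j = v := by decide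

omit h H in
theorem av_cl {j : Fin 6} {n : List (Fin 3)} (k : ∀ x ∈ n.flatMap F, x ∈ ({j}ᶜ : Set (Fin 6))) :
    (n.map r).prod ∈ closure (r '' {cl6 j}ᶜ) := list_prod_mem (by
  intro y hy
  obtain ⟨x, hx, rfl⟩ := List.mem_map.1 hy
  refine subset_closure ⟨x, fun e => ?_, rfl⟩
  exact k j (List.mem_flatMap.2 ⟨x, hx, (show x = cl6 j from e) ▸ (mem_F j).1⟩) rfl)

def zH : List (Fin 3) := [0, 1, 2, 0, 1, 2, 0, 1, 2, 0, 1, 2, 0, 1, 2]

omit h H in
theorem zH_ok : ∀ v : Fin 3, rv θH 40 (zH ++ [v]) (v :: zH) = some ([], []) ∧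
    (rv θH 40 [v] zH).map (·.2) = some [] := by decide +kernel

omit h in
theorem lemZ {g} (hg : g ∈ closure (range r)) :
    ∃ n p : List (Fin 3), (n.map r).prod * g = (p.map r).prod := by
  obtain ⟨N, p, e⟩ := fr r univ (zH.map r).prod (fun v _ => cd r H.rel (zH_ok v))
    (g := g) (by rwa [image_univ])
  refine ⟨(List.replicate N zH).flatten, p, e ▸ ?_⟩
  simp [List.map_flatten, List.prod_flatten]

theorem s1 {j : Fin 6} {g v u} (hg : g ∈ closure (range r)) (hv : v ∈ Par mD {j}ᶜ)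
    (e : φ g = v * ev6 u) : ∃ q ∈ closure (r '' {cl6 j}ᶜ), ∃ p : List (Fin 3),
      q * g = (p.map r).prod := by
  obtain ⟨n, p, k⟩ := lemZ H hg
  induction hn : n.length using Nat.strong_induction_on generalizing n p with
  | _ m ih =>
  by_cases c : NL (n.flatMap F) (p.flatMap F)
  · obtain ⟨y, V, -, b, rfl⟩ := frO' h hv
    obtain ⟨d, a, -⟩ := uL h (V := V) (y := y ++ u) (by
      rw [← H.ev, ← H.ev, ← k, map_mul, inv_mul_cancel_left, e, ev_app, mul_assoc]) c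
    exact ⟨_, av_cl (av h b a), p, k⟩
  · simp only [NL, not_forall] at c
    obtain ⟨s, x, y, e1, e2, -⟩ := c
    obtain ⟨n', a, b⟩ := lemK h H n s x e1
    obtain ⟨p', a', -⟩ := lemK h H p s y e2
    rw [a, a', mul_assoc, mul_right_inj] at k
    exact ih _ (by omega) n' p' k rfl

theorem s2 {s : Fin 3} {j : Fin 6} (p : List (Fin 3))
    (k : DC mD {i | cl6 i ≠ s} {j}ᶜ (ev6 (p.flatMap F))) :
    ∃ x ∈ closure (r '' {s}ᶜ), ∃ y ∈ closure (r '' {cl6 j}ᶜ), (p.map r).prod = x * y := by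
  induction hn : p.length using Nat.strong_induction_on generalizing p with
  | _ m ih =>
  obtain ⟨U, hU, V, hV, e⟩ := k
  by_cases c : ∃ i x, cl6 i ≠ s ∧ ev6 (p.flatMap F) = ev6 (i :: x)
  · obtain ⟨i, x, hi, e1⟩ := c
    obtain ⟨p', a, b⟩ := lemK h H p i x e1
    obtain ⟨x, hx, y, hy, e2⟩ := ih _ (by omega) p' ⟨(ev6 (F (cl6 i)))⁻¹ * U, mul_mem (inv_mem
      (ev_par fun x hx => by rwa [mem_ofPred_eq, (mem_F x).2 _ hx])) hU, V, hV, by
      rw [mul_assoc, ← e, ← H.ev, ← H.ev, a, map_mul, H.f, inv_mul_cancel_left]⟩ rfl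
    exact ⟨_, mul_mem (subset_closure ⟨_, hi, rfl⟩) hx, y, hy, by rw [a, e2, mul_assoc]⟩
  · obtain ⟨u1, u2, a, -, rfl⟩ := frO h hU
    obtain ⟨v1, v2, b, -, rfl⟩ := frO' h hV
    obtain ⟨d, -, k⟩ := uL h (n := u1) (p := p.flatMap F) (V := v2 ++ u2) (y := v1)
      (by rw [e, ev_app]; group) fun i x y e1 e2 =>
        c ⟨i, y, a i ((h.2.2.1 _ _ e1.symm).2 i List.mem_cons_self), e2⟩
    exact ⟨1, one_mem _, _, av_cl (av h b k), (one_mul _).symm⟩

def zX : Fin 3 → List (Fin 3) := ![[1, 2, 1, 2, 1, 2, 1, 2, 1, 2], [0, 2], [0, 1, 0, 1, 0, 1]]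

omit h H in
theorem zX_ok : ∀ (s : Fin 3), (∀ x ∈ zX s, x ≠ s) ∧ ∀ i : Fin 6, cl6 i ≠ s →
    rv θD 40 ((zX s).flatMap F ++ [i]) (i :: (zX s).flatMap F) = some ([], []) ∧
      (rv θD 40 [i] ((zX s).flatMap F)).map (·.2) = some [] := by decide +kernel

omit h in
theorem par_of {S : Set (Fin 3)} {T : Set (Fin 6)} (k : ∀ i, cl6 i ∈ S → i ∈ T) {x}
    (hx : x ∈ closure (r '' S)) : φ x ∈ Par mD T :=
  (closure_le ((Par mD T).comap φ)).2 (by
    rintro _ ⟨v, hv, rfl⟩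
    show φ (r v) ∈ Par mD T
    rw [H.f]
    exact ev_par fun x hx => k x (by rwa [(mem_F x).2 _ hx])) hx

omit h H in
theorem s0 (s : Fin 3) {u : Art mD} (hu : u ∈ Par mD {i | cl6 i ≠ s}) :
    ∃ (N : ℕ) (w : List (Fin 6)), ev6 ((zX s).flatMap F) ^ N * u = ev6 w := by
  have := fun i hi => cd _ relD ((zX_ok s).2 i hi)
  unfold ev6
  exact fr PresentedGroup.of {i | cl6 i ≠ s} _ this hu

omit h H in
theorem ci (T : Set (Fin 3)) : closure ((fun v => (r v)⁻¹) '' T) = closure (r '' T) := by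
  rw [← closure_inv (r '' T), ← image_inv_eq_inv, image_image]

theorem s3 {j : Fin 6} {g v w} (hg : g ∈ closure (range r)) (hv : v ∈ Par mD {j}ᶜ)
    (e : φ g = ev6 w * v) : ∃ q ∈ closure (r '' {cl6 j}ᶜ), ∃ p : List (Fin 3),
      (p.map r).prod = g * q⁻¹ := by
  obtain ⟨q, hq, p, k1⟩ := s1 h H.mir (j := j) (g := g⁻¹) (v := mu v⁻¹) (u := w.reverse)
    (by rw [← image_univ, ci, image_univ]; exact inv_mem hg) (mu_par (inv_mem hv)) (by
      rw [MonoidHom.comp_apply, map_inv, e, mul_inv_rev, map_mul, map_inv mu (ev6 w), mu_ev, inv_inv])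
  rw [ci] at hq
  refine ⟨q, hq, p.reverse, ?_⟩
  rw [← inv_inj, mul_inv_rev, inv_inv, k1, List.prod_inv_reverse]
  simp [Function.comp_def]

theorem main (s : Fin 3) (j : Fin 6) {g} (hg : g ∈ closure (range r))
    (k : DC mD {i | cl6 i ≠ s} {j}ᶜ (φ g)) :
    ∃ p ∈ closure (r '' {s}ᶜ), ∃ q ∈ closure (r '' {cl6 j}ᶜ), g = p * q := by
  obtain ⟨u, hu, v, hv, e⟩ := k
  have hZ : ((zX s).map r).prod ∈ closure (r '' {s}ᶜ) := list_prod_mem (by
    intro y hy
    obtain ⟨x, hx, rfl⟩ := List.mem_map.1 hy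
    exact subset_closure ⟨x, (zX_ok s).1 x hx, rfl⟩)
  obtain ⟨N, w, k⟩ := s0 s hu
  obtain ⟨Z, hZ, k⟩ : ∃ Z ∈ closure (r '' {s}ᶜ), φ Z * u = ev6 w :=
    ⟨_, pow_mem hZ N, by rw [map_pow, H.ev, k]⟩
  have a1 : φ (Z * g) = ev6 w * v := by rw [map_mul, e, ← mul_assoc, k]
  obtain ⟨q, hq, p, k2⟩ := s3 h H (mul_mem (closure_mono (image_subset_range _ _) hZ) hg) hv a1
  have a2 : φ Z ∈ Par mD {i | cl6 i ≠ s} := par_of H (S := {s}ᶜ) (fun i hi => hi) hZ
  have a3 : φ q⁻¹ ∈ Par mD {j}ᶜ :=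
    par_of H (S := {cl6 j}ᶜ) (fun i hi e => hi (congrArg cl6 e)) (inv_mem hq)
  have a4 : ev6 (p.flatMap F) = φ Z * u * (v * φ q⁻¹) := by
    rw [← H.ev, k2, map_mul, map_mul, e, mul_assoc, mul_assoc, mul_assoc]
  obtain ⟨x, hx, y, hy, k3⟩ := s2 h H p ⟨_, mul_mem a2 hu, _, mul_mem hv a3, a4⟩
  refine ⟨Z⁻¹ * x, mul_mem (inv_mem hZ) hx, y * q, mul_mem hy hq, ?_⟩
  rw [mul_assoc, ← mul_assoc x, ← k3, k2]
  group

end Fo

theorem fo (h : S_GA) : S_FO := by
  intro Γ _ r φ a b c f0 f1 f2 s j g hg k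
  refine Fo.main h ⟨a, b, c, fun v => ?_⟩ s j hg k
  fin_cases v
  · exact f0
  · exact f1
  · exact f2

end Pool.Agent.MP_6eaae3_al.DN
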