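import Pool.Agent.MP_6eaae3_al.DN.Dm

/-! Positive words in type `D6`: word reversing, cancellation and the embedding in the group. -/

namespace Pool.Agent.MP_6eaae3_al.DN

open Set Cl Subgroup

namespace Ga

/-- One application of a relation. -/
inductive St : List (Fin 6) → List (Fin 6) → Prop
  | hd (s t : Fin 6) (r : List (Fin 6)) : St (s :: (θD s t ++ r)) (t :: (θD t s ++ r))
  | tl (x : Fin 6) {a b : List (Fin 6)} : St a b → St (x :: a) (x :: b)

theorem St.symm {a b : List (Fin 6)} (h : St a b) : St b a := by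
  induction h with
  | hd s t r => exact .hd t s r
  | tl x _ ih => exact .tl x ih

theorem St.right {a b : List (Fin 6)} (h : St a b) (c : List (Fin 6)) : St (a ++ c) (b ++ c) := by
  induction h with
  | hd s t r => simpa only [List.cons_append, List.append_assoc] using St.hd s t (r ++ c)
  | tl x _ ih => exact .tl x ih

theorem St.left {a b : List (Fin 6)} (h : St a b) (c : List (Fin 6)) : St (c ++ a) (c ++ b) := by
  induction c with
  | nil => exact h
  | cons x c ih => exact .tl x ih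

theorem θ_len : ∀ s t, (θD s t).length = (θD t s).length := by decide

theorem θ_mem : ∀ s t x, x ∈ θD s t → x = s ∨ x = t := by decide

theorem θ_mem' : ∀ s t x, x ∈ s :: θD s t → x ∈ t :: θD t s := by decide

theorem St.inv {a b : List (Fin 6)} (h : St a b) : a.length = b.length ∧ ∀ x ∈ a, x ∈ b := by
  induction h with
  | hd s t r =>
    refine ⟨by simp [θ_len s t], fun x hx => ?_⟩
    rw [← List.cons_append, List.mem_append] at hx ⊢
    exact hx.imp_left (θ_mem' s t x)
  | tl y _ ih =>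
    refine ⟨by simp [ih.1], fun x hx => ?_⟩
    rw [List.mem_cons] at hx ⊢
    exact hx.imp_right (ih.2 x)

abbrev Eqv : List (Fin 6) → List (Fin 6) → Prop := Relation.ReflTransGen St

theorem Eqv.inv {a b : List (Fin 6)} (h : Eqv a b) : a.length = b.length ∧ ∀ x ∈ a, x ∈ b := by
  induction h with
  | refl => exact ⟨rfl, fun _ h => h⟩
  | tail _ h ih => exact ⟨ih.1.trans h.inv.1, fun x hx => h.inv.2 x (ih.2 x hx)⟩

theorem Eqv.symm {a b : List (Fin 6)} (h : Eqv a b) : Eqv b a := by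
  induction h with
  | refl => exact .refl
  | tail _ h ih => exact .head h.symm ih

theorem Eqv.right {a b : List (Fin 6)} (h : Eqv a b) (c : List (Fin 6)) : Eqv (a ++ c) (b ++ c) := by
  induction h with
  | refl => exact .refl
  | tail _ h ih => exact .tail ih (h.right c)

theorem Eqv.left {a b : List (Fin 6)} (h : Eqv a b) (c : List (Fin 6)) : Eqv (c ++ a) (c ++ b) := by
  induction h with
  | refl => exact .refl
  | tail _ h ih => exact .tail ih (h.left c)

/-- The congruence. -/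
def C : Con (FreeMonoid (Fin 6)) where
  r a b := Eqv a.toList b.toList
  iseqv := ⟨fun _ => .refl, Eqv.symm, fun a b => a.trans b⟩
  mul' h h' := (Eqv.right h _).trans (Eqv.left h' _)

/-- The monoid of positive words. -/
abbrev M := C.Quotient

def E (l : List (Fin 6)) : M := (FreeMonoid.ofList l : FreeMonoid (Fin 6))

theorem E_eq {a b : List (Fin 6)} : E a = E b ↔ Eqv a b := C.eq

theorem E_nil : E [] = 1 := rfl

theorem E_app (a b : List (Fin 6)) : E (a ++ b) = E a * E b := rfl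

theorem E_cons (s : Fin 6) (a : List (Fin 6)) : E (s :: a) = E [s] * E a := rfl

theorem E_surj (m : M) : ∃ l, E l = m := Con.induction_on m fun a => ⟨a.toList, rfl⟩

theorem E_prod (l : List (Fin 6)) : (l.map fun s => E [s]).prod = E l := by
  induction l with
  | nil => rfl
  | cons s l ih => rw [List.map_cons, List.prod_cons, ih, ← E_cons]

theorem E_rel (s t : Fin 6) : E [s] * E (θD s t) = E [t] * E (θD t s) := by
  have := St.hd s t []
  rw [List.append_nil, List.append_nil] at this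
  exact E_eq.2 (.single this)

theorem sound {f : ℕ} {u v : List (Fin 6)} {a : List (Fin 6) × List (Fin 6)}
    (h : rv θD f u v = some a) : E u * E a.1 = E v * E a.2 := by
  simpa only [E_prod] using rv_sound (fun s => E [s]) (fun s t => by
    simpa only [E_prod] using E_rel s t) f h

/-- The length. -/
def L (m : M) : ℕ := Con.liftOn m (fun a => a.toList.length) fun _ _ h => (Eqv.inv h).1

theorem L_E (l : List (Fin 6)) : L (E l) = l.length := rfl

theorem L_mul (a b : M) : L (a * b) = L a + L b := by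
  obtain ⟨a, rfl⟩ := E_surj a
  obtain ⟨b, rfl⟩ := E_surj b
  rw [← E_app, L_E, L_E, L_E, List.length_append]

def H (n : ℕ) : Prop := ∀ s t (U W : M), L U < n → E [s] * U = E [t] * W →
  ∃ Z, U = E (θD s t) * Z ∧ W = E (θD t s) * Z

def Lc (n : ℕ) (u v v' u' : List (Fin 6)) : Prop := E u * E v' = E v * E u' ∧
  ∀ U W, L (E u * U) ≤ n → E u * U = E v * W → ∃ Z, U = E v' * Z ∧ W = E u' * Z

theorem Lc.nil_left (n : ℕ) (v : List (Fin 6)) : Lc n [] v v [] :=
  ⟨by rw [E_nil, one_mul, mul_one], fun U W _ h =>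
    ⟨W, by rwa [E_nil, one_mul] at h, by rw [E_nil, one_mul]⟩⟩

theorem Lc.nil_right (n : ℕ) (u : List (Fin 6)) : Lc n u [] [] u :=
  ⟨by rw [E_nil, one_mul, mul_one], fun U W _ h =>
    ⟨U, by rw [E_nil, one_mul], by rw [E_nil, one_mul] at h; exact h.symm⟩⟩

theorem Lc.cons {n : ℕ} (h : H n) {s t : Fin 6} {u v x1 x2 y1 y2 z1 z2 : List (Fin 6)}
    (a : Lc n u (θD s t) x1 x2) (b : Lc n (θD t s) v y1 y2) (c : Lc n x2 y1 z1 z2) :
    Lc n (s :: u) (t :: v) (x1 ++ z1) (y2 ++ z2) := by
  refine ⟨?_, fun U W hl e => ?_⟩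
  · rw [E_cons s, E_cons t, E_app, E_app, mul_assoc, ← mul_assoc (E u), a.1, mul_assoc, c.1,
      ← mul_assoc, ← mul_assoc, E_rel, mul_assoc (E [t]), b.1]
    simp only [mul_assoc]
  rw [E_cons s, mul_assoc, L_mul, L_E, List.length_singleton] at hl
  rw [E_cons s, E_cons t, mul_assoc, mul_assoc] at e
  have l0 := congrArg L e
  rw [L_mul, L_mul (E [t]), L_E, L_E, List.length_singleton, List.length_singleton] at l0
  obtain ⟨Z0, e1, e2⟩ := h s t _ _ (by omega) e
  obtain ⟨Z1, e3, e4⟩ := a.2 U Z0 (by omega) e1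
  obtain ⟨Z2, e5, e6⟩ := b.2 Z0 W (by rw [← e2]; omega) e2.symm
  have l1 := congrArg L e1
  rw [L_mul (E (θD s t))] at l1
  obtain ⟨Z3, e7, e8⟩ := c.2 Z1 Z2 (by rw [← e4]; omega) (e4.symm.trans e5)
  exact ⟨Z3, by rw [e3, e7, E_app, mul_assoc], by rw [e6, e8, E_app, mul_assoc]⟩

theorem lc_rv {n : ℕ} (h : H n) (f : ℕ) : ∀ {u v a}, rv θD f u v = some a → Lc n u v a.1 a.2 := by
  induction f with
  | zero =>
    rintro (_ | _) (_ | _) a e <;> cases e
    exacts [.nil_left _ _, .nil_left _ _, .nil_right _ _]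
  | succ f ih =>
    rintro (_ | ⟨s, u⟩) (_ | ⟨t, v⟩) a e
    · cases e; exact .nil_left _ _
    · cases e; exact .nil_left _ _
    · cases e; exact .nil_right _ _
    simp only [rv, Option.bind_eq_some_iff, Option.map_eq_some_iff] at e
    obtain ⟨x, a, y, b, z, c, rfl⟩ := e
    exact .cons h (ih a) (ih b) (ih c)

def cube (r s t : Fin 6) : Bool :=
  match rv θD 10 (θD r s) (θD r t) with
  | none => false
  | some a => match rv θD 10 (θD s r ++ a.1) (θD s t) with
    | none => false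
    | some c => c.1 = [] ∧ rv θD 10 (θD t r ++ a.2) (θD t s ++ c.2) = some ([], [])

theorem cube_all : ∀ r s t, cube r s t = true := by decide +kernel

theorem cube' (r s t : Fin 6) : ∃ a w, rv θD 10 (θD r s) (θD r t) = some a ∧
    E (θD s r) * E a.1 = E (θD s t) * w ∧ E (θD t r) * E a.2 = E (θD t s) * w := by
  have := cube_all r s t
  unfold cube at this
  split at this
  · cases this
  rename_i a ha
  split at this
  · cases this
  rename_i c hc
  rw [decide_eq_true_eq] at this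
  have h1 := sound hc
  have h2 := sound this.2
  rw [this.1, E_nil, mul_one, E_app] at h1
  rw [E_nil, mul_one, mul_one, E_app, E_app] at h2
  exact ⟨a, E c.2, ha, h1, h2⟩

theorem θ_self (s : Fin 6) : θD s s = [] := if_pos rfl

theorem step {l l' : List (Fin 6)} (h : St l l') : ∃ s U t W, l = s :: U ∧ l' = t :: W ∧
    ∃ Z, E U = E (θD s t) * Z ∧ E W = E (θD t s) * Z := by
  cases h with
  | hd s t r => exact ⟨s, _, t, _, rfl, rfl, E r, rfl, rfl⟩
  | @tl x a b k =>
    refine ⟨x, a, x, b, rfl, rfl, E b, ?_, ?_⟩ <;> rw [θ_self, E_nil, one_mul]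
    exact E_eq.2 (.single k)

theorem H_succ {n : ℕ} (h : H n) : H (n + 1) := by
  intro s t U W hl e
  obtain ⟨U, rfl⟩ := E_surj U
  obtain ⟨W, rfl⟩ := E_surj W
  rw [L_E] at hl
  have k : Eqv (s :: U) (t :: W) := E_eq.1 e
  clear e
  generalize hw : t :: W = l' at k
  induction k generalizing t W with
  | refl =>
    cases hw
    exact ⟨E U, by rw [θ_self, E_nil, one_mul], by rw [θ_self, E_nil, one_mul]⟩
  | tail k k' ih =>
    obtain ⟨r, Y, t', W', rfl, e, Z2, e1, e2⟩ := step k'
    cases hw.trans e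
    obtain ⟨Z1, e3, e4⟩ := ih r Y rfl
    obtain ⟨a, w, ha, e5, e6⟩ := cube' r s t
    have := (Eqv.inv k).1
    simp only [List.length_cons] at this
    obtain ⟨Z, e7, e8⟩ := (lc_rv h 10 ha).2 Z1 Z2 (by rw [← e4, L_E]; omega) (e4.symm.trans e1)
    exact ⟨w * Z, by rw [e3, e7, ← mul_assoc, e5, mul_assoc], by
      rw [e2, e8, ← mul_assoc, e6, mul_assoc]⟩

theorem H_all (n : ℕ) : H n := by
  induction n with
  | zero => exact fun _ _ _ _ h => absurd h (Nat.not_lt_zero _)
  | succ n ih => exact H_succ ih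

theorem cancel {m a b : M} (h : m * a = m * b) : a = b := by
  obtain ⟨l, rfl⟩ := E_surj m
  induction l with
  | nil => rwa [E_nil, one_mul, one_mul] at h
  | cons s l ih =>
    rw [E_cons, mul_assoc, mul_assoc] at h
    obtain ⟨Z, e1, e2⟩ := H_all _ s s _ _ (Nat.lt_succ_self _) h
    exact ih (e1.trans e2.symm)

theorem ex_lc (n : ℕ) : ∀ (u v : List (Fin 6)) (U W : M), L (E u * U) ≤ n → E u * U = E v * W →
    ∃ v' u', (∀ k, Lc k u v v' u') ∧ ∀ x, x ∈ v' ∨ x ∈ u' → x ∈ u ∨ x ∈ v := by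
  induction n with
  | zero =>
    rintro (_ | ⟨s, u⟩) v U W hl -
    · exact ⟨v, [], fun k => .nil_left k v, fun x hx => hx.symm⟩
    · rw [L_mul, L_E, List.length_cons] at hl
      omega
  | succ n ih =>
    rintro (_ | ⟨s, u⟩) (_ | ⟨t, v⟩) U W hl e
    · exact ⟨[], [], fun k => .nil_left k _, fun x hx => hx⟩
    · exact ⟨_, [], fun k => .nil_left k _, fun x hx => hx.symm⟩
    · exact ⟨[], _, fun k => .nil_right k _, fun x hx => hx.symm⟩
    rw [E_cons s, mul_assoc, L_mul, L_E, List.length_singleton] at hl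
    rw [E_cons s, E_cons t, mul_assoc, mul_assoc] at e
    have l0 := congrArg L e
    rw [L_mul, L_mul (E [t]), L_E, L_E, List.length_singleton, List.length_singleton] at l0
    obtain ⟨Z0, e1, e2⟩ := H_all _ s t _ _ (Nat.lt_succ_self _) e
    obtain ⟨x1, x2, a, a'⟩ := ih u _ U Z0 (by omega) e1
    obtain ⟨y1, y2, b, b'⟩ := ih _ v Z0 W (by rw [← e2]; omega) e2.symm
    obtain ⟨Z1, -, e4⟩ := (a _).2 U Z0 le_rfl e1
    obtain ⟨Z2, e5, -⟩ := (b _).2 Z0 W le_rfl e2.symm
    have l1 := congrArg L e1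
    rw [L_mul (E (θD s t))] at l1
    obtain ⟨z1, z2, c, c'⟩ := ih x2 y1 Z1 Z2 (by rw [← e4]; omega) (e4.symm.trans e5)
    refine ⟨_, _, fun k => .cons (H_all k) (a k) (b k) (c k), fun x hx => ?_⟩
    have hs : x ∈ θD s t ∨ x ∈ θD t s → x ∈ s :: u ∨ x ∈ t :: v := fun k => by
      rcases k.elim (θ_mem s t x) fun k => (θ_mem t s x k).symm with rfl | rfl
      exacts [.inl List.mem_cons_self, .inr List.mem_cons_self]
    have ha : x ∈ x1 ∨ x ∈ x2 → x ∈ s :: u ∨ x ∈ t :: v := fun k =>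
      (a' x k).elim (fun k => .inl (List.mem_cons_of_mem _ k)) fun k => hs (.inl k)
    have hb : x ∈ y1 ∨ x ∈ y2 → x ∈ s :: u ∨ x ∈ t :: v := fun k =>
      (b' x k).elim (fun k => hs (.inr k)) fun k => .inr (List.mem_cons_of_mem _ k)
    have hc : x ∈ z1 ∨ x ∈ z2 → x ∈ s :: u ∨ x ∈ t :: v := fun k =>
      (c' x k).elim (fun k => ha (.inr k)) fun k => hb (.inl k)
    rw [List.mem_append, List.mem_append] at hx
    rcases hx with (k | k) | k | k
    exacts [ha (.inl k), hc (.inl k), hb (.inr k), hc (.inr k)]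

def z0 : List (Fin 6) := (List.replicate 5 [0, 1, 2, 3, 4, 5]).flatten

theorem z_comm : ∀ s, rv θD 70 (z0 ++ [s]) (s :: z0) = some ([], []) := by decide +kernel

theorem z_div : ∀ s, (rv θD 70 [s] z0).map Prod.snd = some [] := by decide +kernel

theorem cz (m : M) : Commute (E z0) m := by
  obtain ⟨l, rfl⟩ := E_surj m
  induction l with
  | nil => exact Commute.one_right _
  | cons s l ih =>
    have := sound (z_comm s)
    rw [E_nil, mul_one, mul_one, E_app, E_cons s z0] at this
    rw [E_cons s l]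
    exact Commute.mul_right (show Commute (E z0) (E [s]) from this) ih

theorem dz (s : Fin 6) : ∃ w, E [s] * E w = E z0 := by
  obtain ⟨a, h, e⟩ := Option.map_eq_some_iff.1 (z_div s)
  have := sound h
  rw [e, E_nil, mul_one] at this
  exact ⟨_, this⟩

theorem dzp (m : M) : ∃ w k, m * w = E z0 ^ k := by
  obtain ⟨l, rfl⟩ := E_surj m
  induction l with
  | nil => exact ⟨1, 0, by rw [E_nil, one_mul, pow_zero]⟩
  | cons s l ih =>
    obtain ⟨w, k, h⟩ := ih
    obtain ⟨w', h'⟩ := dz s
    refine ⟨w * E w', k + 1, ?_⟩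
    rw [E_cons, mul_assoc, ← mul_assoc (E l), h, ← mul_assoc, ← ((cz (E [s])).pow_left k).eq,
      mul_assoc, h', pow_succ]

/-- Fractions with a central denominator. -/
def Sd : Setoid (M × ℕ) where
  r a b := E z0 ^ b.2 * a.1 = E z0 ^ a.2 * b.1
  iseqv := ⟨fun _ => rfl, Eq.symm, fun {a b c} h h' => cancel (m := E z0 ^ b.2) (by
    rw [← mul_assoc, pow_mul_comm, mul_assoc, h, ← mul_assoc, pow_mul_comm, mul_assoc, h',
      ← mul_assoc, pow_mul_comm, mul_assoc])⟩

def ac (m : M) : Quotient Sd → Quotient Sd := Quotient.map (fun x => (m * x.1, x.2)) fun a b h => by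
  change E z0 ^ b.2 * (m * a.1) = E z0 ^ a.2 * (m * b.1)
  have h' : E z0 ^ b.2 * a.1 = E z0 ^ a.2 * b.1 := h
  rw [← mul_assoc, ((cz m).pow_left _).eq, mul_assoc, h', ← mul_assoc, ← ((cz m).pow_left _).eq,
    mul_assoc]

theorem ac_bij (m : M) : Function.Bijective (ac m) := by
  refine ⟨fun a b => Quotient.inductionOn₂ a b fun a b h => Quotient.sound ?_, fun a =>
    Quotient.inductionOn a fun a => ?_⟩
  · have h' : E z0 ^ b.2 * (m * a.1) = E z0 ^ a.2 * (m * b.1) := Quotient.exact h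
    rw [← mul_assoc, ((cz m).pow_left _).eq, mul_assoc, ← mul_assoc (E z0 ^ a.2),
      ((cz m).pow_left _).eq, mul_assoc] at h'
    exact cancel h'
  · obtain ⟨w, k, h⟩ := dzp m
    refine ⟨⟦(w * a.1, a.2 + k)⟧, Quotient.sound ?_⟩
    change E z0 ^ a.2 * (m * (w * a.1)) = E z0 ^ (a.2 + k) * a.1
    rw [← mul_assoc m, h, ← mul_assoc, pow_add]

noncomputable def ρ : M →* Equiv.Perm (Quotient Sd) where
  toFun m := Equiv.ofBijective (ac m) (ac_bij m)
  map_one' := Equiv.ext fun a => Quotient.inductionOn a fun a =>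
    congrArg (fun x => Quotient.mk Sd (x, a.2)) (one_mul a.1)
  map_mul' x y := Equiv.ext fun a => Quotient.inductionOn a fun a =>
    congrArg (fun x => Quotient.mk Sd (x, a.2)) (mul_assoc x y a.1)

theorem ρ_inj {a b : M} (h : ρ a = ρ b) : a = b := by
  have h' : E z0 ^ 0 * (a * 1) = E z0 ^ 0 * (b * 1) :=
    Quotient.exact (Equiv.congr_fun h (Quotient.mk Sd (1, 0)))
  simpa only [pow_zero, one_mul, mul_one] using h'

theorem mD_cases : ∀ s t, mD s t = mD t s ∧ (mD s t = 2 ∨ mD s t = 3) := by decide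

theorem lift_alt {G : Type} [Group G] (f : Fin 6 → G) {s t : Fin 6} (h : s ≠ t) :
    FreeGroup.lift f (alt s t (mD s t)) = f s * ((θD s t).map f).prod := by
  rcases (mD_cases s t).2 with e | e <;> simp [θD, h, e, alt]

theorem lift_alt' {G : Type} [Group G] (f : Fin 6 → G) {s t : Fin 6} (h : s ≠ t) :
    FreeGroup.lift f (alt t s (mD s t)) = f t * ((θD t s).map f).prod := by
  rw [(mD_cases s t).1, lift_alt f h.symm]

theorem ρ_prod (l : List (Fin 6)) : (l.map fun s => ρ (E [s])).prod = ρ (E l) := by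
  rw [← E_prod l, map_list_prod, List.map_map]
  rfl

noncomputable def φ : Art mD →* Equiv.Perm (Quotient Sd) :=
  artinLift mD (fun s => ρ (E [s])) fun s t h => by
    rw [lift_alt _ h, lift_alt' _ h, ρ_prod, ρ_prod, ← map_mul, ← map_mul, E_rel]

theorem φ_ev (l : List (Fin 6)) : φ (ev6 l) = ρ (E l) := by
  rw [← ρ_prod, ev6, map_list_prod, List.map_map]
  exact congrArg List.prod (List.map_congr_left fun s _ => artinLift_of _ _ _ s)

theorem ev_app (a b : List (Fin 6)) : ev6 (a ++ b) = ev6 a * ev6 b := by simp [ev6]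

theorem ev_st {a b : List (Fin 6)} (h : St a b) : ev6 a = ev6 b := by
  induction h with
  | hd s t r =>
    rw [← List.cons_append, ← List.cons_append, ev_app, ev_app]
    congr 1
    rcases eq_or_ne s t with rfl | h
    · rfl
    · have := artin_rel mD h
      rw [lift_alt _ h, lift_alt' _ h] at this
      simpa only [ev6, List.map_cons, List.prod_cons] using this
  | tl x _ ih => exact (ev_app [x] _).trans ((congrArg _ ih).trans (ev_app [x] _).symm)

theorem ev_iff {a b : List (Fin 6)} : ev6 a = ev6 b ↔ E a = E b := by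
  refine ⟨fun h => ρ_inj (by rw [← φ_ev, ← φ_ev, h]), fun h => ?_⟩
  have h' := E_eq.1 h
  clear h
  induction h' with
  | refl => rfl
  | tail _ k ih => exact ih.trans (ev_st k)

theorem lcm_of {u v v' u' : List (Fin 6)} (h : ∀ k, Lc k u v v' u') : Lcm u v v' u' := by
  refine ⟨?_, fun U W e => ?_⟩
  · rw [← ev_app, ← ev_app, ev_iff]
    exact (h 0).1
  rw [← ev_app, ← ev_app, ev_iff] at e
  obtain ⟨Z, e1, e2⟩ := (h _).2 (E U) (E W) le_rfl e
  obtain ⟨Z, rfl⟩ := E_surj Z
  exact ⟨Z, by rw [← ev_app, ev_iff]; exact e1, by rw [← ev_app, ev_iff]; exact e2⟩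

theorem ev_one (s : Fin 6) : ev6 [s] = PresentedGroup.of s := by simp [ev6]

theorem mem_all (g : Art mD) : g ∈ closure (range (PresentedGroup.of : Fin 6 → Art mD)) := by
  rw [PresentedGroup.closure_range_of]
  trivial

theorem cz' (g : Art mD) : Commute (ev6 z0) g := by
  induction mem_all g using closure_induction with
  | mem x hx =>
    obtain ⟨s, rfl⟩ := hx
    rw [← ev_one, Commute, SemiconjBy, ← ev_app, ← ev_app, ev_iff]
    exact cz (E [s])
  | one => exact Commute.one_right _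
  | mul x y _ _ a b => exact a.mul_right b
  | inv x _ a => exact a.inv_right

theorem pos (g : Art mD) : ∃ n l, g * ev6 z0 ^ n = ev6 l := by
  induction mem_all g using closure_induction'' with
  | mem x hx =>
    obtain ⟨s, rfl⟩ := hx
    exact ⟨0, [s], by rw [pow_zero, mul_one, ev_one]⟩
  | inv_mem x hx =>
    obtain ⟨s, rfl⟩ := hx
    obtain ⟨w, h⟩ := dz s
    rw [← E_app, ← ev_iff, ev_app, ev_one] at h
    exact ⟨1, w, by rw [pow_one, ← h, inv_mul_cancel_left]⟩
  | one => exact ⟨0, [], by simp [ev6]⟩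
  | mul x y _ _ a b =>
    obtain ⟨n, l, a⟩ := a
    obtain ⟨k, l', b⟩ := b
    refine ⟨n + k, l ++ l', ?_⟩
    rw [ev_app, ← a, ← b, pow_add, mul_assoc, mul_assoc, ← mul_assoc y, ← mul_assoc (ev6 z0 ^ n),
      ((cz' y).pow_left n).eq]

theorem ev_pow (n : ℕ) : ∃ z, ev6 z = ev6 z0 ^ n := by
  induction n with
  | zero => exact ⟨[], by simp [ev6]⟩
  | succ n ih =>
    obtain ⟨z, h⟩ := ih
    exact ⟨z ++ z0, by rw [ev_app, h, pow_succ]⟩

end Ga

open Ga in
theorem ga : S_GA := by
  refine ⟨fun f u v a h => lcm_of fun k => lc_rv (H_all k) f h, fun u v => ?_,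
    fun l l' h => Eqv.inv (E_eq.1 (ev_iff.1 h)), fun g => ?_⟩
  · obtain ⟨w, k, h⟩ := dzp (E u)
    obtain ⟨w', k', h'⟩ := dzp (E v)
    obtain ⟨v', u', a, b⟩ := ex_lc _ u v (w * E z0 ^ k') (w' * E z0 ^ k) le_rfl (by
      rw [← mul_assoc, ← mul_assoc, h, h', pow_mul_comm])
    exact ⟨v', u', lcm_of a, b⟩
  · obtain ⟨n, l, h⟩ := pos g
    obtain ⟨z, hz⟩ := ev_pow n
    exact ⟨z, l, hz ▸ (cz' g).pow_left n, fun u => hz ▸ (cz' _).pow_left n, hz ▸ h⟩

end Pool.Agent.MP_6eaae3_al.DN
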