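import Pool.Agent.MP_6eaae3_al.DN.Pa

/-! Cliques of type `D4` and `H3`. -/

namespace Pool.Agent.MP_6eaae3_al.DN

open FreeGroup (of)
open Set Cl Subgroup

namespace Hd

variable {G V : Type} [Group G] {f : V → G} {s t : V}

theorem r2 : FreeGroup.lift f (alt s t 2) = FreeGroup.lift f (alt t s 2) ↔ Commute (f s) (f t) := by
  simp [alt, commute_iff_eq]

theorem r3 : FreeGroup.lift f (alt s t 3) = FreeGroup.lift f (alt t s 3) ↔
    f s * f t * f s = f t * f s * f t := by simp [alt, mul_assoc]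

theorem lv_lt {p : V → V → Prop} [∀ s t, Decidable (p s t)] {n : ℕ} (h : 3 ≤ n) (s t : V) (i : ℕ) :
    (fun s t => if p s t then Equiv.swap 0 1 else (1 : Equiv.Perm ℕ)) s t i < n ↔ i < n := by
  simp only; split_ifs
  · rw [Equiv.swap_apply_def]; split_ifs <;> omega
  · rfl

theorem sw (i j : ℕ) : Equiv.swap 0 1 i = j ↔ (i = 0 ∧ j = 1) ∨ (i = 1 ∧ j = 0) ∨ (1 < i ∧ j = i) := by
  rw [Equiv.swap_apply_def]; split_ifs <;> omega

/-- The two numberings of the diagram. -/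
def σ (β : Bool) (i : ℕ) : Fin 6 := if β ∧ i = 4 then 5 else if β ∧ i = 5 then 4 else Fin.ofNat 6 i

theorem tab : ∀ (β : Bool) (i j : Fin 6), i ≠ j → (mD i j = 2 ∧
    (((σ β i).1 < σ β j ∧ up 3 (σ β j) ≠ σ β i) ∨ ((σ β j).1 < σ β i ∧ up 3 (σ β i) ≠ σ β j))) ∨
    (mD i j = 3 ∧ ((0 < (σ β j).1 ∧ up 3 (σ β j) = σ β i) ∨ (0 < (σ β i).1 ∧ up 3 (σ β i) = σ β j))) := by
  decide

theorem tab' : ∀ (β : Bool) (i j : Fin 6), i.1 < j.1 → (up 3 j ≠ i → σ β i ≠ σ β j ∧ mD (σ β i) (σ β j) = 2) ∧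
    (up 3 j = i → σ β i ≠ σ β j ∧ mD (σ β i) (σ β j) = 3) := by decide

theorem σσ (β : Bool) (j : Fin 6) : σ β (σ β j) = j := by revert β j; decide

noncomputable def ψ (β : Bool) : Art mD →* MulAut (FL (ℕ × ℕ)) :=
  artinLift mD (fun j => tw 3 (σ β j)) fun i j e => by
    rcases tab β i j e with ⟨q, ⟨u, v⟩ | ⟨u, v⟩⟩ | ⟨q, ⟨u, v⟩ | ⟨u, v⟩⟩ <;> rw [q]
    exacts [r2.2 ((rl 3).comm _ _ u (Fin.is_le _) v), r2.2 ((rl 3).comm _ _ u (Fin.is_le _) v).symm,
      r3.2 (v ▸ (rl 3).braid _ u (Fin.is_le _)), r3.2 (v ▸ ((rl 3).braid _ u (Fin.is_le _)).symm)]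

noncomputable def Y (β : Bool) : Md 3 (Art mD) where
  g i := PresentedGroup.of (σ β i)
  ψ := ψ β
  rel := ⟨fun i j u v e => by
      have := (tab' β ⟨i, by omega⟩ ⟨j, by omega⟩ u).1 e
      exact r2.1 (this.2 ▸ artin_rel mD this.1), fun j u v => by
      have := (tab' β ⟨up 3 j, by unfold up; omega⟩ ⟨j, by omega⟩ (by simp [up]; omega)).2 rfl
      have e := artin_rel mD this.1
      rw [this.2] at e
      exact r3.1 e⟩
  tw i u := by rw [ψ, artinLift_of, σσ β ⟨i, by omega⟩]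

theorem eq6 (u v : List (Fin 6)) (e : rv θD 12 u v = some ([], [])) : ev6 u = ev6 v := by
  have c : ∀ s t, mD s t = mD t s := by decide
  simpa [ev6] using rv_sound (PresentedGroup.of : Fin 6 → Art mD) (fun s t => by
    by_cases e : s = t
    · rw [e]
    rcases tab false s t e with ⟨q, -⟩ | ⟨q, -⟩
    · simpa [θD, e, Ne.symm e, q, c t s] using (r2.1 (q ▸ artin_rel mD e)).eq
    · simpa [θD, e, Ne.symm e, q, c t s, mul_assoc] using r3.1 (q ▸ artin_rel mD e)) _ e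

open Classical in
theorem cp3 {m : V → V → ℕ} (sym : ∀ s t, m s t = m t s) {a b c : V} (ab : a ≠ b) (bc : b ≠ c)
    (ac : a ≠ c) (m1 : m a b = 3) (m2 : m b c = 5) (m3 : m a c = 2) (β : Bool) {n : ℕ} (n4 : 4 ≤ n) :
    ∃ C : Cp m n (fun s t => if s = b ∧ t = a then Equiv.swap 0 1 else 1) {a, b, c} 3,
      ∀ i ≤ 5, (C.cp i).1 = ![a, b, c] (cl6 (σ β i)) := by
  have m1' := sym b a ▸ m1; have m2' := sym c b ▸ m2; have m3' := sym c a ▸ m3
  have sv : ∀ l : ℕ, Equiv.swap 0 1 l = if l ≤ 1 then 1 - l else l := fun l => by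
    rw [Equiv.swap_apply_def]; split_ifs <;> omega
  let y : ℕ → V := fun i => if i = 0 then a else if i = 2 then c else if i = 4 then (if β then c else a)
    else if i = 5 then (if β then a else c) else b
  refine ⟨⟨fun i => (y i, min (i - 1) 3), fun i (u : i ≤ 5) j (v : j ≤ 5) => ?_, fun i u => ⟨?_, ?_⟩,
    fun j u v => ?_, fun i u ⟨q, l⟩ v e => ?_, fun i u ⟨q, l⟩ v e => ?_⟩, fun i u => ?_⟩
  · interval_cases i <;> interval_cases j <;> cases β <;> simp [y, ab, ac, ab.symm, ac.symm]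
  · simp only [y]; split_ifs <;> simp
  · simp only; omega
  · interval_cases j <;> cases β <;> simp [Aj, y, up, ab, bc, ab.symm, bc.symm, ac.symm, m1, m2, m1',
      m2', sv] <;> omega
  · rcases v with v | v | v <;> obtain rfl : _ = q := v.symm <;> interval_cases i <;> cases β <;>
      simp [Aj, y, ab, bc, ac, ab.symm, bc.symm, ac.symm, m1, m2, m3, m1', m2', m3', sv] at e <;>
      (try split_ifs at e) <;> first | omega | exact ⟨1, by simp [y, up]; omega⟩ |
        exact ⟨2, by simp [y, up]; omega⟩ | exact ⟨3, by simp [y, up]; omega⟩ |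
        exact ⟨4, by simp [y, up]; omega⟩ | exact ⟨5, by simp [y, up]; omega⟩
  · rcases v with v | v | v <;> obtain rfl : _ = q := v.symm <;> interval_cases i <;> cases β <;>
      simp [Aj, y, ab, bc, ac, ab.symm, bc.symm, ac.symm, m1, m2, m3, m1', m2', m3', sv] at e <;>
      (try split_ifs at e) <;> first | omega | (simp [y, up]; omega)
  · interval_cases i <;> cases β <;> rfl

variable [Finite V] {m : V → V → ℕ} (sym : ∀ s t, m s t = m t s) (n1 : ∀ s t, s ≠ t → m s t ≠ 1)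
include sym n1

theorem d4 (dm : S_DM) (dt : S_DT) {o u v w : V} {Λ : Set V}
    (hΛ : ∀ x, x ∈ Λ ↔ x = o ∨ x = u ∨ x = v ∨ x = w) (ou : o ≠ u) (ov : o ≠ v) (ow : o ≠ w)
    (uv : u ≠ v) (vw : v ≠ w) (uw : u ≠ w) (m1 : m o u = 3) (m2 : m o v = 3) (m3 : m o w = 3)
    (m4 : m u v = 2) (m5 : m v w = 2) (m6 : m u w = 2) :
    (∀ s, s = u ∨ s = o ∨ s = v → Dc m Λ {s} {v}) ∧ ∀ s, s = v ∨ s = o → Dc m Λ {s} {o} := by
  classical
  obtain ⟨n, n3, hn⟩ := exists_mult' n1
  let c : ℕ → V := fun i => if i = 0 then u else if i = 1 then o else if i = 2 then v else w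
  have m1' := sym u o ▸ m1; have m2' := sym v o ▸ m2; have m3' := sym w o ▸ m3
  have m4' := sym v u ▸ m4; have m5' := sym w v ▸ m5; have m6' := sym w u ▸ m6
  have ci : ∀ i ≤ 3, ∀ j ≤ 3, c i = c j → i = j := fun i a j b => by
    interval_cases i <;> interval_cases j <;> simp [c, *, ou.symm, ov.symm, ow.symm, uv.symm,
      vw.symm, uw.symm]
  have cm : ∀ i, c i ∈ Λ := fun i => by simp only [c, hΛ]; split_ifs <;> simp
  let C : Cp m n (fun s t => if s = o ∧ t = u then Equiv.swap 0 1 else 1) Λ 1 :=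
    { cp := fun i => (c i, if i ≤ 1 then 0 else 1)
      inj := fun i a j b e => ci i a j b (congrArg Prod.fst e)
      col := fun i _ => ⟨cm i, by simp only; split_ifs <;> omega⟩
      adj := fun j a b => by
        interval_cases j <;> simp [Aj, c, up, *, ou.symm, uv.symm, uw.symm] <;> omega
      nx := fun i a ⟨q, l⟩ b e => by
        rcases (hΛ q).1 b with rfl | rfl | rfl | rfl <;> interval_cases i <;>
          simp [Aj, c, sw, *, ou.symm, ov.symm, ow.symm, uv.symm, uw.symm] at e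
        · exact ⟨1, by simp [c, up]; omega⟩
        · omega
        · omega
        · omega
        · exact ⟨2, by simp [c, up]; omega⟩
        · exact ⟨3, by simp [c, up]; omega⟩
      pv := fun i a ⟨q, l⟩ b e => by
        rcases (hΛ q).1 b with rfl | rfl | rfl | rfl <;> interval_cases i <;>
          simp [Aj, c, *, ou.symm, ov.symm, ow.symm, uv.symm, uw.symm] at e <;> simp [c, up] <;> omega }
  have a2 : ∀ x y, x ≠ y → m x y = 2 → Commute (PresentedGroup.of x : Art m) (PresentedGroup.of y) :=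
    fun x y a b => r2.1 (b ▸ artin_rel m a)
  have a3 := fun x y (a : x ≠ y) (b : m x y = 3) => r3.1 (b ▸ artin_rel m a)
  let Y : Md 1 (Art m × MulAut (FL (ℕ × ℕ))) :=
    { g := fun i => (PresentedGroup.of (c i), tw 1 i)
      ψ := MonoidHom.snd _ _
      rel := ⟨fun i j a b e => Prod.ext (by
          interval_cases j <;> interval_cases i <;> first | exact (e rfl).elim | exact a2 _ _ ‹_› ‹_›)
          ((rl 1).comm i j a b e), fun j a b => Prod.ext (by
          interval_cases j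
          exacts [a3 _ _ ou.symm m1', a3 _ _ ov m2, a3 _ _ ow m3]) ((rl 1).braid j a b)⟩
      tw := fun _ _ => rfl }
  have key : ∀ i ≤ 3, ∀ j ≤ 3, (∀ x, Det Y x → Av (x.2 (lb (j, 0))) i → Av (x.2 (lb (j, 3))) i →
      Dd Y.g (Iic 3 \ {i}) (Iic 3 \ {j}) x) → Dc m Λ {c i} {c j} := fun i hi j hj h =>
    dm V m n _ Λ 1 C sym hn (lv_lt n3) _ (cm i) _ (cm j) fun x hx av => by
      have P : ∀ i ≤ 3, ∀ p ∈ Pr Y.g (Iic 3 \ {i}), p.1 ∈ Par m (Λ \ {c i}) := fun i hi p hp =>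
        cl_map (MonoidHom.fst _ _) (by
          rintro _ ⟨l, z, rfl⟩
          exact Par.of ⟨cm l, fun e => z.2 (ci l z.1 i hi e)⟩) hp
      obtain ⟨p, hp, q, hq, rfl⟩ := h x (dt _ 1 Y x ((closure_le _).2 (by
        rintro _ ⟨y, z, rfl⟩
        rcases (hΛ y).1 z with rfl | rfl | rfl | rfl
        · exact mem_cl 1 (by simp) (by simp [Y, C, c, tv, pr, *, ou.symm, ov.symm, ow.symm])
        · exact mem_cl 0 (by simp) (by simp [Y, C, c, tv, pr, *, uv.symm, uw.symm])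
        · exact mem_cl 2 (by simp) (by simp [Y, C, c, tv, pr, *, vw.symm])
        · exact mem_cl 3 (by simp) (by simp [Y, C, c, tv, pr, *])) hx))
        (av j hj i hi rfl rfl).1 (av j hj i hi rfl rfl).2
      exact ⟨_, P i hi p hp, _, P j hj q hq, rfl⟩
  refine ⟨?_, ?_⟩
  · rintro _ (rfl | rfl | rfl)
    exacts [key 0 (by omega) 2 (by omega) fun x d a _ => d.e 0 (by omega) a,
      key 1 (by omega) 2 (by omega) fun x d a _ => d.e 1 (by omega) a,
      key 2 (by omega) 2 (by omega) fun x d a _ => d.e 2 (by omega) a]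
  · rintro _ (rfl | rfl)
    exacts [key 2 (by omega) 1 (by omega) fun x d a b => d.h a b,
      key 1 (by omega) 1 (by omega) fun x d a b => ⟨1, one_mem _, x, d.c a b, (one_mul x).symm⟩]

theorem h3 (dm : S_DM) (dt : S_DT) (fo : S_FO) {a b c : V} (ab : a ≠ b) (bc : b ≠ c) (ac : a ≠ c)
    (m1 : m a b = 3) (m2 : m b c = 5) (m3 : m a c = 2) (β : Bool) (s t : Fin 3)
    (h : (t = cl6 (σ β 4) ∨ (t = 1 ∧ (s = 1 ∨ s = cl6 (σ β 4))))) :
    Dc m {a, b, c} {![a, b, c] s} {![a, b, c] t} := by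
  classical
  obtain ⟨n, n3, hn⟩ := exists_mult' n1
  obtain ⟨C, hy⟩ := cp3 sym ab bc ac m1 m2 m3 β
    (Nat.le_of_dvd (by omega) (by simpa [m2] using hn b c bc (by omega)) : 4 ≤ n)
  have m2' := sym c b ▸ m2
  set x : Fin 3 → V := ![a, b, c] with hx
  have xi : Function.Injective x := fun i j => by
    fin_cases i <;> fin_cases j <;> simp [x, ab, bc, ac, ab.symm, bc.symm, ac.symm]
  have xr : range x = {a, b, c} := by ext; simp [x]; tauto
  let r : Fin 3 → Art m × Art mD := fun v => (PresentedGroup.of (x v), ev6 (![[0, 4], [1, 3], [2, 5]] v))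
  have F := fo _ r (MonoidHom.snd _ _) (Prod.ext (by exact r3.1 (m1 ▸ artin_rel m ab :)) (by
      simpa [r, ev6, mul_assoc] using eq6 [0, 4, 1, 3, 0, 4] [1, 3, 0, 4, 1, 3] (by decide)))
    (Prod.ext (by exact r2.1 (m3 ▸ artin_rel m ac :)) (by
      simpa [r, ev6, mul_assoc] using eq6 [0, 4, 2, 5] [2, 5, 0, 4] (by decide)))
    (Prod.ext (by simpa [alt, m2, m2', r, x, mul_assoc] using artin_rel m bc) (by
      simpa [r, ev6, mul_assoc] using eq6 [1, 3, 2, 5, 1, 3, 2, 5, 1, 3] [2, 5, 1, 3, 2, 5, 1, 3, 2, 5]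
        (by decide))) rfl rfl rfl
  refine dm V m n _ _ 3 C sym hn (lv_lt n3) _ (xr ▸ mem_range_self _) _ (xr ▸ mem_range_self _)
    fun z hz av => ?_
  obtain ⟨g, hg, rfl⟩ : z ∈ (closure (range r)).map ((MonoidHom.id _).prodMap (ψ β)) :=
    (closure_le _).2 (by
      rintro _ ⟨_, u, rfl⟩
      obtain ⟨v, rfl⟩ := xr ▸ u
      refine ⟨r v, Subgroup.subset_closure ⟨v, rfl⟩, Prod.ext rfl ?_⟩
      simp only [tv, pr, hy 0 (by omega), hy 1 (by omega), hy 2 (by omega), hy 3 (by omega),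
        hy 4 (by omega), hy 5 (by omega), xi.eq_iff]
      fin_cases v <;> cases β <;> simp +decide [r, ψ, ev6, artinLift_of, σ]) hz
  have D := dt _ 3 (Y β) g.2 (PresentedGroup.generated_by _ _ (fun j : Fin 6 => mem_cl (σ β j) (Fin.is_le _)
    (congrArg PresentedGroup.of (σσ β j))) _)
  replace av : ∀ i ≤ 5, ∀ j ≤ 5, cl6 (σ β i) = t → cl6 (σ β j) = s →
      Av (ψ β g.2 (lb (i, 0))) j ∧ Av (ψ β g.2 (lb (i, 3))) j := fun i u j v e e' =>
    av i u j v ((hy i u).trans (congrArg x e)) ((hy j v).trans (congrArg x e'))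
  have P : ∀ v, ∀ p ∈ closure (r '' {v}ᶜ), p.1 ∈ Par m ({a, b, c} \ {x v}) := fun v p hp =>
    cl_map (MonoidHom.fst _ _) (by
      rintro _ ⟨l, z, rfl⟩
      exact Par.of ⟨xr ▸ mem_range_self _, fun e => z (xi e)⟩) hp
  have Q : ∀ (S : Set ℕ) (T : Set (Fin 6)), (∀ i : Fin 6, i.1 ∉ S → σ β i ∈ T) →
      Pr (Y β).g (Iic 5 \ S) ≤ Par mD T := fun S T e => (closure_le _).2 (by
    rintro _ ⟨i, u, rfl⟩
    exact Par.of (e ⟨i, Nat.lt_succ_of_le u.1⟩ u.2))
  have L : t = 1 → ∀ S, (∀ i : Fin 6, i.1 ∉ S → cl6 (σ β i) ≠ s) →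
      Dd (Y β).g (Iic 5 \ S) (Iic 5 \ {3}) g.2 → DC m ({a, b, c} \ {x s}) ({a, b, c} \ {x t}) g.1 := by
    rintro rfl S e ⟨p, hp, q, hq, u⟩
    obtain ⟨p, hp, q, hq, rfl⟩ := F s 3 g hg ⟨p, Q _ _ e hp, q, Q _ _ (by cases β <;> decide) hq, u⟩
    exact ⟨_, P _ p hp, _, P _ q hq, rfl⟩
  rcases h with h | ⟨h, rfl | e⟩
  · obtain ⟨i, u, v, w⟩ : ∃ i ≤ 3, cl6 (σ β i) = t ∧ ∀ j : Fin 6, j.1 ∉ ({i, 4} : Set ℕ) →
        cl6 (σ β j) ≠ t := ⟨t, by omega, by subst h; cases β <;> decide⟩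
    have e : cl6 (σ β s) = s := by cases β <;> fin_cases s <;> rfl
    obtain ⟨p, hp, q, hq, z⟩ := D.et s (by omega) i u (av 4 (by omega) s (by omega) h.symm e).1
      (av i (by omega) s (by omega) v e).1
    obtain ⟨p, hp, q, hq, z⟩ := F t (σ β s) _ (inv_mem hg) ⟨_, inv_mem (Q _ _ w hq), _,
      inv_mem (Q {s.1} {σ β s}ᶜ (by cases β <;> fin_cases s <;> decide) hp), by
      rw [← mul_inv_rev, ← z]; rfl⟩
    exact ⟨_, inv_mem (P _ q (e ▸ hq)), _, inv_mem (P _ p hp), by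
      rw [← mul_inv_rev, ← Prod.fst_mul, ← z]; simp⟩
  · have := av 3 (by omega) 3 (by omega) (by cases β <;> exact h.symm) (by cases β <;> rfl)
    exact L h (Iic 5) (fun i u => (u (Fin.is_le i)).elim)
      ⟨1, one_mem _, _, D.c this.1 this.2, (one_mul _).symm⟩
  · have := av 3 (by omega) 4 (by omega) (by cases β <;> exact h.symm) e.symm
    exact L h {s.1, 4} (by subst e; cases β <;> decide) (D.ht s (by omega) this.1 this.2
      (av 3 (by omega) s (by omega) (by cases β <;> exact h.symm) (by subst e; cases β <;> rfl)).1)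

end Hd

theorem d4 (dm : S_DM) (dt : S_DT) : S_D4 := by
  intro V _ m o a b c sym n1 oa ob oc ab bc ac m1 m2 m3 m4 m5 m6
  have k := fun u v w h => @Hd.d4 V _ m sym n1 dm dt o u v w {o, a, b, c} h
  have m4' := sym b a ▸ m4; have m5' := sym c b ▸ m5; have m6' := sym c a ▸ m6
  have k1 := k a b c (by simp) oa ob oc ab bc ac m1 m2 m3 m4 m5 m6
  have k2 := k c b a (by simp; tauto) oc ob oa bc.symm ab.symm ac.symm m3 m2 m1 m5' m4' m6'
  have k3 := k b a c (by simp; tauto) ob oa oc ab.symm ac bc m2 m1 m3 m4' m6 m5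
  have k4 := k c a b (by simp; tauto) oc oa ob ac.symm ab bc.symm m3 m1 m2 m6' m4 m5'
  have k5 := k a c b (by simp; tauto) oa oc ob ac bc.symm ab m1 m3 m2 m6 m5' m4
  have k6 := k b c a (by simp; tauto) ob oc oa bc ac.symm ab.symm m2 m3 m1 m5 m6' m4'
  rintro s (rfl | rfl | rfl | rfl) t (rfl | rfl | rfl | rfl) <;>
    first | exact k1.1 _ (by simp) | exact k2.1 _ (by simp) | exact k3.1 _ (by simp) |
      exact k4.1 _ (by simp) | exact k5.1 _ (by simp) | exact k6.1 _ (by simp) |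
      exact k1.2 _ (by simp) | exact k3.2 _ (by simp) | exact k5.2 _ (by simp)

theorem h3 (dm : S_DM) (dt : S_DT) (fo : S_FO) : S_H3 := by
  intro V _ m a b c sym n1 ab bc ac m1 m2 m3
  have k := Hd.h3 sym n1 dm dt fo ab bc ac m1 m2 m3
  rintro s (rfl | rfl | rfl) t (rfl | rfl | rfl)
  exacts [k false 0 0 (by decide), k false 0 1 (by decide), k true 0 2 (by decide),
    k false 1 0 (by decide), k false 1 1 (by decide), k true 1 2 (by decide),
    k false 2 0 (by decide), k true 2 1 (by decide), k true 2 2 (by decide)]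

end Pool.Agent.MP_6eaae3_al.DN
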