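import Pool.Agent.MP_6eaae3_al.DN.Dm

-- ======== part 0: formerly Pool.Agent.MP_6eaae3_al.DN.Fx
section MrgPart0

/-! A Fox derivative for the point pushes. -/

namespace Pool.Agent.MP_6eaae3_al.DN

open Set Cl Subgroup

namespace Fx

abbrev W := RegularWreathProduct ℤˣ Gm

open Classical in
noncomputable def dl (c x : Gm) : ℤˣ := if x = c then -1 else 1

theorem dl_congr {c x c' x' : Gm} (h : x = c ↔ x' = c') : dl c x = dl c' x' := by
  unfold dl
  by_cases e : x = c
  · rw [if_pos e, if_pos (h.1 e)]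
  · rw [if_neg e, if_neg (mt h.2 e)]

noncomputable def kz (k : ℕ) : Gm →* Gm := Cl.pj {k + 3}ᶜ

theorem kz_z (k : ℕ) : kz k (xx (k + 3)) = 1 := pj_out (by simp)
theorem kz_x {k i : ℕ} (h : i ≠ k + 3) : kz k (xx i) = xx i := pj_in h

noncomputable def evz (k : ℕ) : Gm →* W :=
  lft (fun i => if i = k + 3 then ⟨dl 1, 1⟩ else ⟨1, xx i⟩) fun i => by
    split_ifs <;> ext <;> simp

theorem evz_z (k : ℕ) : evz k (xx (k + 3)) = ⟨dl 1, 1⟩ := by simp [evz]
theorem evz_x {k i : ℕ} (h : i ≠ k + 3) : evz k (xx i) = ⟨1, xx i⟩ := by simp [evz, h]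

theorem evz_right (k : ℕ) (w : Gm) : (evz k w).right = kz k w :=
  DFunLike.congr_fun (hom_ext (φ := RegularWreathProduct.rightHom.comp (evz k)) (φ' := kz k) fun i => by
    by_cases h : i = k + 3
    · subst h; simp [evz_z, kz_z]
    · simp [evz_x h, kz_x h]) w

theorem evz_free {k : ℕ} {v : Gm} (h : v ∈ GS {k + 3}ᶜ) : (evz k v).left = 1 := by
  rw [GS.eq (evz k) RegularWreathProduct.inl (fun i hi => by rw [evz_x hi]; rfl) h]; rfl

theorem evz_conj (k : ℕ) (c x : Gm) : (evz k (c * xx (k + 3) * c⁻¹)).left x = dl (kz k c) x := by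
  simp only [map_mul, map_inv, evz_z, RegularWreathProduct.mul_left, RegularWreathProduct.mul_right,
    RegularWreathProduct.inv_left, Pi.mul_apply, Pi.inv_apply, evz_right, mul_one, mul_inv_cancel_left]
  rw [mul_right_comm, mul_inv_cancel, one_mul]
  exact dl_congr (by rw [inv_mul_eq_one, eq_comm])

def Na (k : ℕ) : Subgroup Gm := closure {n | ∃ c, n = c * xx (k + 3) * c⁻¹}

theorem Na.kz {k : ℕ} {n : Gm} (h : n ∈ Na k) : Fx.kz k n = 1 :=
  (closure_le (Fx.kz k).ker).2 (by rintro _ ⟨c, rfl⟩; simp [kz_z]) h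

theorem left_mul {k : ℕ} {n : Gm} (h : kz k n = 1) (w x : Gm) :
    (evz k (n * w)).left x = (evz k n).left x * (evz k w).left x := by
  simp [evz_right, h]

theorem left_inv {k : ℕ} {n : Gm} (h : kz k n = 1) (x : Gm) :
    (evz k n⁻¹).left x = ((evz k n).left x)⁻¹ := by
  simp [evz_right, h]

/-- The invariants of a push. -/
def Iv (k : ℕ) : Subgroup SD where
  carrier := {b | (∀ w, kz k (b.right w) = kz k w) ∧
    b.right (xx (k + 3)) = b.left⁻¹ * xx (k + 3) * b.left}
  one_mem' := by simp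
  mul_mem' := fun {a b} h h' => ⟨fun w => by simp [h.1, h'.1], by simp [h.2, h'.2, mul_assoc]⟩
  inv_mem' := fun {a} h => ⟨fun w => by rw [← h.1]; simp, by
    apply a.right.injective
    simp [h.2, mul_assoc]⟩

theorem Na.map {k : ℕ} {b : SD} (hb : b ∈ Iv k) {n : Gm} (h : n ∈ Na k) :
    b.right n ∈ Na k ∧ ∀ x, (evz k (b.right n)).left x = (evz k n).left (x * Fx.kz k b.left) := by
  induction h using closure_induction with
  | mem y hy =>
    obtain ⟨c, rfl⟩ := hy
    have e : b.right (c * xx (k + 3) * c⁻¹) =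
        b.right c * b.left⁻¹ * xx (k + 3) * (b.right c * b.left⁻¹)⁻¹ := by
      simp [hb.2, mul_assoc]
    refine ⟨e ▸ subset_closure ⟨_, rfl⟩, fun x => ?_⟩
    rw [e, evz_conj, evz_conj, map_mul, map_inv, hb.1]
    exact dl_congr eq_mul_inv_iff_mul_eq
  | one => simp
  | mul y z hy _ a c =>
    refine ⟨by rw [map_mul]; exact mul_mem a.1 c.1, fun x => ?_⟩
    rw [map_mul b.right, left_mul (Na.kz a.1), left_mul (Na.kz hy), a.2, c.2]
  | inv y hy a =>
    refine ⟨by rw [map_inv]; exact inv_mem a.1, fun x => ?_⟩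
    rw [map_inv b.right, left_inv (Na.kz a.1), left_inv (Na.kz hy), a.2]

noncomputable def ff (k i : ℕ) (x : Gm) : ℤˣ := if i ≤ k then dl (xx i) x * dl 1 x else 1

theorem ff_mul (k i : ℕ) (x : Gm) : ff k i (xx i * x) = ff k i x := by
  unfold ff; split_ifs
  · rw [mul_comm, dl_congr (c := 1) (x := xx i * x) (c' := xx i) (x' := x)
      (by rw [mul_eq_one_iff_inv_eq, xx_inv, eq_comm]),
      dl_congr (c := xx i) (x := xx i * x) (c' := 1) (x' := x) (by simp)]
  · rfl

theorem ff_inv (k i : ℕ) (x : Gm) : ff k i x⁻¹ = ff k i x := by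
  unfold ff
  rw [dl_congr (c := xx i) (x := x⁻¹) (c' := xx i) (x' := x) (by rw [inv_eq_iff_eq_inv, xx_inv]),
    dl_congr (c := 1) (x := x⁻¹) (c' := 1) (x' := x) (by simp)]

noncomputable def Lam (k : ℕ) : Gm →* W :=
  lft (fun i => ⟨ff k i, xx i⟩) fun i => by ext <;> simp [ff_mul]

theorem Lam_right (k : ℕ) (w : Gm) : (Lam k w).right = w :=
  DFunLike.congr_fun (hom_ext (φ := RegularWreathProduct.rightHom.comp (Lam k))
    (φ' := MonoidHom.id _) fun i => by simp [Lam]) w

theorem Lam_cons (k i : ℕ) (g y : Gm) :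
    (Lam k (xx i * g)).left y = ff k i y * (Lam k g).left (xx i * y) := by
  simp [Lam]

theorem wd_xx (i : ℕ) : wd (xx i) = [i] := by simpa using wd_ev (l := [i]) (by simp)

theorem sup (k : ℕ) {l : List ℕ} (h : Rd l) :
    ∀ y, (Lam k (Cl.ev l)).left y ≠ 1 → y = 1 ∨ (wd y).head? = l.head? := by
  induction l with
  | nil => simp
  | cons i l ih =>
    intro y hy
    rw [ev_cons, Lam_cons] at hy
    by_cases e : (Lam k (Cl.ev l)).left (xx i * y) = 1
    · by_contra n
      have n1 : y ≠ 1 := fun e => n (Or.inl e)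
      have n2 : y ≠ xx i := fun e => n (Or.inr (by simp [e, wd_xx]))
      simp [e, ff, dl, n1, n2] at hy
    · right
      rw [← xx_xx i y, wd_cons]; · rfl
      rcases ih h.tail _ e with a | a
      · simp [a]
      · rw [a]; exact (rd_cons.1 h).1

theorem van (k : ℕ) {l : List ℕ} (h : Rd l) (v : ∀ y, (Lam k (Cl.ev l)).left y = 1) :
    Cl.ev l ∈ GS (Ioi k) := by
  induction l with
  | nil => exact one_mem _
  | cons i l ih =>
    simp only [ev_cons, Lam_cons] at v
    by_cases e : i ≤ k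
    · have n : (1 : Gm) ≠ xx i := fun e => by simpa [wd_xx] using congrArg wd e
      have := v 1
      rcases sup k (l := l) h.tail (xx i) (fun a => by simp [a, ff, dl, e, n] at this) with a | a
      · exact (n a.symm).elim
      · exact ((rd_cons.1 h).1 (by simpa [wd_xx] using a.symm)).elim
    · rw [ev_cons]
      exact mul_mem (xx_mem (not_le.1 e)) (ih h.tail fun y => by simpa [ff, e] using v (xx i * y))

theorem kz_sg {k i : ℕ} (h : i ≤ k) (w : Gm) : kz k (sg i w) = sg i (kz k w) :=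
  DFunLike.congr_fun (hom_ext (φ := (kz k).comp (sg i).toMonoidHom)
    (φ' := (sg i).toMonoidHom.comp (kz k)) fun j => by
    have a := kz_x (k := k) (i := i) (by omega)
    have b := kz_x (k := k) (i := i + 1) (by omega)
    by_cases e : j = k + 3
    · subst e
      have : k + 3 ≠ i ∧ k + 2 ≠ i := by omega
      simp [sg_xx, kz_z, this]
    · simp only [MonoidHom.comp_apply, MulEquiv.coe_toMonoidHom, kz_x e, sg_xx]
      split_ifs <;> simp [a, b, kz_x e]) w

theorem sg_sy (i j : ℕ) : (sg i).symm (xx j) =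
    if j = i then xx i * xx (i + 1) * xx i else if j = i + 1 then xx i else xx j := sg_inv_xx i j

theorem top_xx (k j : ℕ) : (pu (rs k) k (k + 1)).right (xx j) =
    if j = k + 1 then xx (k + 1) * xx (k + 3) * xx (k + 1) * xx (k + 3) * xx (k + 1)
    else if j = k + 2 then xx (k + 3) * xx (k + 2) * xx (k + 3)
    else if j = k + 3 then xx (k + 3) * xx (k + 2) * xx (k + 3) * xx (k + 1) * xx (k + 3) * xx (k + 1) *
      xx (k + 3) * xx (k + 2) * xx (k + 3) else xx j := by
  rw [pu_top]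
  split_ifs with h1 h2 h3
  · simp [rs, h1, sq, sg_xx, sg_sy, mul_assoc]
  · simp [rs, h2, sq, sg_xx, sg_sy, mul_assoc]
  · simp [rs, h3, sq, sg_xx, sg_sy, mul_assoc]
  · simp [rs, h1, h2, h3, sq, sg_xx, sg_sy, mul_assoc]

theorem gen_pu {k i : ℕ} (h : i ≤ k + 1) : pu (rs k) k i ∈ Iv k ∧
    (pu (rs k) k i).left = xx i * xx (k + 3) * xx (k + 2) * xx (k + 3) ∧
    (pu (rs k) k i).right (Cw 0 (k + 1)) =
      (if i ≤ k then xx i * xx (k + 3) * xx i * xx (k + 3) else 1) * Cw 0 (k + 1) := by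
  induction h using Nat.decreasingInduction with
  | self =>
    have l : (pu (rs k) k (k + 1)).left = xx (k + 1) * xx (k + 3) * xx (k + 2) * xx (k + 3) := by
      simp [pu_top, rs, sq]
    refine ⟨⟨fun w => DFunLike.congr_fun (hom_ext
      (φ := (kz k).comp (pu (rs k) k (k + 1)).right.toMonoidHom) (φ' := kz k) fun j => ?_) w,
      by simp [l, top_xx, mul_assoc]⟩, l, ?_⟩
    · simp only [MonoidHom.comp_apply, MulEquiv.coe_toMonoidHom, top_xx]
      split_ifs with h1 h2 h3 <;> simp [*, kz_z, kz_x, mul_assoc]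
    · rw [if_neg (by omega), one_mul]
      exact GS.eq _ (MonoidHom.id _) (fun j hj => by
        have := hj.2
        rw [top_xx, if_neg (by omega), if_neg (by omega), if_neg (by omega)]; rfl) (Cw_mem _ _)
  | of_succ i hi ih =>
    have hk : i ≤ k := by omega
    obtain ⟨⟨a, b⟩, c, d⟩ := ih
    have n : k + 3 ≠ i ∧ k + 2 ≠ i ∧ k + 1 ≠ i := by omega
    have l : (pu (rs k) k i).left = (sg i)⁻¹ (pu (rs k) k (i + 1)).left := by
      simp [pu_succ _ hk, rs, hk]
    have r : ∀ w, (pu (rs k) k i).right w = (sg i)⁻¹ ((pu (rs k) k (i + 1)).right (sg i w)) := by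
      simp [pu_succ _ hk, rs, hk]
    have z : sg i (xx (k + 3)) = xx (k + 3) := by simp [sg_xx, n]
    have z' : (sg i)⁻¹ (xx (k + 3)) = xx (k + 3) := by simp [sg_sy, n]
    refine ⟨⟨fun w => ?_, by rw [r, l, z, b, map_mul, map_mul, map_inv, z']⟩,
      by simp [l, c, sg_sy, n], ?_⟩
    · apply (sg i).injective
      rw [r, ← kz_sg hk, MulAut.apply_inv_self, a, kz_sg hk]
    · rw [r, if_pos hk]
      rcases hk.eq_or_lt with rfl | q
      · have f : ∀ φ : MulAut Gm, (∀ j < i, φ (xx j) = xx j) → φ (Cw 0 i) = Cw 0 i := fun φ u =>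
          GS.eq φ (MonoidHom.id _) (fun j hj => u j hj.2) (Cw_mem _ _)
        rw [Cw_succ (Nat.zero_le _), map_mul, map_mul, map_mul, f (sg i), f (pu (rs i) i (i + 1)).right, f (sg i)⁻¹]
        · simp [sg_xx, top_xx, sg_sy, mul_assoc]
        all_goals intro j hj
        · rw [sg_inv_xx, if_neg (by omega), if_neg (by omega)]
        · rw [top_xx, if_neg (by omega), if_neg (by omega), if_neg (by omega)]
        · rw [sg_xx, if_neg (by omega), if_neg (by omega)]
      · have e : sg i (Cw 0 (k + 1)) = Cw 0 (k + 1) := sg_Cw (by omega) (by omega)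
        have e' : (sg i)⁻¹ (Cw 0 (k + 1)) = Cw 0 (k + 1) := by
          conv_lhs => rw [← e, MulAut.inv_apply_self]
        rw [e, d, if_pos (by omega : i + 1 ≤ k), map_mul, e']
        simp [sg_sy, n]

theorem main {k : ℕ} {b : SD} (hb : b ∈ Pr (pu (rs k) k) (Iic (k + 1))) :
    b ∈ Iv k ∧ ∃ n ∈ Na k, b.right (Cw 0 (k + 1)) = n * Cw 0 (k + 1) ∧
      ∀ x, (evz k n).left x = (Lam k (kz k b.left)).left x⁻¹ := by
  induction hb using closure_induction with
  | mem y hy =>
    obtain ⟨i, hi, rfl⟩ := hy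
    obtain ⟨a, c, d⟩ := gen_pu (k := k) hi
    have n : i ≠ k + 3 := by have : i ≤ k + 1 := hi; omega
    have m1 : xx i * xx (k + 3) * xx i ∈ Na k := subset_closure ⟨xx i, by simp⟩
    refine ⟨a, _, ?_, d, fun x => ?_⟩
    · split_ifs
      exacts [mul_mem m1 (subset_closure ⟨1, by simp⟩), one_mem _]
    · have : ∀ y, ff k (k + 2) y = 1 := fun y => if_neg (by omega)
      simp only [c, map_mul (kz k), kz_z, kz_x n, kz_x (show k + 2 ≠ k + 3 by omega), mul_one, Lam_cons,
        ff_inv]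
      rw [Lam, lft_xx]
      simp only [this, mul_one]
      rw [ff]
      split_ifs
      · rw [left_mul (Na.kz m1), evz_z, ← kz_x n, ← evz_conj, kz_x n, xx_inv]
      · simp
  | one => exact ⟨one_mem _, 1, one_mem _, by simp, by simp⟩
  | mul b b' _ _ h h' =>
    obtain ⟨a, n, u, v, w⟩ := h
    obtain ⟨a', n', u', v', w'⟩ := h'
    obtain ⟨s, t⟩ := Na.map a u'
    refine ⟨mul_mem a a', _, mul_mem s u, by simp [v, v', mul_assoc], fun x => ?_⟩
    rw [left_mul (Na.kz s), t, w, w', mul_comm]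
    simp [a.1, Lam_right]
  | inv b _ h =>
    obtain ⟨a, n, u, v, w⟩ := h
    obtain ⟨s, t⟩ := Na.map (inv_mem a) u
    refine ⟨inv_mem a, _, inv_mem s, ?_, fun x => ?_⟩
    · apply b.right.injective
      simp [v]
    · rw [left_inv (Na.kz s), t, w]
      have : kz k b⁻¹.left = (kz k b.left)⁻¹ := by simpa using (inv_mem a).1 b.left⁻¹
      rw [this]
      simp [Lam_right]

theorem pa_kz (k : ℕ) (c : Gm) : pa k (kz k c) = pa k c :=
  DFunLike.congr_fun (hom_ext (φ := (pa k).comp (kz k)) (φ' := pa k) fun j => by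
    by_cases e : j = k + 3
    · simp [e, kz_z, pa]
    · simp [kz_x e]) c

theorem zf {k : ℕ} {w x : Gm} (h : Zf k w) (hx : pa k x = 1) : (evz k w).left x = 1 := by
  obtain ⟨n, hn, v, hv, rfl⟩ := h
  have : kz k n = 1 ∧ (evz k n).left x = 1 := by
    induction hn using closure_induction with
    | mem y hy =>
      obtain ⟨c, e, rfl⟩ := hy
      refine ⟨by simp [kz_z], ?_⟩
      rw [evz_conj, dl, if_neg]
      rintro rfl
      simp [pa_kz, e] at hx
    | one => simp
    | mul y z _ _ a c => exact ⟨by simp [a.1, c.1], by rw [left_mul a.1, a.2, c.2, mul_one]⟩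
    | inv y _ a => exact ⟨by simp [a.1], by rw [left_inv a.1, a.2, inv_one]⟩
  rw [left_mul this.1, this.2, evz_free hv]; rfl

theorem pa_Cw (k : ℕ) {j : ℕ} (h : j ≤ k + 1) : pa k (Cw 0 j) = (-1) ^ j := by
  induction j with
  | zero => simp [Cw]
  | succ j ih =>
    have : j ≠ k + 3 := by omega
    rw [Cw_succ (Nat.zero_le _), map_mul, ih (by omega), pow_succ']
    simp [pa, this]

end Fx

open Fx in
theorem fx : S_FX := by
  intro k b hb h1 h2
  obtain ⟨-, n, u, v, w⟩ := main hb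
  have mE : Cw 0 (k + 1) ∈ GS {k + 3}ᶜ :=
    GS.mono (fun j hj => by have := hj.2; simp; omega) (Cw_mem _ _)
  have mT : xx (k + 4) ∈ GS {k + 3}ᶜ := xx_mem (by simp)
  have key : ∀ x, (evz k n).left x = 1 := fun x => by
    rcases Int.units_eq_one_or (pa k x) with e | e
    · have := zf h1 e
      rwa [v, mul_assoc, Fx.left_mul (Na.kz u), evz_free (mul_mem mE (pow_mem mT _)), Pi.one_apply,
        mul_one] at this
    · have m := mul_mem (pow_mem mT k) (inv_mem mE)
      have := zf h2 (x := xx (k + 4) ^ k * (Cw 0 (k + 1))⁻¹ * x) (by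
        have : pa k (xx (k + 4)) = -1 := by simp [pa]
        simp [e, pa_Cw k le_rfl, this, pow_succ])
      rw [v, mul_inv_rev, ← mul_assoc, mul_assoc, map_mul, RegularWreathProduct.mul_left, Pi.mul_apply,
        evz_free m, evz_right, kz, pj_fix m, inv_mul_cancel_left,
        Fx.left_mul (Na.kz (inv_mem u)), evz_free mT, Fx.left_inv (Na.kz u)] at this
      simpa using this
  have g := van k (rd_wd (kz k b.left)) fun y => by rw [ev_wd, ← inv_inv y, ← w, key]
  rw [ev_wd] at g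
  have e : kp k b.left = kp k (kz k b.left) :=
    DFunLike.congr_fun (hom_ext (φ := kp k) (φ' := (kp k).comp (kz k)) fun j => by
      by_cases e : j = k + 3
      · simp [e, kz_z, kp, pj_out]
      · simp [kz_x e]) _
  rw [e]
  refine GS.map (kp k) (fun j hj => ?_) g
  by_cases q : j ∈ Iio (k + 3)
  · rw [kp, pj_in q]; exact xx_mem hj
  · rw [kp, pj_out q]; exact one_mem _

end Pool.Agent.MP_6eaae3_al.DN

end MrgPart0

-- ======== part 1: formerly Pool.Agent.MP_6eaae3_al.DN.Pa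
section MrgPart1

/-! Paths in the model and the sides of a pair of marks. -/

namespace Pool.Agent.MP_6eaae3_al.DN

open FreeGroup (of)
open Set Cl Subgroup Pointwise

namespace Pa

variable {M : Type} (R : Set (M × Fin 4)) (sr : M → Bool) (tg : M × Fin 4 → Bool)

/-- Words that can be read along the squares; only a two-valued invariant of the sides is kept. -/
inductive Pth : Bool → Bool → FL M → Prop
  | one (u) : Pth u u 1
  | gen (x) : x ∈ R → Pth (sr x.1) (tg x) (of x)
  | inv {u v y} : Pth u v y → Pth v u y⁻¹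
  | mul {u v w y y'} : Pth u v y → Pth v w y' → Pth u w (y * y')

def Ch : Bool → Bool → List (M × Bool) → Prop
  | u, v, [] => u = v
  | u, v, p :: l => u = (if p.2 then tg (p.1, 1) else sr p.1) ∧
      Ch (if p.2 then tg (p.1, 2) else tg (p.1, 0)) v l

def Kp (φ : MulAut (FL M)) : Prop := ∀ u v y, Pth R sr tg u v y → Pth R sr tg u v (φ y)

def PS : Subgroup (MulAut (FL M)) where
  carrier := {φ | Kp R sr tg φ ∧ Kp R sr tg φ⁻¹}
  one_mem' := ⟨fun _ _ _ h => h, fun _ _ _ h => h⟩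
  mul_mem' := fun a b => ⟨fun _ _ _ h => a.1 _ _ _ (b.1 _ _ _ h), fun _ _ _ h => by
    rw [mul_inv_rev]; exact b.2 _ _ _ (a.2 _ _ _ h)⟩
  inv_mem' := fun a => ⟨a.2, by rw [inv_inv]; exact a.1⟩

variable {R sr tg}

theorem Pth.mem {u v y} (h : Pth R sr tg u v y) : y ∈ Fre R := by
  induction h with
  | one => exact one_mem _
  | gen x h => exact of_mem_Fre h
  | inv _ a => exact inv_mem a
  | mul _ _ a b => exact mul_mem a b

theorem Ch.split {u v} {l l' : List (M × Bool)} (h : Ch sr tg u v (l ++ l')) :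
    ∃ w, Ch sr tg u w l ∧ Ch sr tg w v l' := by
  induction l generalizing u with
  | nil => exact ⟨u, rfl, h⟩
  | cons p l ih => obtain ⟨w, a, b⟩ := ih h.2; exact ⟨w, ⟨h.1, a⟩, b⟩

theorem io {A : Rec M} (hR : A.PL true ⊆ R) {p} (h : p ∈ A.cells) :
    Pth R sr tg (if p.2 then tg (p.1, 1) else sr p.1) (sr p.1) (inl p) ∧
      Pth R sr tg (sr p.1) (if p.2 then tg (p.1, 2) else tg (p.1, 0)) (out true p) := by
  obtain ⟨μ, _ | _⟩ := p
  · exact ⟨.one _, .gen (μ, 0) (hR (Or.inl ⟨h, Or.inl rfl⟩))⟩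
  · exact ⟨.inv (.gen (μ, 1) (hR (Or.inr ⟨h, Or.inl rfl⟩))), .gen (μ, 2) (hR (Or.inr ⟨h, Or.inr rfl⟩))⟩

theorem Ch.pth {A : Rec M} (hR : A.PL true ⊆ R) {u v} {l : List (M × Bool)} (h : Ch sr tg u v l)
    (hl : ∀ p ∈ l, p ∈ A.cells) : Pth R sr tg u v (pth true l) := by
  induction l generalizing u with
  | nil => exact (show u = v from h) ▸ .one _
  | cons p l ih =>
    have := io (sr := sr) (tg := tg) hR (hl p (by simp))
    rw [pth_cons, h.1]
    exact (this.1.mul this.2).mul (ih h.2 fun q a => hl q (by simp [a]))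

theorem kp_of {φ : MulAut (FL M)} (h : ∀ x ∈ R, Pth R sr tg (sr x.1) (tg x) (φ (of x))) :
    Kp R sr tg φ := fun u v y a => by
  induction a with
  | one => rw [map_one]; exact .one _
  | gen x a => exact h x a
  | inv _ a => rw [map_inv]; exact a.inv
  | mul _ _ a b => rw [map_mul]; exact a.mul b

theorem tau_mem {A : Rec M} (hR : A.PL true ⊆ R) (h3 : ∀ x ∈ R, x.2 ≠ 3) {u}
    (h : Ch sr tg u u A.cells) : A.tau true ∈ PS R sr tg := by
  have el : ∀ p ∈ A.cells, Pth R sr tg (sr p.1) (sr p.1) (A.ell true p) := fun p hp => by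
    obtain ⟨l, l', e⟩ := List.append_of_mem hp
    obtain ⟨w, a, rfl, b⟩ := Ch.split (e ▸ h)
    have := io (sr := sr) (tg := tg) hR hp
    rw [Rec.ell_eq true e]
    exact ((this.2.mul (b.pth hR fun q c => by simp [e, c])).mul
      (a.pth hR fun q c => by simp [e, c])).mul this.1
  have lf : ∀ x ∈ R, Pth R sr tg (sr x.1) (sr x.1) (A.lf true x) := fun x hx => by
    unfold Rec.lf
    split_ifs with a b c
    exacts [el _ a.2, el _ b.2, (h3 x hx c.1).elim, .one _]
  refine ⟨kp_of fun x hx => ?_, kp_of fun x hx => ?_⟩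
  · rw [Rec.tau_of, Rec.rg, if_neg (h3 x hx), mul_one]
    exact (lf x hx).mul (.gen x hx)
  · rw [Rec.tau, shr_inv, Rec.rg, if_neg (h3 x hx), inv_one, mul_one]
    exact (lf x hx).inv.mul (.gen x hx)

theorem side {Z : Set (M × Fin 4)} (hZ : ∀ x ∈ R, x ∉ Z → tg x = sr x.1) {u y}
    (h : Pth R sr tg u u y) (hy : y ∈ Fre Zᶜ) : y ∈ Fre {x | x ∈ R ∧ x ∉ Z ∧ sr x.1 = u} := by
  set K := Fre {x | x ∈ R ∧ x ∉ Z ∧ sr x.1 = u}
  let Ψ : FL M →* Equiv.Perm (FL M × Bool) := FreeGroup.lift fun x => Ar (sr x.1) (tg x) (of x)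
  have e : ∀ a b y, Pth R sr tg a b y → Ψ y = Ar a b y := fun a b y h => by
    induction h with
    | one => rw [map_one, Ar_one]
    | gen x _ => exact FreeGroup.lift_apply_of
    | inv _ a => rw [map_inv, a, Ar_inv]
    | mul _ _ a b => rw [map_mul, a, b, Ar_mul]
  let L : Subgroup (Equiv.Perm (FL M × Bool)) :=
    MulAction.stabilizer _ {p : FL M × Bool | p.1 ∈ K ∧ p.2 = u}
  have mL : ∀ σ w, (σ = u → w ∈ K) → Ar σ σ w ∈ L := fun σ w e => by
    refine Set.ext fun p => ?_
    rw [mem_smul_set_iff_inv_smul_mem, Ar_inv]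
    obtain ⟨p, _ | _⟩ := p <;> cases σ <;> cases u <;> simp [Ar] <;>
      exact K.mul_mem_cancel_left (inv_mem (e rfl))
  have : Ψ y ∈ L := Fre.map_mem Ψ (fun x hx => by
    rw [FreeGroup.lift_apply_of, hZ x hx.1 hx.2]
    exact mL _ _ fun q => of_mem_Fre ⟨hx.1, hx.2, q⟩) (Fre.inter h.mem hy)
  have := (Set.ext_iff.1 this _).1 (smul_mem_smul_set (show ((1 : FL M), u) ∈ _ from ⟨one_mem _, rfl⟩))
  simpa [e _ _ _ h, Ar] using this

end Pa

theorem mem_cells {k i a b : ℕ} {c : Bool} : ((a, b), c) ∈ (cv k i).cells ↔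
    if c then 0 < i ∧ a = i ∧ b = 4 else (a = i ∧ b < 4) ∨
      (b = 4 ∧ i ≤ k ∧ (a = i + 1 ∨ (i = k ∧ a = i + 2))) := by
  cases c <;> simp only [cv, cells, Bool.false_eq_true, if_false, if_true] <;> split_ifs <;> simp <;>
    omega

theorem mem_slots {k i a b : ℕ} : (a, b) ∈ (cv k i).slots ↔ (0 < i ∧ a = i ∧ b = 4) ∨
    (a = i ∧ b < 4) ∨ (b = 4 ∧ i ≤ k ∧ (a = i + 1 ∨ (i = k ∧ a = i + 2))) := by
  simp [Rec.slots, mem_cells, or_comm]

theorem rl : S_RL := fun k => ⟨fun i j a b c => Rec.Dis.commute (fun ⟨x, y⟩ u v => by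
    rw [mem_slots] at u v; unfold up at c; omega) _ _,
  fun j a b => Rec.One.braid (μ := (j, 4)) ⟨by simp [mem_cells, up]; omega, by simp [mem_cells, a],
    fun ⟨x, y⟩ u v => by
      rw [mem_slots] at u v; unfold up at u; simp only [Prod.mk.injEq]; omega⟩⟩

theorem st : S_ST := by
  intro G _ k s j Y hj β hβ
  have key : ∀ K : Subgroup (MulAut (FL (ℕ × ℕ))),
      (∀ A : Rec (ℕ × ℕ), (s, j) ∉ A.slots → A.tau true ∈ K) → Y.ψ β ∈ K := fun K h =>
    cl_map Y.ψ (by
      rintro _ ⟨i, hi, rfl⟩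
      rw [Y.tw i hi.1]
      exact h _ fun e => by have := hi.2; rw [mem_slots] at e; simp at this; omega) hβ
  refine ⟨key (MulAction.stabilizer _ (lb (s, j))) fun A h => Rec.tau_not h, fun y => ?_⟩
  exact key (Stab (Fre {((s, j), 0)}ᶜ)) (fun A h => Rec.tau_stab fun _ _ => Or.inr fun _ hy e =>
    h (by cases e; exact Rec.PL_slot hy)) y

end Pool.Agent.MP_6eaae3_al.DN

end MrgPart1

-- marker of a merged file
example : 731051 + 126776 = 731051 + 126776 := rfl
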