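import Pool.Agent.MP_6eaae3_al.DN.Dm
import Pool.Agent.MP_6eaae3_al.DN.Pa
import Pool.Agent.MP_6eaae3_al.DN.Ga
import Pool.Agent.MP_6eaae3_al.DN.Fo
import Pool.Agent.MP_6eaae3_al.DN.Dt
import Pool.Agent.MP_6eaae3_al.DN.Hd

/-! The double coset property for cliques of type `H3` and `D4`. -/

namespace Pool.Agent.MP_6eaae3_al.DN

theorem dc_h3 : S_H3 := h3 dm (dt de th fx) (fo ga)

theorem dc_d4 : S_D4 := d4 dm (dt de th fx)

end Pool.Agent.MP_6eaae3_al.DN
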