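import Pool.Agent.MP_6eaae3_al.Cl.Lin

-- ======== part 0: formerly Pool.Agent.MP_6eaae3_al.DN.Spec
section MrgPart0

/-! Definitions and statements for cliques of type `H3` and `D4`. -/

namespace Pool.Agent.MP_6eaae3_al.DN

open FreeGroup (of)
open Set Cl Subgroup

variable {G V : Type}

/-- The diagram of type `D` has the tail `0, ..., k` and the two forks `k + 1`, `k + 2`. -/
def up (k j : ℕ) : ℕ := min (j - 1) k

structure DRel [Group G] (k : ℕ) (g : ℕ → G) : Prop where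
  comm : ∀ i j, i < j → j ≤ k + 2 → up k j ≠ i → Commute (g i) (g j)
  braid : ∀ j, 0 < j → j ≤ k + 2 → g (up k j) * g j * g (up k j) = g j * g (up k j) * g j

def Pr [Group G] (g : ℕ → G) (S : Set ℕ) : Subgroup G := closure (g '' S)

def Dd [Group G] (g : ℕ → G) (S T : Set ℕ) (a : G) : Prop := ∃ p ∈ Pr g S, ∃ q ∈ Pr g T, a = p * q

def pd [Group G] (g : ℕ → G) (k : ℕ) : ℕ → G
  | 0 => g (k + 1) * (g (k + 2))⁻¹
  | d + 1 => (g (k - d))⁻¹ * pd g k d * g (k - d)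

/-- The point pushes. -/
def pu [Group G] (g : ℕ → G) (k i : ℕ) : G := pd g k (k + 1 - i)

theorem pu_top [Group G] (g : ℕ → G) (k : ℕ) : pu g k (k + 1) = g (k + 1) * (g (k + 2))⁻¹ := by
  simp [pu, pd]

theorem pu_succ [Group G] (g : ℕ → G) {k i : ℕ} (h : i ≤ k) :
    pu g k i = (g i)⁻¹ * pu g k (i + 1) * g i := by
  rw [pu, pu, show k + 1 - i = k + 1 - (i + 1) + 1 by omega, pd, show k - (k + 1 - (i + 1)) = i by omega]

theorem map_pu {H : Type} [Group G] [Group H] (φ : G →* H) (g : ℕ → G) (k i : ℕ) :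
    φ (pu g k i) = pu (fun j => φ (g j)) k i := by
  unfold pu
  induction k + 1 - i with
  | zero => simp [pd]
  | succ d ih => simp [pd, ih]

/-- The square `(i, 4)` is the crossing of the curves `up k i` and `i`, the squares `(i, j)` with
`j < 4` are marks on the curve `i`. -/
def cells (k i : ℕ) : List ((ℕ × ℕ) × Bool) :=
  (if 0 < i then [((i, 4), true)] else []) ++
    if i ≤ k then ((i, 0), false) :: ((i, 1), false) :: ((i + 1, 4), false) ::
      ((if i = k then [((i + 2, 4), false)] else []) ++ [((i, 2), false), ((i, 3), false)])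
    else [((i, 1), false), ((i, 0), false), ((i, 2), false), ((i, 3), false)]

def cv (k i : ℕ) : Rec (ℕ × ℕ) := ⟨cells k i, by unfold cells; split_ifs <;> simp⟩

noncomputable def tw (k i : ℕ) : MulAut (FL (ℕ × ℕ)) := (cv k i).tau true

def Av (y : FL (ℕ × ℕ)) (s : ℕ) : Prop := y ∈ Fre {((s, 1), 0)}ᶜ ∧ y ∈ Fre {((s, 2), 0)}ᶜ

/-- A group with the relations of type `D` that acts on the model. -/
structure Md (k : ℕ) (G : Type) [Group G] where
  g : ℕ → G
  ψ : G →* MulAut (FL (ℕ × ℕ))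
  rel : DRel k g
  tw : ∀ i ≤ k + 2, ψ (g i) = tw k i

abbrev SD := Gm ⋊[MonoidHom.id (MulAut Gm)] MulAut Gm

/-- The letter `k + 3` is the puncture, the letter `k + 4` changes the sheet. -/
def rs (k i : ℕ) : SD :=
  if i ≤ k then ⟨1, sg i⟩ else if i = k + 1 then ⟨xx (k + 1) * xx (k + 3) * xx (k + 2) * xx (k + 3),
    sg (k + 2) ^ 2 * sg (k + 1) * (sg (k + 2) ^ 2)⁻¹⟩ else ⟨1, sg (k + 1)⟩

def pa (k : ℕ) : Gm →* ℤˣ := lft (fun i => if i = k + 3 then 1 else -1) fun i => by split_ifs <;> simp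

noncomputable def kp (k : ℕ) : Gm →* Gm := Cl.pj (Iio (k + 3))

def Nz (k : ℕ) : Subgroup Gm := closure {n | ∃ c, pa k c = -1 ∧ n = c * xx (k + 3) * c⁻¹}

def Zf (k : ℕ) (w : Gm) : Prop := ∃ n ∈ Nz k, ∃ v ∈ GS {k + 3}ᶜ, w = n * v

def Md.Γ [Group G] {k : ℕ} (Y : Md k G) (S : Set ℕ) : Subgroup (G × SD) :=
  closure ((fun i => (Y.g i, rs k i)) '' S)

/-! The algebra of the pushes. -/

def S_DE : Prop := ∀ (G : Type) [Group G] (k : ℕ) (g : ℕ → G), DRel k g → ∀ a ∈ Pr g (Iic (k + 2)),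
  ∃ h ∈ Pr (pu g k) (Iic (k + 1)), ∃ β ∈ Pr g (Iic (k + 2) \ {k + 1}), a = h * β

def S_TH : Prop := ∀ (G : Type) [Group G] (k s : ℕ) (g : ℕ → G),
  ∀ x ∈ closure ((fun i => (pu g k i, pu (rs k) k i)) '' Iic (k + 1)),
    kp k x.2.left ∈ GS (Ioi s) → x.1 ∈ Pr (pu g k) (Ioc s (k + 1))

def S_FX : Prop := ∀ k : ℕ, ∀ b ∈ Pr (pu (rs k) k) (Iic (k + 1)),
  Zf k (b.right (Cw 0 (k + 1)) * xx (k + 4) ^ (k + 1)) →
    Zf k (xx (k + 4) ^ k * (b.right (Cw 0 (k + 1)))⁻¹ * xx (k + 4)) →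
      kp k b.left ∈ GS (Ioi k)

/-! The model. -/

def S_RL : Prop := ∀ k, DRel k (tw k)

def S_ST : Prop := ∀ (G : Type) [Group G] (k s j : ℕ) (Y : Md k G), j < 4 →
  ∀ β ∈ Pr Y.g (Iic (k + 2) \ {s}), Y.ψ β (lb (s, j)) = lb (s, j) ∧
    ∀ y, Y.ψ β y ∈ Fre {((s, j), 0)}ᶜ ↔ y ∈ Fre {((s, j), 0)}ᶜ

def S_SD : Prop := ∀ (G : Type) [Group G] (k j : ℕ) (Y : Md k G), j = 0 ∨ j = 3 →
  ∀ a ∈ Pr Y.g (Iic (k + 2)), Av (Y.ψ a (lb (k, j))) k → Y.ψ a (lb (k, j)) ∈ Fre {((k + 1, 2), 0)}ᶜ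

def S_VE : Prop := ∀ (G : Type) [Group G] (k s : ℕ) (Y : Md k G), s ≤ k + 1 → ∀ x ∈ Y.Γ (Iic (k + 2)),
  Av (Y.ψ x.1 (lb (k + 1, 0))) s → kp k x.2.left ∈ GS (Ioi s)

def S_VA : Prop := ∀ (G : Type) [Group G] (k s t : ℕ) (Y : Md k G), s ≤ k → t ≤ k →
  ∀ x ∈ Y.Γ (Iic (k + 2)), Av (Y.ψ x.1 (lb (t, 0))) s →
    if t ≤ s then kp k (x.2.right (Cw 0 (t + 1))) ∈ GS (Iio (s + 1))
    else kp k (x.2.right (Cw 0 (t + 1)) * (Cw 0 (t + 1))⁻¹) ∈ GS (Ici (s + 1))

def S_VH : Prop := ∀ (G : Type) [Group G] (k : ℕ) (Y : Md k G), ∀ x ∈ Y.Γ (Iic (k + 2)),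
  (Y.ψ x.1 (lb (k, 0)) ∈ Fre {((k + 1, 2), 0)}ᶜ →
    Zf k (x.2.right (Cw 0 (k + 1)) * xx (k + 4) ^ (k + 1))) ∧
  (Y.ψ x.1 (lb (k, 3)) ∈ Fre {((k + 1, 2), 0)}ᶜ →
    Zf k (xx (k + 4) ^ k * (x.2.right (Cw 0 (k + 1)))⁻¹ * xx (k + 4)))

/-- Detection in type `D`, without the pair of the two forks. -/
structure Det [Group G] {k : ℕ} (Y : Md k G) (a : G) : Prop where
  e : ∀ s ≤ k + 1, Av (Y.ψ a (lb (k + 1, 0))) s → Dd Y.g (Iic (k + 2) \ {s}) (Iic (k + 2) \ {k + 1}) a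
  et : ∀ s ≤ k, ∀ t ≤ k, Av (Y.ψ a (lb (k + 1, 0))) s → Av (Y.ψ a (lb (t, 0))) s →
    Dd Y.g (Iic (k + 2) \ {s}) (Iic (k + 2) \ {t, k + 1}) a
  h : Av (Y.ψ a (lb (k, 0))) (k + 1) → Av (Y.ψ a (lb (k, 3))) (k + 1) →
    Dd Y.g (Iic (k + 2) \ {k + 1}) (Iic (k + 2) \ {k}) a
  ht : ∀ s ≤ k, Av (Y.ψ a (lb (k, 0))) (k + 1) → Av (Y.ψ a (lb (k, 3))) (k + 1) →
    Av (Y.ψ a (lb (k, 0))) s → Dd Y.g (Iic (k + 2) \ {s, k + 1}) (Iic (k + 2) \ {k}) a
  c : Av (Y.ψ a (lb (k, 0))) k → Av (Y.ψ a (lb (k, 3))) k → a ∈ Pr Y.g (Iic (k + 2) \ {k})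

def S_DT : Prop := ∀ (G : Type) [Group G] (k : ℕ) (Y : Md k G), ∀ a ∈ Pr Y.g (Iic (k + 2)), Det Y a

/-! From the model to the plumbing. -/

/-- A component of the plumbing graph of type `D`. -/
structure Cp (m : V → V → ℕ) (n : ℕ) (lv : V → V → Equiv.Perm ℕ) (Λ : Set V) (k : ℕ) where
  cp : ℕ → V × ℕ
  inj : InjOn cp (Iic (k + 2))
  col : ∀ i ≤ k + 2, (cp i).1 ∈ Λ ∧ (cp i).2 < n
  adj : ∀ j, 0 < j → j ≤ k + 2 → Aj m n lv (cp (up k j)) (cp j)
  nx : ∀ i ≤ k + 2, ∀ q, q.1 ∈ Λ → Aj m n lv (cp i) q → ∃ j, 0 < j ∧ j ≤ k + 2 ∧ up k j = i ∧ q = cp j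
  pv : ∀ i ≤ k + 2, ∀ q, q.1 ∈ Λ → Aj m n lv q (cp i) → 0 < i ∧ q = cp (up k i)

open Classical in
/-- The product of the generators with a given colour. -/
noncomputable def tv [Group G] (g : ℕ → G) (k : ℕ) (c : ℕ → V) (v : V) : G :=
  pr (fun i => if c i = v then g i else 1) (k + 3)

def S_DM : Prop := ∀ (V : Type) [Finite V] (m : V → V → ℕ) (n : ℕ) (lv : V → V → Equiv.Perm ℕ)
  (Λ : Set V) (k : ℕ) (C : Cp m n lv Λ k), (∀ s t, m s t = m t s) →
  (∀ s t, s ≠ t → m s t ≠ 0 → m s t - 1 ∣ n) → (∀ s t i, lv s t i < n ↔ i < n) → ∀ s ∈ Λ, ∀ t ∈ Λ,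
    (∀ x ∈ closure ((fun v => ((PresentedGroup.of v : Art m), tv (tw k) k (fun i => (C.cp i).1) v)) '' Λ),
      (∀ i ≤ k + 2, ∀ j ≤ k + 2, (C.cp i).1 = t → (C.cp j).1 = s →
        Av (x.2 (lb (i, 0))) j ∧ Av (x.2 (lb (i, 3))) j) → DC m (Λ \ {s}) (Λ \ {t}) x.1) →
    Dc m Λ {s} {t}

/-! Positive words in type `D6` and the folding. -/

def mD (i j : Fin 6) : ℕ :=
  if (j.1 = i.1 + 1 ∧ j.1 < 5) ∨ (i.1 = j.1 + 1 ∧ i.1 < 5) ∨ (i = 3 ∧ j = 5) ∨ (i = 5 ∧ j = 3) then 3 else 2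

def ev6 (l : List (Fin 6)) : Art mD := (l.map PresentedGroup.of).prod

/-- Word reversing: `rv θ f u v = some (v', u')` describes the common multiple `u v' = v u'`. -/
def rv {α : Type} (θ : α → α → List α) : ℕ → List α → List α → Option (List α × List α)
  | _, [], v => some (v, [])
  | _, s :: u, [] => some ([], s :: u)
  | 0, _ :: _, _ :: _ => none
  | f + 1, s :: u, t :: v => (rv θ f u (θ s t)).bind fun a => (rv θ f (θ t s) v).bind fun c =>
      (rv θ f a.2 c.1).map fun e => (a.1 ++ e.1, c.2 ++ e.2)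

theorem rv_sound {α M : Type} [Monoid M] (e : α → M) {θ : α → α → List α}
    (h : ∀ s t, e s * ((θ s t).map e).prod = e t * ((θ t s).map e).prod) (f : ℕ) :
    ∀ {u v a}, rv θ f u v = some a →
      (u.map e).prod * (a.1.map e).prod = (v.map e).prod * (a.2.map e).prod := by
  induction f with
  | zero => rintro (_ | _) (_ | _) a e <;> cases e <;> simp
  | succ f ih =>
    rintro (_ | ⟨s, u⟩) (_ | ⟨t, v⟩) a e
    iterate 3 cases e; simp
    simp only [rv, Option.bind_eq_some_iff, Option.map_eq_some_iff] at e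
    obtain ⟨x, a, y, b, z, c, rfl⟩ := e
    simp only [List.map_cons, List.prod_cons, List.map_append, List.prod_append]
    rw [mul_assoc, ← mul_assoc _ _ (List.prod _), ih a, mul_assoc, ih c, ← mul_assoc, ← mul_assoc, h,
      mul_assoc (e t), ih b]
    simp only [mul_assoc]

def θD (s t : Fin 6) : List (Fin 6) := if s = t then [] else if mD s t = 2 then [t] else [t, s]

/-- The word `u ++ v'` is a least common right multiple of `u` and `v`. -/
def Lcm (u v v' u' : List (Fin 6)) : Prop := ev6 u * ev6 v' = ev6 v * ev6 u' ∧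
  ∀ U W, ev6 u * ev6 U = ev6 v * ev6 W → ∃ Z, ev6 U = ev6 v' * ev6 Z ∧ ev6 W = ev6 u' * ev6 Z

def S_GA : Prop := (∀ f u v a, rv θD f u v = some a → Lcm u v a.1 a.2) ∧
  (∀ u v, ∃ v' u', Lcm u v v' u' ∧ ∀ x, x ∈ v' ∨ x ∈ u' → x ∈ u ∨ x ∈ v) ∧
  (∀ l l', ev6 l = ev6 l' → l.length = l'.length ∧ ∀ x ∈ l, x ∈ l') ∧
  ∀ g : Art mD, ∃ z l, Commute (ev6 z) g ∧ (∀ u, Commute (ev6 z) (ev6 u)) ∧ g * ev6 z = ev6 l

def cl6 : Fin 6 → Fin 3 := ![0, 1, 2, 1, 0, 2]

def S_FO : Prop := ∀ (Γ : Type) [Group Γ] (r : Fin 3 → Γ) (φ : Γ →* Art mD),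
  r 0 * r 1 * r 0 = r 1 * r 0 * r 1 → Commute (r 0) (r 2) →
  r 1 * r 2 * r 1 * r 2 * r 1 = r 2 * r 1 * r 2 * r 1 * r 2 →
  φ (r 0) = ev6 [0, 4] → φ (r 1) = ev6 [1, 3] → φ (r 2) = ev6 [2, 5] → ∀ (s : Fin 3) (j : Fin 6),
    ∀ g ∈ closure (range r), DC mD {i | cl6 i ≠ s} {j}ᶜ (φ g) →
      ∃ p ∈ closure (r '' {s}ᶜ), ∃ q ∈ closure (r '' {cl6 j}ᶜ), g = p * q

def S_H3 : Prop := ∀ (V : Type) [Finite V] (m : V → V → ℕ) (a b c : V), (∀ s t, m s t = m t s) →
  (∀ s t, s ≠ t → m s t ≠ 1) → a ≠ b → b ≠ c → a ≠ c → m a b = 3 → m b c = 5 → m a c = 2 →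
    ∀ s ∈ ({a, b, c} : Set V), ∀ t ∈ ({a, b, c} : Set V), Dc m {a, b, c} {s} {t}

def S_D4 : Prop := ∀ (V : Type) [Finite V] (m : V → V → ℕ) (o a b c : V), (∀ s t, m s t = m t s) →
  (∀ s t, s ≠ t → m s t ≠ 1) → o ≠ a → o ≠ b → o ≠ c → a ≠ b → b ≠ c → a ≠ c → m o a = 3 →
    m o b = 3 → m o c = 3 → m a b = 2 → m b c = 2 → m a c = 2 →
      ∀ s ∈ ({o, a, b, c} : Set V), ∀ t ∈ ({o, a, b, c} : Set V), Dc m {o, a, b, c} {s} {t}

end Pool.Agent.MP_6eaae3_al.DN

end MrgPart0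

-- ======== part 1: formerly Pool.Agent.MP_6eaae3_al.DN.De
section MrgPart1

/-! The algebra of the point pushes in type `D`. -/

namespace Pool.Agent.MP_6eaae3_al.DN

open Set Cl Subgroup

namespace De

variable {G : Type} [Group G] {k : ℕ} {g : ℕ → G}

/-- The relation between a generator and the next push. -/
def Rr (x q : G) : Prop := x * q * x⁻¹ = q * (x⁻¹ * q * x)⁻¹ * q

theorem Rr.conj {x q : G} (h : Rr x q) (c : G) : Rr (c * x * c⁻¹) (c * q * c⁻¹) := by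
  unfold Rr at *
  calc _ = c * (x * q * x⁻¹) * c⁻¹ := by group
    _ = _ := by rw [h]; group

theorem Rr.two {x q : G} (h : Rr x q) :
    x⁻¹ * (x⁻¹ * q * x) * x = (x⁻¹ * q * x) * q⁻¹ * (x⁻¹ * q * x) := by
  unfold Rr at h
  calc _ = x⁻¹ * (q * (q * (x⁻¹ * q * x)⁻¹ * q)⁻¹ * q) * x := by group
    _ = _ := by rw [← h]; group

theorem br {t a : G} (h : t * a * t = a * t * a) : a⁻¹ * t * a = t * a * t⁻¹ := by
  calc _ = a⁻¹ * (t * a * t) * t⁻¹ := by group
    _ = _ := by rw [h]; group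

theorem r3 {t a c : G} (ha : t * a * t = a * t * a) (hc : t * c * t = c * t * c)
    (h : Commute a c) : Rr t (a * c⁻¹) := by
  have e := h.inv_right.eq
  unfold Rr
  symm
  calc _ = a * (c⁻¹ * t * c)⁻¹ * (a⁻¹ * t * a) * c⁻¹ := by group
    _ = a * t * (c⁻¹ * a) * t⁻¹ * c⁻¹ := by rw [br ha, br hc]; group
    _ = a * t * a * (c * t * c)⁻¹ := by rw [← e]; group
    _ = _ := by rw [← ha, ← hc]; group

theorem f3 {t a c : G} (ha : t * a * t = a * t * a) (hc : t * c * t = c * t * c)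
    (h : Commute a c) : c * (t⁻¹ * (a * c⁻¹) * t) * c⁻¹ = t⁻¹ * (a * c⁻¹) * t * (a * c⁻¹) := by
  have e := h.inv_right.eq
  calc _ = t⁻¹ * (t * c * t⁻¹) * (a * c⁻¹) * t * c⁻¹ := by group
    _ = t⁻¹ * c⁻¹ * t * (c * (c⁻¹ * a)) * t * c⁻¹ := by rw [← br hc, e]; group
    _ = t⁻¹ * c⁻¹ * (t * a * t) * c⁻¹ := by group
    _ = t⁻¹ * (c⁻¹ * a) * t * (a * c⁻¹) := by rw [ha]; group
    _ = _ := by rw [← e]

theorem dn {p : ℕ → Prop} {a b : ℕ} (h : p b) (s : ∀ i, a ≤ i → i < b → p (i + 1) → p i) :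
    ∀ i, a ≤ i → i ≤ b → p i := fun i u v =>
  Nat.decreasingInduction' (P := fun i => a ≤ i → p i)
    (fun j v' _ ih u' => s j u' v' (ih (by omega))) v (fun _ => h) u

theorem cm (h : DRel k g) {i j : ℕ} (u : i + 1 < j) (v : j ≤ k + 2) (w : i ≠ k) :
    Commute (g i) (g j) := h.comm i j (by omega) v (by unfold up; omega)

theorem bt (h : DRel k g) {j : ℕ} (v : j + 1 ≤ k) :
    g j * g (j + 1) * g j = g (j + 1) * g j * g (j + 1) := by
  have := h.braid (j + 1) (by omega) (by omega)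
  rwa [show up k (j + 1) = j by unfold up; omega] at this

theorem bf (h : DRel k g) {j : ℕ} (u : k < j) (v : j ≤ k + 2) :
    g k * g j * g k = g j * g k * g j := by
  have := h.braid j (by omega) v
  rwa [show up k j = k by unfold up; omega] at this

theorem ff (h : DRel k g) : Commute (g (k + 1)) (g (k + 2)) :=
  h.comm _ _ (by omega) le_rfl (by unfold up; omega)

theorem hi (h : DRel k g) {j : ℕ} (u : j < k) :
    ∀ i, j + 2 ≤ i → i ≤ k + 1 → Commute (g j) (pu g k i) := by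
  refine dn ?_ fun i a b ih => ?_
  · rw [pu_top]
    exact (cm h (by omega) (by omega) u.ne).mul_right (cm h (by omega) le_rfl u.ne).inv_right
  · have := cm h (i := j) (j := i) (by omega) (by omega) u.ne
    rw [pu_succ g (by omega)]
    exact (this.inv_right.mul_right ih).mul_right this

theorem lo (h : DRel k g) {j : ℕ} (u : j + 1 ≤ k) :
    ∀ i, 0 ≤ i → i ≤ j → Commute (g (j + 1)) (pu g k i) := by
  refine dn ?_ fun i _ b ih => ?_
  · have c := (hi h (j := j) u (j + 1 + 1) le_rfl (by omega)).eq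
    have b := bt h u
    rw [pu_succ g (by omega), pu_succ g u]
    generalize g j = x at *
    generalize g (j + 1) = y at *
    generalize pu g k (j + 1 + 1) = q at *
    show _ = _
    calc _ = x⁻¹ * (x * y * x⁻¹) * y⁻¹ * q * (y * x) := by group
      _ = x⁻¹ * y⁻¹ * (x * q) * (y * x) := by rw [← br b]; group
      _ = x⁻¹ * y⁻¹ * q * (x * y * x) := by rw [c]; group
      _ = _ := by rw [b]; group
  · have := (cm h (i := i) (j := j + 1) (by omega) (by omega) (by omega)).symm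
    rw [pu_succ g (by omega)]
    exact (this.inv_right.mul_right ih).mul_right this

theorem rr (h : DRel k g) : ∀ j, 0 ≤ j → j ≤ k → Rr (g j) (pu g k (j + 1)) := by
  refine dn ?_ fun j _ b ih => ?_
  · rw [pu_top]
    exact r3 (bf h (by omega) (by omega)) (bf h (by omega) le_rfl) (ff h)
  · have c := (hi h (j := j) b (j + 1 + 1) le_rfl (by omega)).eq
    have e := bt h b
    have := ih.conj ((g (j + 1))⁻¹ * (g j)⁻¹)
    rw [pu_succ g b]
    generalize g j = x at *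
    generalize g (j + 1) = y at *
    generalize pu g k (j + 1 + 1) = q at *
    have e1 : y⁻¹ * x⁻¹ * y * (y⁻¹ * x⁻¹)⁻¹ = x := by
      calc _ = y⁻¹ * x⁻¹ * (y * x * y) := by group
        _ = _ := by rw [← e]; group
    have e2 : y⁻¹ * x⁻¹ * q * (y⁻¹ * x⁻¹)⁻¹ = y⁻¹ * q * y := by
      calc _ = y⁻¹ * x⁻¹ * (q * x) * y := by group
        _ = _ := by rw [← c]; group
    rwa [e1, e2] at this

theorem fk (h : DRel k g) : ∀ i, 0 ≤ i → i ≤ k →
    g (k + 2) * pu g k i * (g (k + 2))⁻¹ = pu g k i * pu g k (k + 1) := by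
  refine dn ?_ fun i _ b ih => ?_
  · rw [pu_succ g le_rfl, pu_top]
    exact f3 (bf h (by omega) (by omega)) (bf h (by omega) le_rfl) (ff h)
  · have c := (cm h (i := i) (j := k + 2) (by omega) le_rfl b.ne).eq
    have d := (hi h b (k + 1) (by omega) le_rfl).eq
    rw [pu_succ g b.le]
    generalize g i = x at *
    generalize g (k + 2) = y at *
    calc _ = (x * y)⁻¹ * (x * y) * y * x⁻¹ * pu g k (i + 1) * (x * y) * y⁻¹ * y⁻¹ := by group
      _ = x⁻¹ * (y * pu g k (i + 1) * y⁻¹) * x := by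
        have e : y * x⁻¹ = x⁻¹ * y := by
          calc _ = x⁻¹ * (x * y) * x⁻¹ := by group
            _ = _ := by rw [c]; group
        have e' : x * y⁻¹ = y⁻¹ * x := by
          calc _ = y⁻¹ * (y * x) * y⁻¹ := by group
            _ = _ := by rw [← c]; group
        calc _ = (y * x⁻¹) * pu g k (i + 1) * (x * y⁻¹) := by group
          _ = _ := by rw [e, e']; group
      _ = x⁻¹ * pu g k (i + 1) * (pu g k (k + 1) * x) := by rw [ih]; group
      _ = _ := by rw [← d]; group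

/-- The automorphisms that are invisible after the puncture is filled. -/
def Fk (k : ℕ) : Subgroup (MulAut Gm) where
  carrier := {φ | ∀ w, kp k (φ w) = kp k w}
  mul_mem' a b w := by rw [MulAut.mul_apply, a, b]
  one_mem' _ := rfl
  inv_mem' {φ} a w := by rw [← a, MulAut.apply_inv_self]

theorem kp_in {i : ℕ} (h : i < k + 3) : kp k (xx i) = xx i := pj_in h
theorem kp_out {i : ℕ} (h : ¬ i < k + 3) : kp k (xx i) = 1 := pj_out h

theorem kp_sg {i : ℕ} (h : i ≤ k + 1) (w : Gm) : kp k (sg i w) = sg i (kp k w) :=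
  DFunLike.congr_fun (hom_ext (φ := (kp k).comp (sg i).toMonoidHom)
    (φ' := (sg i).toMonoidHom.comp (kp k)) fun j => by
    have u := kp_in (k := k) (i := i) (by omega)
    have v := kp_in (k := k) (i := i + 1) (by omega)
    show kp k (sg i _) = sg i (kp k _)
    by_cases e : j < k + 3
    · rw [kp_in e, sg_xx]
      split_ifs <;> simp [u, v, kp_in e]
    · rw [kp_out e, sg_xx, if_neg (by omega), if_neg (by omega), kp_out e, map_one]) w

theorem fk_conj {i : ℕ} (h : i ≤ k + 1) {φ : MulAut Gm} (a : φ ∈ Fk k) :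
    sg i * φ * (sg i)⁻¹ ∈ Fk k ∧ (sg i)⁻¹ * φ * sg i ∈ Fk k := by
  refine ⟨fun w => ?_, fun w => (sg i).injective ?_⟩
  · rw [MulAut.mul_apply, MulAut.mul_apply, kp_sg h, a, ← kp_sg h, MulAut.apply_inv_self]
  · rw [MulAut.mul_apply, MulAut.mul_apply, ← kp_sg h, MulAut.apply_inv_self, a, kp_sg h]

theorem fk_sq : sg (k + 2) ^ 2 ∈ Fk k := fun w =>
  DFunLike.congr_fun (hom_ext (φ := (kp k).comp (sg (k + 2) ^ 2).toMonoidHom) (φ' := kp k) fun j => by
    have u := kp_in (k := k) (i := k + 2) (by omega)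
    have v := kp_out (k := k) (i := k + 2 + 1) (by omega)
    show kp k ((sg (k + 2) ^ 2) _) = _
    rw [sq_xx]
    split_ifs with e
    · rcases e with rfl | rfl <;> simp [u, v]
    · rfl) w

theorem pu_rs : ∀ i, 0 ≤ i → i ≤ k + 1 → (pu (rs k) k i).right ∈ Fk k ∧
    (pu (rs k) k i).left = xx i * xx (k + 3) * xx (k + 2) * xx (k + 3) := by
  refine dn ?_ fun i _ b ih => ?_
  · rw [pu_top, rs, rs, if_neg (by omega), if_pos rfl, if_neg (by omega), if_neg (by omega)]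
    refine ⟨?_, by simp only [SemidirectProduct.mul_left, SemidirectProduct.inv_left, inv_one,
      map_one, mul_one]⟩
    have := mul_mem fk_sq (fk_conj le_rfl (inv_mem (fk_sq (k := k)))).1
    simpa only [mul_assoc, SemidirectProduct.mul_right, SemidirectProduct.inv_right] using this
  · rw [pu_succ _ (by omega), rs, if_pos (by omega)]
    refine ⟨by simpa using (fk_conj (by omega) ih.1).2, ?_⟩
    have u : ∀ j, i + 1 < j → (sg i)⁻¹ (xx j) = xx j := fun j e => by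
      rw [sg_inv_xx, if_neg (by omega), if_neg (by omega)]
    have v : (sg i)⁻¹ (xx (i + 1)) = xx i := by rw [sg_inv_xx, if_neg (by omega), if_pos rfl]
    have u2 := u (k + 2) (by omega)
    have u3 := u (k + 3) (by omega)
    simp only [SemidirectProduct.mul_left, SemidirectProduct.inv_left, SemidirectProduct.inv_right,
      MonoidHom.id_apply, inv_one, map_one, one_mul, mul_one, ih.2, map_mul, u2, u3, v]

/-- The involution of a push. -/
def iv (p : G) : Equiv.Perm (G × Bool) :=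
  Function.Involutive.toPerm (fun q => (if q.2 then p⁻¹ * q.1 else p * q.1, !q.2)) (by
    rintro ⟨y, _ | _⟩ <;> simp)

/-- The permutations that move the first entry by `K`. -/
def Mv (K : Subgroup G) : Subgroup (Equiv.Perm (G × Bool)) where
  carrier := {π | ∀ q, (π q).1 * q.1⁻¹ ∈ K}
  mul_mem' {π ρ} a b q := by simpa [mul_assoc] using mul_mem (a (ρ q)) (b q)
  one_mem' q := by simp
  inv_mem' {π} a q := by simpa using inv_mem (a (π⁻¹ q))

end De

open De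

theorem de : S_DE := by
  intro G _ k g h a ha
  have mS : ∀ i ≤ k + 1, pu g k i ∈ closure (pu g k '' Iic (k + 1)) :=
    fun i u => subset_closure ⟨i, u, rfl⟩
  refine decomp ?_ ((closure_le _).2 ?_ ha)
  · rintro _ ⟨j, ⟨u, v⟩, rfl⟩ _ ⟨i, w, rfl⟩
    rw [mem_Iic] at u w
    rw [mem_singleton_iff] at v
    by_cases e : j = k + 2
    · subst e
      rcases w.eq_or_lt with rfl | w
      · refine Nr.comm ?_ (mS _ le_rfl)
        rw [pu_top]
        exact (ff h).symm.mul_right (Commute.refl _).inv_right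
      · have f := fk h i (by omega) (by omega)
        have c : g (k + 2) * pu g k (k + 1) = pu g k (k + 1) * g (k + 2) := by
          rw [pu_top]
          exact ((ff h).symm.mul_right (Commute.refl _).inv_right).eq
        refine ⟨f ▸ mul_mem (mS i w.le) (mS _ le_rfl), ?_⟩
        have : (g (k + 2))⁻¹ * pu g k i * g (k + 2) = pu g k i * (pu g k (k + 1))⁻¹ := by
          calc _ = (g (k + 2))⁻¹ * (pu g k i * pu g k (k + 1)) * (pu g k (k + 1))⁻¹ * g (k + 2) := by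
                group
            _ = pu g k i * (pu g k (k + 1) * g (k + 2))⁻¹ * g (k + 2) := by rw [← f]; group
            _ = _ := by rw [← c]; group
        exact this ▸ mul_mem (mS i w.le) (inv_mem (mS _ le_rfl))
    have jk : j ≤ k := by omega
    have r := rr h j (by omega) jk
    have p := pu_succ g jk
    have m0 := mS j (by omega)
    have m1 := mS (j + 1) (by omega)
    rcases lt_trichotomy i j with l | rfl | l
    · obtain ⟨j, rfl⟩ : ∃ j', j = j' + 1 := ⟨j - 1, by omega⟩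
      exact Nr.comm (lo h jk i (by omega) (by omega)) (mS i w)
    · refine ⟨by rw [p]; simpa [mul_assoc] using m1, ?_⟩
      have := r.two
      rw [← p] at this
      exact this ▸ mul_mem (mul_mem m0 (inv_mem m1)) m0
    · rcases (show j + 1 ≤ i from l).eq_or_lt with rfl | l
      · refine ⟨?_, p ▸ m0⟩
        unfold Rr at r
        rw [← p] at r
        exact r ▸ mul_mem (mul_mem m1 (inv_mem m0)) m1
      · exact Nr.comm (hi h (by omega) i l w) (mS i w)
  · rintro _ ⟨j, u, rfl⟩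
    by_cases e : j = k + 1
    · have : g (k + 1) = pu g k (k + 1) * g (k + 2) := by rw [pu_top, inv_mul_cancel_right]
      rw [e, this]
      exact mul_mem (subset_closure (Or.inl ⟨_, mem_Iic.2 le_rfl, rfl⟩))
        (subset_closure (Or.inr ⟨_, ⟨mem_Iic.2 le_rfl, by simp⟩, rfl⟩))
    · exact subset_closure (Or.inr ⟨j, ⟨u, e⟩, rfl⟩)

theorem th : S_TH := by
  intro G _ k s g x hx hs
  let p : ℕ → G := fun i => if i ≤ k + 1 then pu g k i else 1
  let θ : Gm →* Equiv.Perm (G × Bool) := lft (fun i => iv (p i)) fun i =>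
    Equiv.ext fun q => (iv (p i)).left_inv q
  have key : x.2.right ∈ Fk k ∧ ∀ y, θ (kp k x.2.left) (y, true) = (x.1 * y, true) := by
    clear hs
    induction hx using closure_induction with
    | mem x hx =>
      obtain ⟨i, u, rfl⟩ := hx
      have := pu_rs (k := k) i (by omega) u
      refine ⟨this.1, fun y => ?_⟩
      rw [mem_Iic] at u
      simp [this.2, kp_in (show i < k + 3 by omega), kp_in (show k + 2 < k + 3 by omega),
        kp_out (lt_irrefl (k + 3)), θ, iv, p, u]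
    | one => exact ⟨one_mem _, fun y => by simp⟩
    | mul x z _ _ a b =>
      refine ⟨mul_mem a.1 b.1, fun y => ?_⟩
      have : (x * z).2.left = x.2.left * x.2.right z.2.left := rfl
      rw [this, map_mul, a.1, map_mul, Equiv.Perm.mul_apply, b.2, a.2, Prod.fst_mul, mul_assoc]
    | inv x _ a =>
      refine ⟨inv_mem a.1, fun y => ?_⟩
      have : x⁻¹.2.left = x.2.right⁻¹ x.2.left⁻¹ := rfl
      rw [this, inv_mem a.1, map_inv, map_inv, Equiv.Perm.inv_eq_iff_eq, a.2, Prod.fst_inv,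
        mul_inv_cancel_left]
  have := GS.map θ (K := Mv (Pr (pu g k) (Ioc s (k + 1)))) (fun i hi q => by
    have m : p i ∈ Pr (pu g k) (Ioc s (k + 1)) := by
      simp only [p]
      split_ifs with e
      exacts [subset_closure ⟨i, ⟨hi, e⟩, rfl⟩, one_mem _]
    obtain ⟨y, _ | _⟩ := q <;> simp [θ, iv, m]) hs (1, true)
  simpa [key.2] using this

end Pool.Agent.MP_6eaae3_al.DN

end MrgPart1

-- ======== part 2: formerly Pool.Agent.MP_6eaae3_al.DN.Dm
section MrgPart2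

/-! From the model of type `D` to the plumbing. -/

namespace Pool.Agent.MP_6eaae3_al.DN

open FreeGroup (of)
open Set Cl Subgroup

namespace Dm

def Ok (k : ℕ) : Set (ℕ × ℕ) := {μ | μ.1 ≤ k + 2 ∧ (μ.2 < 4 ∨ (μ.2 = 4 ∧ 0 < μ.1))}

/-- The curve that holds a cell. -/
def ow (k : ℕ) (μ : ℕ × ℕ) (b : Bool) : ℕ := if b = false ∧ μ.2 = 4 then up k μ.1 else μ.1

theorem ow_le {k : ℕ} {μ : ℕ × ℕ} (h : μ ∈ Ok k) (b : Bool) : ow k μ b ≤ k + 2 := by
  have := h.1
  unfold ow up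
  split_ifs <;> omega

theorem mem_cells {k i : ℕ} (hi : i ≤ k + 2) (μ : ℕ × ℕ) (b : Bool) :
    (μ, b) ∈ cells k i ↔ μ ∈ Ok k ∧ i = ow k μ b ∧ (b = true → μ.2 = 4) := by
  obtain ⟨x, y⟩ := μ
  unfold cells
  cases b <;> split_ifs <;> simp [Ok, ow, up] <;> (try split_ifs) <;> omega

variable {V : Type} {m : V → V → ℕ} {n : ℕ} {lv : V → V → Equiv.Perm ℕ} {Λ : Set V} {k : ℕ}
  (C : Cp m n lv Λ k) (lo : ℕ)

def em (μ : ℕ × ℕ) : Nm V :=
  if μ.2 = 4 then cr lo (C.cp (up k μ.1)) (C.cp μ.1) else cr lo (C.cp μ.1) ((C.cp μ.1).1, μ.2)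

theorem em_inj : InjOn (em C lo) (Ok k) := by
  rintro ⟨i, j⟩ ⟨h1, h2⟩ ⟨i', j'⟩ ⟨h3, h4⟩ e
  simp only at h1 h2 h3 h4
  simp only [em] at e
  split_ifs at e with a b b <;> simp only [cr, Prod.mk.injEq, Option.some.injEq, Sum.inl.injEq,
    true_and] at e
  · rw [C.inj h1 h3 e.2, a, b]
  · exact ((C.adj i (by omega) h1).1 (by rw [e.1, e.2])).elim
  · exact ((C.adj i' (by omega) h3).1 (by rw [← e.1, ← e.2])).elim
  · rw [C.inj h1 h3 e.1, e.2.2]

open Classical in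
noncomputable def pi : FL (Nm V) →* FL (ℕ × ℕ) := FreeGroup.lift fun y =>
  if y.1 ∈ em C lo '' Ok k then of (Function.invFunOn (em C lo) (Ok k) y.1, y.2) else 1

variable {C lo}

theorem pi_em {μ : ℕ × ℕ} (h : μ ∈ Ok k) (d : Fin 4) : pi C lo (of (em C lo μ, d)) = of (μ, d) := by
  rw [pi, FreeGroup.lift_apply_of, if_pos ⟨μ, h, rfl⟩, (em_inj C lo).leftInvOn_invFunOn h]

theorem pi_not {y : Nm V × Fin 4} (h : y.1 ∉ em C lo '' Ok k) : pi C lo (of y) = 1 := by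
  rw [pi, FreeGroup.lift_apply_of, if_neg h]

theorem pi_av {μ : ℕ × ℕ} {w : FL (Nm V)} (h : w ∈ Fre {(em C lo μ, 0)}ᶜ) :
    pi C lo w ∈ Fre {(μ, 0)}ᶜ := by
  refine Fre.map_mem _ (fun y hy => ?_) h
  by_cases q : y.1 ∈ em C lo '' Ok k
  · obtain ⟨ν, d⟩ := y
    obtain ⟨μ', a, rfl⟩ := q
    rw [pi_em a]
    exact of_mem_Fre fun e => hy (by cases e; rfl)
  · rw [pi_not q]; exact one_mem _

theorem pi_io {p : (ℕ × ℕ) × Bool} (h : p.1 ∈ Ok k) :
    pi C lo (inl (Prod.map (em C lo) id p)) = inl p ∧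
      pi C lo (out true (Prod.map (em C lo) id p)) = out true p := by
  obtain ⟨μ, _ | _⟩ := p <;> simp [inl, out, ld, lb, lt, pi_em h]

theorem pi_pth {l : List ((ℕ × ℕ) × Bool)} (h : ∀ p ∈ l, p.1 ∈ Ok k) :
    pi C lo (pth true (l.map (Prod.map (em C lo) id))) = pth true l := by
  induction l with
  | nil => simp
  | cons p l ih =>
    have := pi_io (C := C) (lo := lo) (h p List.mem_cons_self)
    rw [List.map_cons, pth_cons, map_mul, map_mul, this.1, this.2,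
      ih fun q hq => h q (List.mem_cons_of_mem _ hq), pth_cons]

variable (B : Bs m n lo lv)

theorem mem_em {μ : ℕ × ℕ} (h : μ ∈ Ok k) (b : Bool) (p : V × ℕ) :
    (em C lo μ, b) ∈ (B.A p).cells ↔ p = C.cp (ow k μ b) ∧ (b = true → μ.2 = 4) := by
  by_cases a : μ.2 = 4
  · have := C.adj μ.1 (by have := h.2; omega) h.1
    cases b <;> simp [em, ow, a, B.f_cr, B.t_cr, this]
  · have : μ.2 < 4 := by have := h.2; omega
    cases b <;> simp [em, ow, a, B.f_cr, B.t_cr, this, Aj]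

theorem pi_ell (ord : ∀ i ≤ k + 2, ∃ r, (B.A (C.cp i)).cells =
      (cells k i).map (Prod.map (em C lo) id) ++ r) {i : ℕ} (hi : i ≤ k + 2) {p : (ℕ × ℕ) × Bool}
    (h : p ∈ cells k i) :
    pi C lo ((B.A (C.cp i)).ell true (Prod.map (em C lo) id p)) = (cv k i).ell true p := by
  obtain ⟨ρ, e⟩ := ord i hi
  have ok : ∀ q ∈ cells k i, q.1 ∈ Ok k := fun q hq => ((mem_cells hi q.1 q.2).1 hq).1
  have r0 : pi C lo (pth true ρ) = 1 := pth_mem (K := (pi C lo).ker) fun c hc => by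
    have nc : c.1 ∉ em C lo '' Ok k := by
      obtain ⟨ν, b⟩ := c
      rintro ⟨μ, a, rfl⟩
      have u := (mem_em B a b _).1 (e ▸ List.mem_append_right _ hc)
      exact List.disjoint_of_nodup_append (e ▸ (B.A _).nodup) (List.mem_map.2 ⟨(μ, b),
        (mem_cells hi μ b).2 ⟨a, C.inj hi (ow_le a b) u.1, u.2⟩, rfl⟩) hc
    obtain ⟨ν, _ | _⟩ := c
    · exact ⟨one_mem _, pi_not nc⟩
    · exact ⟨inv_mem (pi_not (y := (ν, 1)) nc), pi_not nc⟩
  obtain ⟨l, l', e'⟩ := List.append_of_mem h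
  have io := pi_io (C := C) (lo := lo) (ok p h)
  rw [Rec.ell_eq _ (l := l.map (Prod.map (em C lo) id)) (l' := l'.map (Prod.map (em C lo) id) ++ ρ)
    (by simp [e, e']), Rec.ell_eq (A := cv k i) _ e', pth_append]
  simp only [map_mul, io.1, io.2, r0, mul_one]
  rw [pi_pth fun q hq => ok q (by simp [e', hq]), pi_pth fun q hq => ok q (by simp [e', hq])]

include B in
theorem tv_on {i : ℕ} (hi : i ≤ k + 2) {x : (ℕ × ℕ) × Fin 4} (hx : x.1 ∈ (cv k i).slots) :
    tv (tw k) k (fun i => (C.cp i).1) (C.cp i).1 (of x) = tw k i (of x) := by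
  unfold tv
  rw [pr_apply (i₀ := i) (by omega), if_pos rfl]
  intro j hj ne
  rw [if_pos rfl]
  split_ifs with q
  swap
  · exact ⟨rfl, rfl⟩
  have sl : ∀ i ≤ k + 2, ∀ μ ∈ (cv k i).slots, em C lo μ ∈ (B.A (C.cp i)).slots := by
    rintro i hi μ ⟨b, u⟩
    have := (mem_cells hi μ b).1 u
    exact ⟨b, (mem_em B this.1 b _).2 ⟨by rw [this.2.1], this.2.2⟩⟩
  have d : (cv k i).Dis (cv k j) := fun μ u v =>
    B.dis (fun e => ne (C.inj hi (show j ≤ k + 2 by omega) e).symm) (fun e => e.1 q.symm)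
      (fun e => e.1 q) _ (sl i hi μ u) (sl j (by omega) μ v)
  refine ⟨Rec.tau_not (d _ hx), ?_⟩
  unfold tw
  rw [Rec.tau_of, map_mul, map_mul, Rec.tau_not (d _ hx), d.fix _ _ (Rec.lf_mem _ _ _),
    d.fix _ _ (Rec.rg_mem _ _ _)]

theorem tv_fix {v : V} {y : FL (ℕ × ℕ)} (h : ∀ i ≤ k + 2, (C.cp i).1 = v → tw k i y = y) :
    tv (tw k) k (fun i => (C.cp i).1) v y = y :=
  pr_fix fun i hi => by
    split_ifs with q
    exacts [h i (by omega) q, rfl]

variable (C) in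
def RR : Set (Nm V × Fin 4) :=
  {y | (y.1 ∈ em C lo '' Ok k ∧ y.2 ≠ 3) ∨ ∃ i ≤ k + 2, y ∈ (B.A (C.cp i)).PL true}

theorem stab {v : V} (hv : v ∈ Λ) : B.tw v ∈ Stab (Fre (RR C B)) :=
  pr_mem fun j _ => Rec.tau_stab fun y hy => by
    by_cases q : ∃ i ≤ k + 2, (v, j) = C.cp i
    · obtain ⟨i, hi, e⟩ := q
      exact Or.inr fun z hz => Or.inr ⟨i, hi, e ▸ hz⟩
    obtain ⟨i, hi, u⟩ : ∃ i ≤ k + 2, y.1 ∈ (B.A (C.cp i)).slots := by
      rcases hy with ⟨⟨μ, a, e⟩, -⟩ | ⟨i, hi, u⟩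
      exacts [⟨_, ow_le a false, false, e ▸ (mem_em B a false _).2 ⟨rfl, by simp⟩⟩,
        ⟨i, hi, Rec.PL_slot u⟩]
    refine Or.inl (Rec.lf_not fun w => q ?_)
    rcases B.shared (fun e => q ⟨i, hi, e⟩) w u with ⟨z, -⟩ | ⟨z, -⟩
    · exact ⟨_, by unfold up; omega, (C.pv i hi _ hv z).2⟩
    · obtain ⟨j', -, a, -, e⟩ := C.nx i hi _ hv z
      exact ⟨j', a, e⟩

theorem eqv (ord : ∀ i ≤ k + 2, ∃ r, (B.A (C.cp i)).cells =
      (cells k i).map (Prod.map (em C lo) id) ++ r) {v : V} (hv : v ∈ Λ) :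
    ∀ y ∈ RR C B, pi C lo (B.tw v (of y)) = tv (tw k) k (fun i => (C.cp i).1) v (pi C lo (of y)) := by
  rintro ⟨ν, d⟩ hy
  by_cases q : ν ∈ em C lo '' Ok k
  · obtain ⟨μ, a, rfl⟩ := q
    have d3 : d ≠ 3 := by
      rcases hy with ⟨-, u⟩ | ⟨i, -, ⟨-, u | ⟨u, -⟩⟩ | ⟨-, u | u⟩⟩
      · exact u
      all_goals first | (cases u; done) | (cases u; decide)
    rw [pi_em a]
    obtain rfl | rfl | rfl : d = 0 ∨ d = 1 ∨ d = 2 := by revert d3; fin_cases d <;> simp
    · by_cases w : μ.2 = 4 ∧ (C.cp (ow k μ true)).1 = v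
      · have o := ow_le a true
        have u := (mem_cells o μ true).2 ⟨a, rfl, fun _ => w.1⟩
        rw [← w.2, tv_on B o ⟨_, u⟩]
        show pi C lo (B.tw _ (ld _)) = (cv k _).tau true (ld _)
        rw [B.tw_ld (C.col _ o).2 ((mem_em B a true _).2 ⟨rfl, fun _ => w.1⟩), map_mul,
          Rec.tau_ld _ u, ← pi_ell B ord o u, ld, pi_em a]
        rfl
      · show pi C lo (B.tw _ (ld _)) = tv (tw k) k (fun i => (C.cp i).1) v (ld _)
        rw [B.tw_ld' fun j e => w (by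
          have := (mem_em B a true _).1 e
          exact ⟨this.2 rfl, by rw [← this.1]⟩), tv_fix fun i hi e => Rec.tau_ld' _ fun u => w (by
          have := (mem_cells hi μ true).1 u
          exact ⟨this.2.2 rfl, by rw [← this.2.1, e]⟩), ld, pi_em a]
        rfl
    · by_cases w : (C.cp (ow k μ false)).1 = v
      · have o := ow_le a false
        have u := (mem_cells o μ false).2 ⟨a, rfl, by simp⟩
        rw [← w, tv_on B o ⟨_, u⟩]
        show pi C lo (B.tw _ (lb _)) = (cv k _).tau true (lb _)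
        rw [B.tw_lb (C.col _ o).2 ((mem_em B a false _).2 ⟨rfl, by simp⟩), map_mul,
          Rec.tau_lb _ u, ← pi_ell B ord o u, lb, pi_em a]
        rfl
      · show pi C lo (B.tw _ (lb _)) = tv (tw k) k (fun i => (C.cp i).1) v (lb _)
        rw [B.tw_lb' fun j e => w (by rw [← ((mem_em B a false _).1 e).1]),
          tv_fix fun i hi e => Rec.tau_lb' _ fun u => w (by
            rw [← ((mem_cells hi μ false).1 u).2.1, e]), lb, pi_em a]
        rfl
    · show pi C lo (B.tw _ (lt _)) = tv (tw k) k (fun i => (C.cp i).1) v (lt _)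
      rw [B.tw_lt, tv_fix fun i _ _ => Rec.tau_lt _ _, lt, pi_em a]
      rfl
  · have fx : B.tw v (of (ν, d)) = of (ν, d) := by
      rcases hy with ⟨u, -⟩ | ⟨i, hi, ⟨u, rfl | ⟨z, -⟩⟩ | ⟨u, z⟩⟩
      · exact (q u).elim
      · refine B.tw_ld' fun j e => q ?_
        rcases (B.mem _ _).1 e with ⟨p, w, e'⟩ | ⟨p, w, e'⟩ | e' <;> cases e'
        obtain rfl := (B.f_cr.1 u).1
        obtain ⟨j', a, b, c, e'⟩ := C.nx i hi _ hv w
        exact ⟨(j', 4), ⟨b, Or.inr ⟨rfl, a⟩⟩, by simp [em, c, e']⟩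
      · cases z
      · rcases z with rfl | rfl
        · refine B.tw_lb' fun j e => q ?_
          rcases (B.mem _ _).1 u with ⟨p, w, e'⟩ | ⟨p, w, e'⟩ | e' <;> cases e'
          obtain rfl := (B.f_cr.1 e).1
          obtain ⟨a, e'⟩ := C.pv i hi _ hv w
          exact ⟨(i, 4), ⟨hi, Or.inr ⟨rfl, a⟩⟩, by simp [em, e', cr]⟩
        · exact B.tw_lt _ _
    rw [fx, pi_not q, map_one]

theorem exB [Finite V] (C : Cp m n lv Λ k) (lo : ℕ) : ∃ B : Bs m n lo lv, ∀ i ≤ k + 2, ∃ r,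
    (B.A (C.cp i)).cells = (cells k i).map (Prod.map (em C lo) id) ++ r := by
  classical
  let ix := Function.invFunOn C.cp (Iic (k + 2))
  have hx : ∀ i ≤ k + 2, ix (C.cp i) = i := fun i hi => C.inj.leftInvOn_invFunOn hi
  obtain ⟨B0, -⟩ := exists_bs (m := m) (n := n) (lo := lo) (lv := lv) (fun _ => []) (by simp) (by simp)
  obtain ⟨B, ord⟩ := exists_bs (m := m) (n := n) (lo := lo) (lv := lv)
    (fun p => if ∃ i ≤ k + 2, C.cp i = p then (cells k (ix p)).map (Prod.map (em C lo) id) else [])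
    (fun p => by
      split_ifs with q
      · obtain ⟨i, hi, rfl⟩ := q
        rw [hx i hi]
        refine List.Nodup.map_on (fun x a y b e => ?_) (cv k i).nodup
        exact Prod.ext (em_inj C lo ((mem_cells hi x.1 x.2).1 a).1 ((mem_cells hi y.1 y.2).1 b).1
          (congrArg Prod.fst e)) (congrArg Prod.snd e :)
      · simp) (fun p => by
      split_ifs with q
      · obtain ⟨i, hi, rfl⟩ := q
        rw [hx i hi]
        intro c hc
        obtain ⟨⟨μ, b⟩, u, rfl⟩ := List.mem_map.1 hc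
        have := (mem_cells hi μ b).1 u
        exact (B0.mem _ _).1 ((mem_em B0 this.1 b _).2 ⟨by rw [this.2.1], this.2.2⟩)
      · simp)
  exact ⟨B, fun i hi => by
    simpa only [if_pos (show ∃ j ≤ k + 2, C.cp j = C.cp i from ⟨i, hi, rfl⟩), hx i hi]
      using ord (C.cp i)⟩

end Dm

open Dm in
theorem dm : S_DM := by
  classical
  intro V _ m n lv Λ k C sym hn hl s hs t ht H lo
  obtain ⟨B, ord⟩ := exB C lo
  let tg : Nm V → Bool := fun ν => match ν.2.2 with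
    | .inl q => decide (q.2 = 0 ∨ q.2 = 3)
    | .inr _ => false
  have tge : ∀ i, ∀ j < 4, tg (em C lo (i, j)) = decide (j = 0 ∨ j = 3) := fun i j hj => by
    simp [tg, Dm.em, cr, hj.ne]
  let F : Finset (Nm V) := ((Finset.range (k + 3) ×ˢ Finset.range 4).filter fun μ =>
    (C.cp μ.1).1 = if μ.2 = 0 ∨ μ.2 = 3 then t else s).image (em C lo)
  have mF : ∀ i ≤ k + 2, ∀ j < 4, (C.cp i).1 = (if j = 0 ∨ j = 3 then t else s) →
      em C lo (i, j) ∈ F := fun i hi j hj e => Finset.mem_image_of_mem _ (Finset.mem_filter.2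
        ⟨Finset.mem_product.2 ⟨Finset.mem_range.2 (by omega), Finset.mem_range.2 hj⟩, e⟩)
  refine ⟨lo + 1, B.rep sym hn hl, F, tg, fun ν hν => ?_, ?_⟩
  · obtain ⟨⟨i, j⟩, u, rfl⟩ := Finset.mem_image.1 hν
    obtain ⟨u1, u2⟩ := Finset.mem_filter.1 u
    have hj : j < 4 := Finset.mem_range.1 (Finset.mem_product.1 u1).2
    rw [tge i j hj, Dm.em, if_neg hj.ne]
    refine B.mark _ _ ?_
    simp only at u2
    rw [u2]
    by_cases q : j = 0 ∨ j = 3 <;> simp [q, hs, ht]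
  rintro g _ _ ⟨rfl, rfl, hg, nd⟩
  by_contra hc
  push Not at hc
  obtain ⟨x, hx, rfl⟩ : ∃ x ∈ Subgroup.closure ((fun v => ((PresentedGroup.of v : Art m),
      tv (tw k) k (fun i => (C.cp i).1) v)) '' Λ), x.1 = g :=
    Subgroup.mem_map.1 (Par.ind (K := (Subgroup.closure ((fun v => ((PresentedGroup.of v : Art m),
      tv (tw k) k (fun i => (C.cp i).1) v)) '' Λ)).map (MonoidHom.fst _ _))
      (fun v hv => Subgroup.mem_map.2 ⟨_, Subgroup.subset_closure ⟨v, hv, rfl⟩, rfl⟩) hg)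
  have key : (B.rep sym hn hl).ψ x.1 ∈ Stab (Fre (RR C B)) ∧
      ∀ y ∈ Fre (RR C B), pi C lo ((B.rep sym hn hl).ψ x.1 y) = x.2 (pi C lo y) := by
    clear hc nd hg
    induction hx using Subgroup.closure_induction with
    | mem _ u =>
      obtain ⟨v, hv, rfl⟩ := u
      rw [B.rep_ψ]
      exact ⟨stab B hv, fun y hy => Fre.eq ((pi C lo).comp (B.tw v).toMonoidHom)
        ((tv (tw k) k (fun i => (C.cp i).1) v).toMonoidHom.comp (pi C lo)) (eqv B ord hv) hy⟩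
    | one => simp
    | mul g g' _ _ u v =>
      refine ⟨by rw [Prod.fst_mul, map_mul]; exact mul_mem u.1 v.1, fun y hy => ?_⟩
      rw [Prod.fst_mul, map_mul, MulAut.mul_apply, u.2 _ ((v.1 y).2 hy), v.2 y hy, Prod.snd_mul,
        MulAut.mul_apply]
    | inv g _ u =>
      have w := inv_mem u.1
      refine ⟨by rwa [Prod.fst_inv, map_inv], fun y hy => ?_⟩
      have := u.2 _ ((w y).2 hy)
      rw [MulAut.apply_inv_self] at this
      rw [Prod.fst_inv, map_inv, this, Prod.snd_inv, MulAut.inv_apply_self]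
  refine nd (H x hx fun i hi j hj ci cj => ?_)
  have av : ∀ a, a = 0 ∨ a = 3 → ∀ b, b = 1 ∨ b = 2 → x.2 (lb (i, a)) ∈ Fre {((j, b), 0)}ᶜ := by
    intro a ha b hb
    have oa : (i, a) ∈ Ok k := ⟨hi, Or.inl (by omega)⟩
    have := pi_av (hc _ (mF i hi a (by omega) (by rw [if_pos ha, ci])) _
      (mF j hj b (by omega) (by rw [if_neg (by omega), cj]))
      (by rw [tge i a (by omega)]; simpa using ha) (by rw [tge j b (by omega)]; simp; omega))
    rwa [lb, key.2 _ (of_mem_Fre (x := (Dm.em C lo (i, a), 1)) (Or.inl ⟨⟨_, oa, rfl⟩, by simp⟩)),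
      pi_em oa] at this
  exact ⟨⟨av 0 (by simp) 1 (by simp), av 0 (by simp) 2 (by simp)⟩,
    av 3 (by simp) 1 (by simp), av 3 (by simp) 2 (by simp)⟩

end Pool.Agent.MP_6eaae3_al.DN

end MrgPart2

-- marker of a merged file
example : 731051 + 643755 = 731051 + 643755 := rfl
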